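import Pool.Agent.Helper24.MD.Steps

set_option autoImplicit false

/-! # Project MD, Mid: what remains in case E -/

namespace Pool.Agent.Helper24.MD

open Finset

/-- classes inside a subset of relative size `τ` give entropy `≥ τ log (1 / τ)` -/
theorem hh_lower {α ι : Type*} [DecidableEq ι] (φ : α → ι) (Y Yp : Finset α) (hY : Y.Nonempty)
    (hsub : Yp ⊆ Y) (hne : Yp.Nonempty) (hcl : ∀ y ∈ Yp, cl φ Y y ⊆ Yp) :
    (Yp.card : ℝ) / Y.card * (Real.log (Y.card : ℝ) - Real.log (Yp.card : ℝ)) ≤ hh φ Y := by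
  classical
  have hYc : (0 : ℝ) < Y.card := by exact_mod_cast hY.card_pos
  have hYpc : (0 : ℝ) < Yp.card := by exact_mod_cast hne.card_pos
  have hpos : ∀ y ∈ Y, (0 : ℝ) < (cl φ Y y).card := fun y hy => by
    have : 0 < (cl φ Y y).card := Finset.card_pos.mpr ⟨y, by simp [cl, hy]⟩
    exact_mod_cast this
  have h1 : ∑ y ∈ Yp, Real.log ((cl φ Y y).card : ℝ) ≤ ∑ y ∈ Yp, Real.log (Yp.card : ℝ) := by
    apply Finset.sum_le_sum
    intro y hy
    apply Real.log_le_log (hpos y (hsub hy))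
    exact_mod_cast Finset.card_le_card (hcl y hy)
  have h2 : ∑ y ∈ Y \ Yp, Real.log ((cl φ Y y).card : ℝ) ≤
      ∑ y ∈ Y \ Yp, Real.log (Y.card : ℝ) := by
    apply Finset.sum_le_sum
    intro y hy
    apply Real.log_le_log (hpos y (Finset.mem_sdiff.mp hy).1)
    exact_mod_cast Finset.card_le_card (Finset.filter_subset _ _)
  rw [Finset.sum_const, nsmul_eq_mul] at h1 h2
  have h3 := Finset.sum_sdiff hsub (f := fun y => Real.log ((cl φ Y y).card : ℝ))
  have h4 : ((Y \ Yp).card : ℝ) = Y.card - Yp.card := by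
    rw [Finset.card_sdiff_of_subset hsub, Nat.cast_sub (Finset.card_le_card hsub)]
  rw [h4] at h2
  have h5 : ∑ y ∈ Y, Real.log ((cl φ Y y).card : ℝ) ≤
      Yp.card * Real.log (Yp.card : ℝ) + (Y.card - Yp.card) * Real.log (Y.card : ℝ) := by
    linarith
  unfold hh av
  have h6 : (∑ y ∈ Y, Real.log ((cl φ Y y).card : ℝ)) / (Y.card : ℝ) ≤
      (Yp.card * Real.log (Yp.card : ℝ) + (Y.card - Yp.card) * Real.log (Y.card : ℝ)) /
        (Y.card : ℝ) := div_le_div_of_nonneg_right h5 hYc.le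
  have h7 : (Yp.card * Real.log (Yp.card : ℝ) + (Y.card - Yp.card) * Real.log (Y.card : ℝ)) /
        (Y.card : ℝ) = Real.log (Y.card : ℝ) -
      (Yp.card : ℝ) / Y.card * (Real.log (Y.card : ℝ) - Real.log (Yp.card : ℝ)) := by
    field_simp
    ring
  linarith

/-- In case E: with `κ`, `C3 = log (1/κ) / ε`, `C4 = 2 C3 / ε`, `t0 = exp (-4/ε^2)`:
not A, not B, not C imply the bounds of case E.
`a = |Y|`, `b = |Y_+|`, `hX, hY` the two entropies. -/
theorem mid (ε κ a b hX hY : ℝ) (hε : 0 < ε) (hε1 : ε ≤ 1) (hκ : 0 < κ) (hκ1 : κ ≤ 1 / 2)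
    (ha : 0 < a) (hb : 0 < b) (hba : b < a) (hX0 : 0 ≤ hX) (hY0 : 0 ≤ hY)
    (hA : b < (1 - κ) * a) (hB : ε * hX < Real.log a - Real.log (a - b))
    (hC : ε / 2 * hY < hX)
    (hlow : b / a * (Real.log a - Real.log b) ≤ hY) :
    hX ≤ 2 * (Real.log (1 / κ) / ε) / ε ∧ hY ≤ 2 * (Real.log (1 / κ) / ε) / ε ∧
      Real.exp (-4 / ε ^ 2) * a ≤ b := by
  have hab : 0 < a - b := by linarith
  have hL : 0 ≤ Real.log (1 / κ) := by
    apply Real.log_nonneg
    rw [le_div_iff₀ hκ]
    linarith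
  have h1 : Real.log a - Real.log (a - b) ≤ Real.log (1 / κ) := by
    have h2 : Real.log (κ * a) ≤ Real.log (a - b) := by
      apply Real.log_le_log (by positivity)
      linarith
    rw [Real.log_mul hκ.ne' ha.ne'] at h2
    rw [one_div, Real.log_inv]
    linarith
  have h2 : hX ≤ Real.log (1 / κ) / ε := by
    rw [le_div_iff₀ hε]
    nlinarith
  have h3 : hY ≤ 2 * (Real.log (1 / κ) / ε) / ε := by
    rw [le_div_iff₀ hε]
    linarith
  have h0 : 0 ≤ Real.log (1 / κ) / ε := div_nonneg hL hε.le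
  have h4 : hX ≤ 2 * (Real.log (1 / κ) / ε) / ε := by
    rw [le_div_iff₀ hε]
    nlinarith
  refine ⟨h4, h3, ?_⟩
  by_contra hcon
  push Not at hcon
  have hτ : b / a < Real.exp (-4 / ε ^ 2) := by
    rw [div_lt_iff₀ ha]
    exact hcon
  have hτ0 : 0 < b / a := div_pos hb ha
  have hε2 : 0 < ε ^ 2 := by positivity
  have hlogτ : Real.log (b / a) < -4 / ε ^ 2 := by
    have := Real.log_lt_log hτ0 hτ
    rwa [Real.log_exp] at this
  rw [Real.log_div hb.ne' ha.ne'] at hlogτ
  -- `τ < 1/2`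
  have h5 : (4 : ℝ) ≤ 4 / ε ^ 2 := by
    rw [le_div_iff₀ hε2]
    nlinarith
  have hhalf : b / a < 1 / 2 := by
    have h6 : Real.exp (-4 / ε ^ 2) ≤ Real.exp (-1) := by
      apply Real.exp_le_exp.mpr
      have : -4 / ε ^ 2 = -(4 / ε ^ 2) := by ring
      linarith
    have h7 : Real.exp (-1) < 1 / 2 := by
      rw [Real.exp_neg, inv_eq_one_div]
      apply one_div_lt_one_div_of_lt (by norm_num)
      have := Real.exp_one_gt_d9
      linarith
    linarith
  have hb2 : b < a / 2 := by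
    rw [div_lt_iff₀ ha] at hhalf
    linarith
  have h8 : Real.log a - Real.log (a - b) ≤ 2 * (b / a) := by
    have h9 : Real.log (a / (a - b)) ≤ a / (a - b) - 1 := by
      have := Real.log_le_sub_one_of_pos (div_pos ha hab)
      exact this
    rw [Real.log_div ha.ne' hab.ne'] at h9
    have h10 : a / (a - b) - 1 = b / (a - b) := by
      field_simp
      ring
    have h11 : b / (a - b) ≤ 2 * (b / a) := by
      rw [div_le_iff₀ hab]
      have h12 : 2 * (b / a) * (a - b) = b * (2 * (a - b) / a) := by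
        field_simp
      rw [h12]
      have h13 : 1 ≤ 2 * (a - b) / a := by
        rw [le_div_iff₀ ha]
        linarith
      nlinarith
    linarith
  have h14 : b / a * (4 / ε ^ 2) ≤ hY := by
    refine le_trans ?_ hlow
    apply mul_le_mul_of_nonneg_left _ hτ0.le
    have : -4 / ε ^ 2 = -(4 / ε ^ 2) := by ring
    linarith
  have h15 : ε / 2 * (b / a * (4 / ε ^ 2)) = 2 * (b / a) / ε := by
    field_simp
    ring
  have h16 : 2 * (b / a) / ε < hX := by
    rw [← h15]
    refine lt_of_le_of_lt ?_ hC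
    exact mul_le_mul_of_nonneg_left h14 (by positivity)
  rw [div_lt_iff₀ hε] at h16
  linarith

end Pool.Agent.Helper24.MD
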