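import Pool.Agent.Helper24.MD.Steps

set_option autoImplicit false

/-! # Project MD, Trunc: truncation of a law with bounded entropy -/

namespace Pool.Agent.Helper24.MD

open Finset

/-- If `hh φ S ≤ C` then, for `0 < δ ≤ 1/2`, a union `S'` of classes with at least `(1-δ)|S|`
elements consists of at most `exp (C / δ)` classes.
Proof: `S' = {x ∈ S : |S| exp (-C/δ) ≤ |cl φ S x|}`; Markov for `log (|S| / |cl φ S x|) ≥ 0`. -/
theorem trunc {α ι : Type*} [DecidableEq ι] (φ : α → ι) (S : Finset α) (hS : S.Nonempty)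
    (C δ : ℝ) (hC : hh φ S ≤ C) (hC0 : 0 ≤ C) (hδ : 0 < δ) (hδ1 : δ ≤ 1 / 2) :
    ∃ S' ⊆ S, S'.Nonempty ∧ (1 - δ) * (S.card : ℝ) ≤ (S'.card : ℝ) ∧
      ((S'.image φ).card : ℝ) ≤ Real.exp (C / δ) ∧
      ∀ x ∈ S', ∀ y ∈ S, φ y = φ x → y ∈ S' := by
  classical
  set n : ℝ := (S.card : ℝ) with hn
  have hn0 : 0 < n := by
    rw [hn]
    exact_mod_cast hS.card_pos
  set t : ℝ := n * Real.exp (-(C / δ)) with ht
  set S' := S.filter (fun x => t ≤ ((cl φ S x).card : ℝ)) with hS'
  have hsub : S' ⊆ S := Finset.filter_subset _ _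
  have hc1 : ∀ x ∈ S, (1 : ℝ) ≤ ((cl φ S x).card : ℝ) := by
    intro x hx
    have : 0 < (cl φ S x).card := by
      apply Finset.card_pos.mpr
      refine ⟨x, ?_⟩
      unfold cl
      rw [mem_filter]
      exact ⟨hx, rfl⟩
    exact_mod_cast this
  have hc2 : ∀ x, ((cl φ S x).card : ℝ) ≤ n := by
    intro x
    rw [hn]
    exact_mod_cast Finset.card_le_card (Finset.filter_subset _ _)
  set f : α → ℝ := fun x => Real.log n - Real.log ((cl φ S x).card : ℝ) with hf
  have hf0 : ∀ x ∈ S, 0 ≤ f x := by
    intro x hx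
    have h1 := hc1 x hx
    have h2 := Real.log_le_log (by linarith) (hc2 x)
    simp only [hf]
    linarith
  have hsum : ∑ x ∈ S, f x ≤ n * C := by
    have h1 : ∑ x ∈ S, f x = n * hh φ S := by
      unfold hh av
      simp only [hf]
      rw [Finset.sum_sub_distrib, Finset.sum_const, nsmul_eq_mul, ← hn]
      field_simp
    rw [h1]
    exact mul_le_mul_of_nonneg_left hC hn0.le
  set B := S.filter (fun x => ¬ t ≤ ((cl φ S x).card : ℝ)) with hB
  have hcard : (S'.card : ℝ) + (B.card : ℝ) = n := by
    have := Finset.card_filter_add_card_filter_not (s := S) (fun x => t ≤ ((cl φ S x).card : ℝ))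
    rw [hn, hS', hB]
    exact_mod_cast this
  have hBle : (B.card : ℝ) ≤ δ * n := by
    rcases Finset.eq_empty_or_nonempty B with h | h
    · rw [h, Finset.card_empty, Nat.cast_zero]
      positivity
    · have h1 : (B.card : ℝ) * (C / δ) < ∑ x ∈ B, f x := by
        have h7 : ∑ x ∈ B, (C / δ) < ∑ x ∈ B, f x := by
          refine Finset.sum_lt_sum_of_nonempty h ?_
          intro x hx
          rw [hB, mem_filter] at hx
          have h8 := not_le.mp hx.2
          have h9 := hc1 x hx.1
          have h10 : Real.log ((cl φ S x).card : ℝ) < Real.log t := Real.log_lt_log (by linarith) h8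
          rw [ht, Real.log_mul hn0.ne' (Real.exp_pos _).ne', Real.log_exp] at h10
          simp only [hf]
          linarith
        rwa [Finset.sum_const, nsmul_eq_mul] at h7
      have h2 : ∑ x ∈ B, f x ≤ ∑ x ∈ S, f x :=
        Finset.sum_le_sum_of_subset_of_nonneg (Finset.filter_subset _ _) fun x hx _ => hf0 x hx
      have h3 : (B.card : ℝ) * (C / δ) < n * C := by linarith
      have hCpos : 0 < C := by
        rcases lt_or_eq_of_le hC0 with h4 | h4
        · exact h4
        · rw [← h4] at h3
          simp at h3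
      have h4 : (B.card : ℝ) * C < δ * n * C := by
        have h5 : (B.card : ℝ) * (C / δ) * δ < n * C * δ := mul_lt_mul_of_pos_right h3 hδ
        have h6 : (B.card : ℝ) * (C / δ) * δ = (B.card : ℝ) * C := by field_simp
        rw [h6] at h5
        linarith
      exact (lt_of_mul_lt_mul_right h4 hC0).le
  have hbig : (1 - δ) * n ≤ (S'.card : ℝ) := by linarith
  have hpos : 0 < (S'.card : ℝ) := by
    have : 0 < (1 - δ) * n := mul_pos (by linarith) hn0
    linarith
  refine ⟨S', hsub, Finset.card_pos.mp (by exact_mod_cast hpos), hbig, ?_, ?_⟩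
  · have h1 : ∑ i ∈ S'.image φ, ((S.filter (fun y => φ y = i)).card : ℝ) ≤ n := by
      have h2 : S.card = ∑ b ∈ S.image φ, (S.filter (fun y => φ y = b)).card := Finset.card_eq_sum_card_image φ S
      have h3 : ∑ i ∈ S'.image φ, (S.filter (fun y => φ y = i)).card ≤
          ∑ b ∈ S.image φ, (S.filter (fun y => φ y = b)).card :=
        Finset.sum_le_sum_of_subset (Finset.image_subset_image hsub)
      rw [← h2] at h3
      rw [hn]
      exact_mod_cast h3
    have h2 : ((S'.image φ).card : ℝ) * t ≤ ∑ i ∈ S'.image φ, ((S.filter (fun y => φ y = i)).card : ℝ) := by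
      rw [← nsmul_eq_mul]
      refine Finset.card_nsmul_le_sum _ _ _ ?_
      intro i hi
      rw [mem_image] at hi
      obtain ⟨x, hx, rfl⟩ := hi
      rw [hS', mem_filter] at hx
      exact hx.2
    have h3 : ((S'.image φ).card : ℝ) * t ≤ n := h2.trans h1
    rw [ht] at h3
    have h4 : ((S'.image φ).card : ℝ) * Real.exp (-(C / δ)) ≤ 1 := by
      have h5 : n * (((S'.image φ).card : ℝ) * Real.exp (-(C / δ))) ≤ n * 1 := by linarith
      exact le_of_mul_le_mul_left h5 hn0
    rw [Real.exp_neg, mul_inv_le_iff₀ (Real.exp_pos _), one_mul] at h4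
    exact h4
  · intro x hx y hy hxy
    rw [hS', mem_filter] at hx ⊢
    refine ⟨hy, ?_⟩
    have h1 : cl φ S y = cl φ S x := by
      unfold cl
      rw [hxy]
    rw [h1]
    exact hx.2

end Pool.Agent.Helper24.MD
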