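import Pool.Agent.Helper24.MD.Pairs
import Pool.Agent.Helper28.LN.NodeT
import Pool.Agent.Helper15.GL.Split

set_option autoImplicit false

/-! # Project MD, the product side at one prime -/

namespace Pool.Agent.Helper24.MD

open Finset

/-- any prime: the valuation of `b` is seen once the valuation of `a` is known -/
theorem prod_any (p : ℕ) (B A : Finset ℕ) (hB : B.Nonempty) (hA : A.Nonempty)
    (hB0 : ∀ b ∈ B, 0 < b) (hA0 : ∀ a ∈ A, 0 < a) :
    hh (fun n : ℕ => n.factorization p) B +
      av B (fun b => av A (fun a => Real.log ((Finset.image₂ (fun x y : ℕ => x * y)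
        (cl (fun n : ℕ => n.factorization p) B b)
        (cl (fun n : ℕ => n.factorization p) A a)).card : ℝ))) ≤
      Real.log ((Finset.image₂ (fun x y : ℕ => x * y) B A).card : ℝ) := by
  refine step_left (fun x y : ℕ => x * y) (fun n : ℕ => n.factorization p)
    (fun n : ℕ => n.factorization p) B A hB hA ?_
  intro x hx x' hx' y hy y' hy' h1 h2
  have h3 : (x * y).factorization p = (x' * y').factorization p :=
    congrArg (fun n : ℕ => n.factorization p) h2
  have h4 : y.factorization p = y'.factorization p := h1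
  rw [Nat.factorization_mul (hB0 x hx).ne' (hA0 y hy).ne',
    Nat.factorization_mul (hB0 x' hx').ne' (hA0 y' hy').ne', Finsupp.add_apply,
    Finsupp.add_apply, h4] at h3
  exact Nat.add_right_cancel h3

theorem avP_congr {α : Type*} (S : Finset α) (F F' : α → ℝ) (h : ∀ x ∈ S, F x = F' x) :
    av S F = av S F' := by
  unfold av
  rw [Finset.sum_congr rfl h]

/-- the law of `δ` on `C` -/
noncomputable def lawG {α G : Type} [DecidableEq G] (C : Finset α) (δ : α → G) (u : G) : ℝ :=
  ((C.filter (fun x => δ x = u)).card : ℝ) / C.card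

theorem lawG_nonneg {α G : Type} [DecidableEq G] (C : Finset α) (δ : α → G) (u : G) :
    0 ≤ lawG C δ u := by
  unfold lawG
  positivity

theorem sum_lawG_mul {α G : Type} [Fintype G] [DecidableEq G] (C : Finset α) (hC : C.Nonempty)
    (δ : α → G) (F : G → ℝ) : (C.card : ℝ) * ∑ u, lawG C δ u * F u = ∑ x ∈ C, F (δ x) := by
  have hc : (C.card : ℝ) ≠ 0 := by
    have := Finset.card_pos.2 hC
    positivity
  rw [← Finset.sum_fiberwise C δ, Finset.mul_sum]
  refine Finset.sum_congr rfl fun u _ => ?_
  have h1 : ∑ x ∈ C.filter (fun x => δ x = u), F (δ x) =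
      ∑ x ∈ C.filter (fun x => δ x = u), F u := by
    refine Finset.sum_congr rfl fun x hx => ?_
    rw [(Finset.mem_filter.1 hx).2]
  rw [h1, Finset.sum_const, nsmul_eq_mul]
  unfold lawG
  field_simp

theorem sum_lawG {α G : Type} [Fintype G] [DecidableEq G] (C : Finset α) (hC : C.Nonempty)
    (δ : α → G) : ∑ u, lawG C δ u = 1 := by
  have hc : (C.card : ℝ) ≠ 0 := by
    have := Finset.card_pos.2 hC
    positivity
  have h := sum_lawG_mul C hC δ (fun _ => 1)
  simp only [mul_one, Finset.sum_const, nsmul_eq_mul] at h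
  exact mul_left_cancel₀ hc (by rw [h, mul_one])

theorem ent_lawG {α G : Type} [Fintype G] [DecidableEq G] (C : Finset α) (hC : C.Nonempty)
    (δ : α → G) : Pool.Agent.Helper15.GL.ent (lawG C δ) = hh δ C := by
  have hc : (C.card : ℝ) ≠ 0 := by
    have := Finset.card_pos.2 hC
    positivity
  have h := sum_lawG_mul C hC δ (fun u => Real.log C.card -
    Real.log ((C.filter (fun y => δ y = u)).card))
  have h1 : ∑ u, lawG C δ u * (Real.log C.card - Real.log ((C.filter (fun y => δ y = u)).card)) =
      Pool.Agent.Helper15.GL.ent (lawG C δ) := by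
    unfold Pool.Agent.Helper15.GL.ent
    refine Finset.sum_congr rfl fun u _ => ?_
    rcases eq_or_ne ((C.filter (fun y => δ y = u)).card) 0 with h0 | h0
    · have h1 : lawG C δ u = 0 := by
        unfold lawG
        rw [h0]
        simp
      rw [h1]
      simp
    · have h1 : (((C.filter (fun y => δ y = u)).card : ℕ) : ℝ) ≠ 0 := by exact_mod_cast h0
      unfold Real.negMulLog
      have h2 : Real.log (lawG C δ u) = Real.log ((C.filter (fun y => δ y = u)).card) -
          Real.log C.card := by
        unfold lawG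
        rw [Real.log_div h1 hc]
      rw [h2]
      ring
  rw [h1] at h
  refine mul_left_cancel₀ hc ?_
  rw [h, hh, av, Finset.sum_sub_distrib, Finset.sum_const, nsmul_eq_mul, mul_sub,
    mul_div_cancel₀ _ hc]
  rfl

/-- Splitting a product set along `δ3 (op x y) = δ1 x + δ2 y`. -/
theorem split_op {α β γ G : Type} [Fintype G] [DecidableEq G] [AddCommGroup G] [DecidableEq γ]
    (op : α → β → γ) (C : Finset α) (D : Finset β)
    (hC : C.Nonempty) (hD : D.Nonempty) (δ1 : α → G) (δ2 : β → G) (δ3 : γ → G)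
    (hδ : ∀ x ∈ C, ∀ y ∈ D, δ3 (op x y) = δ1 x + δ2 y) :
    Pool.Agent.Helper15.GL.ent (Pool.Agent.Helper15.GL.conv (lawG C δ1) (lawG D δ2)) +
      av C (fun x => av D (fun y => Real.log ((Finset.image₂ op (cl δ1 C x)
        (cl δ2 D y)).card : ℝ))) ≤
      Real.log ((Finset.image₂ op C D).card : ℝ) := by
  classical
  obtain ⟨S, hS⟩ : ∃ S : Finset γ, S = Finset.image₂ op C D := ⟨_, rfl⟩
  have hSne : S.Nonempty := by
    rw [hS]
    exact hC.image₂ hD
  have hSc : (0 : ℝ) < S.card := by exact_mod_cast Finset.card_pos.2 hSne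
  have hCc : (0 : ℝ) < C.card := by exact_mod_cast Finset.card_pos.2 hC
  have hDc : (0 : ℝ) < D.card := by exact_mod_cast Finset.card_pos.2 hD
  obtain ⟨q, hq⟩ : ∃ q : G → ℝ, q = Pool.Agent.Helper15.GL.conv (lawG C δ1) (lawG D δ2) :=
    ⟨_, rfl⟩
  have hq0 : ∀ z, 0 ≤ q z := by
    rw [hq]
    exact Pool.Agent.Helper15.GL.conv_nonneg _ _ (lawG_nonneg C δ1) (lawG_nonneg D δ2)
  have hq1 : ∑ z, q z = 1 := by
    rw [hq, Pool.Agent.Helper15.GL.sum_conv, sum_lawG C hC, sum_lawG D hD, one_mul]
  rw [← hS, ← hq]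
  obtain ⟨sw, hsw⟩ : ∃ sw : G → ℝ, sw = fun w => ((S.filter (fun z => δ3 z = w)).card : ℝ) :=
    ⟨_, rfl⟩
  have hsw0 : ∀ w, 0 ≤ sw w := by
    intro w
    rw [hsw]
    exact Nat.cast_nonneg _
  have hswsum : ∑ w, sw w = S.card := by
    rw [hsw]
    have h := Finset.card_eq_sum_card_fiberwise (f := δ3) (s := S) (t := Finset.univ)
      (fun x _ => Finset.mem_coe.mpr (Finset.mem_univ _))
    rw [h]
    push_cast
    rfl
  -- the parts of the product set
  have hsub : ∀ x ∈ C, ∀ y ∈ D, Finset.image₂ op (cl δ1 C x) (cl δ2 D y) ⊆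
      S.filter (fun z => δ3 z = δ1 x + δ2 y) := by
    intro x hx y hy z hz
    rw [Finset.mem_image₂] at hz
    obtain ⟨a, ha, b, hb, rfl⟩ := hz
    unfold cl at ha hb
    rw [Finset.mem_filter] at ha hb
    rw [Finset.mem_filter, hS]
    refine ⟨Finset.mem_image₂_of_mem ha.1 hb.1, ?_⟩
    rw [hδ a ha.1 b hb.1, ha.2, hb.2]
  have hne : ∀ x ∈ C, ∀ y ∈ D, (Finset.image₂ op (cl δ1 C x) (cl δ2 D y)).Nonempty := by
    intro x hx y hy
    exact Finset.Nonempty.image₂ ⟨x, Finset.mem_filter.2 ⟨hx, rfl⟩⟩
      ⟨y, Finset.mem_filter.2 ⟨hy, rfl⟩⟩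
  -- Gibbs
  have hqs : ∀ w, 0 < q w → 0 < sw w := by
    intro w hw
    rw [hq] at hw
    unfold Pool.Agent.Helper15.GL.conv at hw
    obtain ⟨a, -, ha⟩ := Finset.exists_ne_zero_of_sum_ne_zero hw.ne'
    have h1 : lawG C δ1 a ≠ 0 := left_ne_zero_of_mul ha
    have h2 : lawG D δ2 (w - a) ≠ 0 := right_ne_zero_of_mul ha
    unfold lawG at h1 h2
    have h3 : (C.filter (fun x => δ1 x = a)).Nonempty := by
      rw [← Finset.card_pos]
      by_contra h
      have : (C.filter (fun x => δ1 x = a)).card = 0 := by omega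
      rw [this] at h1
      simp at h1
    have h4 : (D.filter (fun x => δ2 x = w - a)).Nonempty := by
      rw [← Finset.card_pos]
      by_contra h
      have : (D.filter (fun x => δ2 x = w - a)).card = 0 := by omega
      rw [this] at h2
      simp at h2
    obtain ⟨x, hx⟩ := h3
    obtain ⟨y, hy⟩ := h4
    rw [Finset.mem_filter] at hx hy
    rw [hsw]
    simp only
    have h5 : (S.filter (fun z => δ3 z = w)).Nonempty := by
      refine ⟨op x y, ?_⟩
      rw [Finset.mem_filter, hS]
      refine ⟨Finset.mem_image₂_of_mem hx.1 hy.1, ?_⟩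
      rw [hδ x hx.1 y hy.1, hx.2, hy.2, add_sub_cancel]
    exact_mod_cast Finset.card_pos.2 h5
  have hG : Pool.Agent.Helper15.GL.ent q + ∑ w, q w * Real.log (sw w) ≤ Real.log S.card := by
    have h1 : ∀ w, q w * (Real.log (sw w) - Real.log (q w) - Real.log S.card) ≤
        sw w / S.card - q w := by
      intro w
      rcases eq_or_lt_of_le (hq0 w) with h | h
      · rw [← h, zero_mul, sub_zero]
        exact div_nonneg (hsw0 w) hSc.le
      · have h2 := hqs w h
        have h3 : Real.log (sw w) - Real.log (q w) - Real.log S.card =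
            Real.log (sw w / (q w * S.card)) := by
          rw [Real.log_div h2.ne' (by positivity), Real.log_mul h.ne' hSc.ne']
          ring
        rw [h3]
        have h4 := Real.log_le_sub_one_of_pos (show 0 < sw w / (q w * S.card) by positivity)
        calc q w * Real.log (sw w / (q w * S.card)) ≤ q w * (sw w / (q w * S.card) - 1) :=
              mul_le_mul_of_nonneg_left h4 h.le
          _ = sw w / S.card - q w := by field_simp
    have h2 := Finset.sum_le_sum (s := univ) fun w _ => h1 w
    rw [Finset.sum_sub_distrib, ← Finset.sum_div, hswsum, hq1, div_self hSc.ne', sub_self] at h2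
    have h3 : ∑ w, q w * (Real.log (sw w) - Real.log (q w) - Real.log S.card) =
        ∑ w, q w * Real.log (sw w) + Pool.Agent.Helper15.GL.ent q - Real.log S.card := by
      have e : Real.log S.card = ∑ w, q w * Real.log S.card := by
        rw [← Finset.sum_mul, hq1, one_mul]
      conv_rhs => rw [e]
      unfold Pool.Agent.Helper15.GL.ent Real.negMulLog
      rw [← Finset.sum_add_distrib, ← Finset.sum_sub_distrib]
      refine Finset.sum_congr rfl fun w _ => ?_
      ring
    linarith
  -- the average of the logarithms of the parts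
  have hA : ∑ w, q w * Real.log (sw w) =
      av C (fun x => av D (fun y => Real.log (sw (δ1 x + δ2 y)))) := by
    rw [hq, Pool.Agent.Helper15.GL.sum_conv_mul (lawG C δ1) (lawG D δ2)
      (fun z => Real.log (sw z))]
    have h1 : ∀ x, av D (fun y => Real.log (sw (δ1 x + δ2 y))) =
        ∑ v, lawG D δ2 v * Real.log (sw (δ1 x + v)) := by
      intro x
      unfold av
      rw [← sum_lawG_mul D hD δ2 (fun v => Real.log (sw (δ1 x + v)))]
      field_simp
    have h2 := sum_lawG_mul C hC δ1 (fun u => ∑ v, lawG D δ2 v * Real.log (sw (u + v)))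
    rw [show (fun x => av D (fun y => Real.log (sw (δ1 x + δ2 y)))) =
      fun x => ∑ v, lawG D δ2 v * Real.log (sw (δ1 x + v)) from funext h1]
    unfold av
    rw [← h2, mul_comm, mul_div_assoc, div_self hCc.ne', mul_one]
    refine Finset.sum_congr rfl fun u _ => ?_
    rw [Finset.mul_sum]
    refine Finset.sum_congr rfl fun v _ => ?_
    ring
  have hB : av C (fun x => av D (fun y => Real.log ((Finset.image₂ op (cl δ1 C x)
        (cl δ2 D y)).card : ℝ))) ≤
      av C (fun x => av D (fun y => Real.log (sw (δ1 x + δ2 y)))) := by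
    refine av_mono _ _ _ fun x hx => av_mono _ _ _ fun y hy => ?_
    apply Real.log_le_log
    · exact_mod_cast Finset.card_pos.2 (hne x hx y hy)
    · rw [hsw]
      simp only
      exact_mod_cast Finset.card_le_card (hsub x hx y hy)
  linarith

/-- a prime at which one valuation has frequency `≥ 1 - t0` in `A`: nothing is lost.
`nodeT` for the laws of `v_p` modulo a large integer. -/
theorem prod_node (η : ℝ) (hη : 0 < η) (hη1 : η ≤ 1) : ∃ t0 : ℝ, 0 < t0 ∧ t0 ≤ 1 / 2 ∧
    ∀ (p : ℕ) (B A : Finset ℕ), B.Nonempty → A.Nonempty → (∀ b ∈ B, 0 < b) →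
      (∀ a ∈ A, 0 < a) →
      (∃ a ∈ A, (1 - t0) * (A.card : ℝ) ≤
        ((cl (fun n : ℕ => n.factorization p) A a).card : ℝ)) →
      (1 - η) * (hh (fun n : ℕ => n.factorization p) B +
          hh (fun n : ℕ => n.factorization p) A) +
        av B (fun b => av A (fun a => Real.log ((Finset.image₂ (fun x y : ℕ => x * y)
          (cl (fun n : ℕ => n.factorization p) B b)
          (cl (fun n : ℕ => n.factorization p) A a)).card : ℝ))) ≤
        Real.log ((Finset.image₂ (fun x y : ℕ => x * y) B A).card : ℝ) := by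
  obtain ⟨t0, ht0, ht1, hnode⟩ := Pool.Agent.Helper28.LN.nodeT η hη
  refine ⟨t0, ht0, ht1, ?_⟩
  intro p B A hB hA hB0 hA0 hatom
  -- a modulus larger than all the valuations
  obtain ⟨N, hN⟩ : ∃ N : ℕ, ∀ n ∈ B ∪ A, n.factorization p < N + 1 := by
    refine ⟨(B ∪ A).sup fun n => n.factorization p, fun n hn => ?_⟩
    exact Nat.lt_succ_of_le (Finset.le_sup (f := fun n : ℕ => n.factorization p) hn)
  let δ : ℕ → ZMod (N + 1) := fun n => ((n.factorization p : ℕ) : ZMod (N + 1))
  have hinj : ∀ n ∈ B ∪ A, ∀ n' ∈ B ∪ A, δ n = δ n' ↔ n.factorization p = n'.factorization p := by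
    intro n hn n' hn'
    constructor
    · intro h
      have h1 := (ZMod.natCast_eq_natCast_iff' _ _ _).mp h
      rwa [Nat.mod_eq_of_lt (hN n hn), Nat.mod_eq_of_lt (hN n' hn')] at h1
    · intro h
      show ((n.factorization p : ℕ) : ZMod (N + 1)) = _
      rw [h]
  have hclB : ∀ b ∈ B, cl δ B b = cl (fun n : ℕ => n.factorization p) B b := by
    intro b hb
    unfold cl
    refine Finset.filter_congr fun x hx => ?_
    exact hinj x (Finset.mem_union_left _ hx) b (Finset.mem_union_left _ hb)
  have hclA : ∀ a ∈ A, cl δ A a = cl (fun n : ℕ => n.factorization p) A a := by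
    intro a ha
    unfold cl
    refine Finset.filter_congr fun x hx => ?_
    exact hinj x (Finset.mem_union_right _ hx) a (Finset.mem_union_right _ ha)
  have hhB : hh δ B = hh (fun n : ℕ => n.factorization p) B := by
    unfold hh
    exact congrArg (Real.log (B.card : ℝ) - ·) (avP_congr _ _ _ fun b hb => by
      simp only [hclB b hb])
  have hhA : hh δ A = hh (fun n : ℕ => n.factorization p) A := by
    unfold hh
    exact congrArg (Real.log (A.card : ℝ) - ·) (avP_congr _ _ _ fun b hb => by
      simp only [hclA b hb])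
  have hav : av B (fun b => av A (fun a => Real.log ((Finset.image₂ (fun x y : ℕ => x * y)
        (cl δ B b) (cl δ A a)).card : ℝ))) =
      av B (fun b => av A (fun a => Real.log ((Finset.image₂ (fun x y : ℕ => x * y)
          (cl (fun n : ℕ => n.factorization p) B b)
          (cl (fun n : ℕ => n.factorization p) A a)).card : ℝ))) := by
    refine avP_congr _ _ _ fun b hb => avP_congr _ _ _ fun a ha => ?_
    simp only [hclB b hb, hclA a ha]
  have hsplit := split_op (fun x y : ℕ => x * y) B A hB hA δ δ δ (by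
    intro x hx y hy
    show (((x * y).factorization p : ℕ) : ZMod (N + 1)) = _
    rw [Nat.factorization_mul (hB0 x hx).ne' (hA0 y hy).ne', Finsupp.add_apply, Nat.cast_add])
  obtain ⟨a0, ha0, hatom⟩ := hatom
  have hAc : (0 : ℝ) < A.card := by exact_mod_cast Finset.card_pos.2 hA
  have hloss := hnode (ZMod (N + 1)) (lawG B δ) (lawG A δ) (lawG_nonneg B δ) (lawG_nonneg A δ)
    (sum_lawG B hB δ) (sum_lawG A hA δ) (δ a0) (by
      unfold lawG
      rw [le_div_iff₀ hAc]
      rw [← hclA a0 ha0] at hatom
      exact hatom)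
  rw [ent_lawG B hB, ent_lawG A hA, hhB, hhA] at hloss
  rw [hav] at hsplit
  linarith

end Pool.Agent.Helper24.MD
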