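import Pool.Agent.Helper24.MD.Defs

set_option autoImplicit false

/-! # Project MD, Branch: the first branching -/

namespace Pool.Agent.Helper24.MD

open Finset

theorem dl_mem_aux {a b : ℕ} (ha : 0 < a) (hb : 0 < b) (hab : a ≠ b) :
    a.factorization (dl a b) ≠ b.factorization (dl a b) := by
  have hne : ({q : ℕ | a.factorization q ≠ b.factorization q}).Nonempty := by
    by_contra h
    rw [Set.not_nonempty_iff_eq_empty, Set.eq_empty_iff_forall_notMem] at h
    apply hab
    apply Nat.eq_of_factorization_eq ha.ne' hb.ne'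
    intro q
    by_contra hq
    exact h q hq
  exact Nat.sInf_mem hne

theorem dl_eq_aux {a b p : ℕ} (h1 : a.factorization p ≠ b.factorization p)
    (h2 : ∀ q < p, a.factorization q = b.factorization q) : dl a b = p := by
  unfold dl
  apply le_antisymm
  · exact Nat.sInf_le h1
  · by_contra h
    push Not at h
    have hne : ({q : ℕ | a.factorization q ≠ b.factorization q}).Nonempty := ⟨p, h1⟩
    exact Nat.sInf_mem hne (h2 _ h)

/-- the first branching of `Y` -/
theorem exists_split (Y : Finset ℕ) (hpos : ∀ y ∈ Y, 0 < y) (h2 : 2 ≤ Y.card) :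
    ∃ p j : ℕ, p.Prime ∧ (∀ y ∈ Y, p ^ j ∣ y) ∧
      (Y.filter (fun y => ¬ p ^ (j + 1) ∣ y)).Nonempty ∧
      (Y.filter (fun y => p ^ (j + 1) ∣ y)).Nonempty ∧ NC Y p ∧
      (∀ a ∈ Y, ∀ b ∈ Y, ∀ q < p, a.factorization q = b.factorization q) ∧
      (∀ Z ⊆ Y, Z.Nonempty → ¬ NC Z p → rr Z + 1 ≤ rr Y) := by
  classical
  -- some number at which the valuations are not constant
  obtain ⟨u, hu, v, hv, huv⟩ := Finset.one_lt_card.1 (by omega : 1 < Y.card)
  have hex : ∃ p, NC Y p := ⟨dl u v, u, hu, v, hv, dl_mem_aux (hpos u hu) (hpos v hv) huv⟩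
  obtain ⟨p, hp⟩ : ∃ p, p = Nat.find hex := ⟨_, rfl⟩
  have hNC : NC Y p := by rw [hp]; exact Nat.find_spec hex
  have hmin : ∀ q < p, ¬ NC Y q := by
    intro q hq
    rw [hp] at hq
    exact Nat.find_min hex hq
  have hmin' : ∀ a ∈ Y, ∀ b ∈ Y, ∀ q < p, a.factorization q = b.factorization q := by
    intro a ha b hb q hq
    by_contra h
    exact hmin q hq ⟨a, ha, b, hb, h⟩
  have hprime : p.Prime := by
    by_contra h
    obtain ⟨a, ha, b, hb, hab⟩ := hNC
    apply hab
    rw [Nat.factorization_eq_zero_of_not_prime a h, Nat.factorization_eq_zero_of_not_prime b h]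
  -- the minimal valuation
  obtain ⟨y0, hy0, hy0min⟩ := Y.exists_min_image (fun y => y.factorization p) ⟨u, hu⟩
  have hdvd : ∀ y ∈ Y, ∀ i : ℕ, p ^ i ∣ y ↔ i ≤ y.factorization p := by
    intro y hy i
    exact hprime.pow_dvd_iff_le_factorization (hpos y hy).ne'
  refine ⟨p, y0.factorization p, hprime, ?_, ?_, ?_, hNC, hmin', ?_⟩
  · intro y hy
    rw [hdvd y hy]
    exact hy0min y hy
  · refine ⟨y0, ?_⟩
    rw [mem_filter]
    refine ⟨hy0, ?_⟩
    rw [hdvd y0 hy0]
    omega
  · obtain ⟨a, ha, b, hb, hab⟩ := hNC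
    have h1 := hy0min a ha
    have h3 := hy0min b hb
    rcases Nat.lt_or_ge (y0.factorization p) (a.factorization p) with h | h
    · refine ⟨a, ?_⟩
      rw [mem_filter]
      refine ⟨ha, ?_⟩
      rw [hdvd a ha]
      omega
    · refine ⟨b, ?_⟩
      rw [mem_filter]
      refine ⟨hb, ?_⟩
      rw [hdvd b hb]
      omega
  · intro Z hZY hZne hZNC
    obtain ⟨a, haZ, hamax⟩ := Z.exists_max_image (fun a => (br Z a).card) hZne
    have haY := hZY haZ
    have h1 : rr Z ≤ (br Z a).card := by
      unfold rr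
      apply Finset.sup_le
      intro b hb
      exact hamax b hb
    have hsub : br Z a ⊆ br Y a := by
      unfold br
      exact Finset.image_subset_image (Finset.erase_subset_erase a hZY)
    have hpZ : p ∉ br Z a := by
      intro hpm
      unfold br at hpm
      rw [mem_image] at hpm
      obtain ⟨b, hb, hbp⟩ := hpm
      rw [mem_erase] at hb
      have h3 := dl_mem_aux (hpos a haY) (hpos b (hZY hb.2)) (Ne.symm hb.1)
      rw [hbp] at h3
      exact hZNC ⟨a, haZ, b, hb.2, h3⟩
    have hpY : p ∈ br Y a := by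
      have h4 : ∃ y ∈ Y, a.factorization p ≠ y.factorization p := by
        obtain ⟨c, hc, d, hd, hcd⟩ := hNC
        by_contra h
        push Not at h
        exact hcd ((h c hc).symm.trans (h d hd))
      obtain ⟨y, hy, hay⟩ := h4
      unfold br
      rw [mem_image]
      refine ⟨y, ?_, dl_eq_aux hay (fun q hq => hmin' a haY y hy q hq)⟩
      rw [mem_erase]
      refine ⟨?_, hy⟩
      rintro rfl
      exact hay rfl
    have h5 : (br Z a).card + 1 ≤ (br Y a).card := by
      have h6 : insert p (br Z a) ⊆ br Y a := by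
        intro q hq
        rw [mem_insert] at hq
        rcases hq with rfl | hq
        · exact hpY
        · exact hsub hq
      have h7 := card_le_card h6
      rw [card_insert_of_notMem hpZ] at h7
      exact h7
    have h8 : (br Y a).card ≤ rr Y := by
      unfold rr
      exact Finset.le_sup (f := fun a => (br Y a).card) haY
    omega

end Pool.Agent.Helper24.MD
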