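import Pool.Agent.Helper24.MD.Defs
import Pool.Agent.Helper24.MD.BranchS

set_option autoImplicit false

/-! # Project MD, Branch: the tree rank -/

namespace Pool.Agent.Helper24.MD

open Finset

theorem br_mono {Z Y : Finset ℕ} (h : Z ⊆ Y) (a : ℕ) : br Z a ⊆ br Y a := by
  unfold br
  exact Finset.image_subset_image (Finset.erase_subset_erase a h)

theorem rr_mono {Z Y : Finset ℕ} (h : Z ⊆ Y) : rr Z ≤ rr Y := by
  unfold rr
  refine Finset.sup_le fun a ha => ?_
  exact (Finset.card_le_card (br_mono h a)).trans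
    (Finset.le_sup (f := fun a => (br Y a).card) (h ha))

theorem NC_mono {Z Y : Finset ℕ} (h : Z ⊆ Y) {p : ℕ} (hp : NC Z p) : NC Y p := by
  obtain ⟨a, ha, b, hb, hab⟩ := hp
  exact ⟨a, h ha, b, h hb, hab⟩

theorem qq_mono (W : Finset ℕ) {Z Y : Finset ℕ} (h : Z ⊆ Y) : qq W Z ≤ qq W Y := by
  unfold qq
  refine Finset.card_le_card fun p hp => ?_
  simp only [Finset.mem_filter] at hp ⊢
  exact ⟨hp.1, NC_mono h hp.2⟩

theorem qq_drop (W : Finset ℕ) {Z Y : Finset ℕ} (h : Z ⊆ Y) (p : ℕ) (hp : p ∈ W)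
    (hY : NC Y p) (hZ : ¬ NC Z p) : qq W Z + 1 ≤ qq W Y := by
  unfold qq
  refine Nat.succ_le_of_lt (Finset.card_lt_card ?_)
  rw [Finset.ssubset_iff_of_subset]
  · refine ⟨p, ?_, ?_⟩
    · simp only [Finset.mem_filter]
      exact ⟨hp, hY⟩
    · simp only [Finset.mem_filter]
      exact fun h' => hZ h'.2
  · intro q hq
    simp only [Finset.mem_filter] at hq ⊢
    exact ⟨hq.1, NC_mono h hq.2⟩

/-- valuations exactly `j` -/
theorem not_NC_of_exact (p j : ℕ) (hp : p.Prime) (Z : Finset ℕ) (hpos : ∀ z ∈ Z, 0 < z)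
    (h1 : ∀ z ∈ Z, p ^ j ∣ z) (h2 : ∀ z ∈ Z, ¬ p ^ (j + 1) ∣ z) : ¬ NC Z p := by
  have key : ∀ z ∈ Z, z.factorization p = j := by
    intro z hz
    have hz0 : z ≠ 0 := (hpos z hz).ne'
    have a1 := (hp.pow_dvd_iff_le_factorization hz0).1 (h1 z hz)
    have a2 : ¬ j + 1 ≤ z.factorization p := fun h =>
      h2 z hz ((hp.pow_dvd_iff_le_factorization hz0).2 h)
    omega
  rintro ⟨a, ha, b, hb, hab⟩
  exact hab (by rw [key a ha, key b hb])

private theorem dl_spec {a b : ℕ} (ha : 0 < a) (hb : 0 < b) (hab : a ≠ b) :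
    a.factorization (dl a b) ≠ b.factorization (dl a b) := by
  have hne : {q : ℕ | a.factorization q ≠ b.factorization q}.Nonempty := by
    by_contra h
    rw [Set.not_nonempty_iff_eq_empty] at h
    apply hab
    apply Nat.eq_of_factorization_eq ha.ne' hb.ne'
    intro q
    by_contra h'
    have : q ∈ {q : ℕ | a.factorization q ≠ b.factorization q} := h'
    rw [h] at this
    exact this
  exact Nat.sInf_mem hne

private theorem prime_of_ne {a b q : ℕ} (h : a.factorization q ≠ b.factorization q) :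
    q.Prime := by
  by_contra hq
  exact h (by rw [Nat.factorization_eq_zero_of_not_prime a hq,
    Nat.factorization_eq_zero_of_not_prime b hq])

/-- the tree rank is at most the number of primes with non-constant valuation -/
theorem rr_le_card (Y : Finset ℕ) (hpos : ∀ y ∈ Y, 0 < y) (T : Finset ℕ)
    (hT : ∀ p, p.Prime → NC Y p → p ∈ T) : rr Y ≤ T.card := by
  unfold rr
  refine Finset.sup_le fun a ha => Finset.card_le_card fun q hq => ?_
  unfold br at hq
  rw [Finset.mem_image] at hq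
  obtain ⟨b, hb, rfl⟩ := hq
  rw [Finset.mem_erase] at hb
  have h := dl_spec (hpos a ha) (hpos b hb.2) (Ne.symm hb.1)
  exact hT _ (prime_of_ne h) ⟨a, ha, b, hb.2, h⟩

end Pool.Agent.Helper24.MD
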