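import Pool.Agent.Helper24.MD.Pairs
import Pool.Agent.Helper24.MD.Branch

set_option autoImplicit false

/-! # Project MD, cases A and B of Proposition S -/

namespace Pool.Agent.Helper24.MD

open Finset

theorem sm_mono {g : ℕ} {X X' : Finset ℤ} {Y Y' : Finset ℕ} (hX : X' ⊆ X) (hY : Y' ⊆ Y) :
    sm g X' Y' ⊆ sm g X Y := by
  unfold sm
  exact Finset.image₂_subset hX hY

/-- passing to subsets costs the logarithms of the ratios -/
theorem dd_restrict (g : ℕ) {X X' : Finset ℤ} {Y Y' : Finset ℕ} (hX : X' ⊆ X) (hY : Y' ⊆ Y)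
    (hX' : X'.Nonempty) (hY' : Y'.Nonempty) :
    dd g X Y ≤ (Real.log (X.card : ℝ) - Real.log (X'.card : ℝ)) +
      (Real.log (Y.card : ℝ) - Real.log (Y'.card : ℝ)) + dd g X' Y' := by
  have hne : (sm g X' Y').Nonempty := by
    unfold sm
    exact Finset.Nonempty.image₂ hX' hY'
  have hpos : (0 : ℝ) < ((sm g X' Y').card : ℝ) := by
    exact_mod_cast Finset.card_pos.2 hne
  have hle : ((sm g X' Y').card : ℝ) ≤ ((sm g X Y).card : ℝ) := by
    exact_mod_cast Finset.card_le_card (sm_mono hX hY)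
  have hlog := Real.log_le_log hpos hle
  unfold dd
  linarith

/-- case A: restrict to a subset of relative size `≥ 1 - κ` of smaller tree rank -/
theorem caseA (ε lam K κ : ℝ) (hε : 0 ≤ ε) (hK : 0 ≤ K) (hκ : 0 < κ) (hκ1 : κ ≤ 1 / 2)
    (hκl : 2 * κ ≤ lam) (G : Finset ℕ) (hG : G.Nonempty) (W : Finset ℕ) (X : Finset ℤ)
    (hX : X.Nonempty) (Y Yp : Finset ℕ) (hsub : Yp ⊆ Y) (hne : Yp.Nonempty)
    (hτ : (1 - κ) * (Y.card : ℝ) ≤ (Yp.card : ℝ)) (hr : rr Yp + 1 ≤ rr Y)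
    (IH : av G (fun g => dd g X Yp) ≤ Bd ε lam K W X Yp) :
    av G (fun g => dd g X Y) ≤ Bd ε lam K W X Y := by
  have hYp : (0 : ℝ) < (Yp.card : ℝ) := by exact_mod_cast Finset.card_pos.2 hne
  have hYY : (Yp.card : ℝ) ≤ (Y.card : ℝ) := by exact_mod_cast Finset.card_le_card hsub
  have hY : (0 : ℝ) < (Y.card : ℝ) := lt_of_lt_of_le hYp hYY
  have h1κ : (0 : ℝ) < 1 - κ := by linarith
  -- the loss
  have hloss : Real.log (Y.card : ℝ) - Real.log (Yp.card : ℝ) ≤ lam := by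
    have h1 : Real.log ((1 - κ) * (Y.card : ℝ)) ≤ Real.log (Yp.card : ℝ) :=
      Real.log_le_log (mul_pos h1κ hY) hτ
    rw [Real.log_mul h1κ.ne' hY.ne'] at h1
    have h2 : 1 - (1 - κ)⁻¹ ≤ Real.log (1 - κ) := Real.one_sub_inv_le_log_of_pos h1κ
    have h3 : (1 - κ)⁻¹ ≤ 1 + 2 * κ := by
      rw [inv_le_comm₀ h1κ (by linarith)]
      rw [inv_le_iff_one_le_mul₀ (by linarith)]
      nlinarith
    linarith
  have hlogY : Real.log (Yp.card : ℝ) ≤ Real.log (Y.card : ℝ) := Real.log_le_log hYp hYY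
  have hav : av G (fun g => dd g X Y) ≤
      av G (fun g => (Real.log (Y.card : ℝ) - Real.log (Yp.card : ℝ)) + dd g X Yp) := by
    refine av_mono G _ _ (fun g _ => ?_)
    have := dd_restrict g (Finset.Subset.refl X) hsub hX hne
    linarith
  rw [av_add, av_const G hG] at hav
  have hlam : 0 ≤ lam := by linarith
  have hrr : (rr Yp : ℝ) + 1 ≤ (rr Y : ℝ) := by exact_mod_cast hr
  have hqq : (qq W Yp : ℝ) ≤ (qq W Y : ℝ) := by exact_mod_cast qq_mono W hsub
  have e1 : ε * Real.log (Yp.card : ℝ) ≤ ε * Real.log (Y.card : ℝ) :=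
    mul_le_mul_of_nonneg_left hlogY hε
  have e2 : lam * ((rr Yp : ℝ) + 1) ≤ lam * (rr Y : ℝ) := mul_le_mul_of_nonneg_left hrr hlam
  have e3 : K * (qq W Yp : ℝ) ≤ K * (qq W Y : ℝ) := mul_le_mul_of_nonneg_left hqq hK
  unfold Bd at IH ⊢
  linarith

/-- case B: restrict to multiples of `M`; then the residue of `x` is seen.
Use `step_left` with `ψ = fun _ => ()` (or any constant map) for `X` and `Y0`. -/
theorem caseB (ε lam K : ℝ) (hε : 0 ≤ ε) (hlam : 0 ≤ lam) (hK : 0 ≤ K) (G : Finset ℕ)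
    (hG : G.Nonempty) (W : Finset ℕ) (M : ℕ) (X : Finset ℤ) (hX : X.Nonempty)
    (Y Y0 : Finset ℕ) (hsub : Y0 ⊆ Y) (hne : Y0.Nonempty) (hdiv : ∀ y ∈ Y0, M ∣ y)
    (hB : Real.log (Y.card : ℝ) - Real.log (Y0.card : ℝ) ≤ ε * hh (rX M) X)
    (IH : ∀ X' : Finset ℤ, X'.Nonempty → av G (fun g => dd g X' Y0) ≤ Bd ε lam K W X' Y0) :
    av G (fun g => dd g X Y) ≤ Bd ε lam K W X Y := by
  have hY0 : (0 : ℝ) < (Y0.card : ℝ) := by exact_mod_cast Finset.card_pos.2 hne
  have hYY : (Y0.card : ℝ) ≤ (Y.card : ℝ) := by exact_mod_cast Finset.card_le_card hsub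
  have hlogY : Real.log (Y0.card : ℝ) ≤ Real.log (Y.card : ℝ) := Real.log_le_log hY0 hYY
  -- one dilate
  have hone : ∀ g : ℕ, dd g X Y ≤ (Real.log (Y.card : ℝ) - Real.log (Y0.card : ℝ)) +
      av X (fun x => dd g (cl (rX M) X x) Y0) := by
    intro g
    have h1 := dd_restrict g (Finset.Subset.refl X) hsub hX hne
    have h2 := step_left (fun (x : ℤ) (y : ℕ) => x + (g : ℤ) * (y : ℤ)) (rX M)
      (fun _ : ℕ => ()) X Y0 hX hne (by
        intro x _ x' _ y hy y' hy' _ hxy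
        have e : ((x + (g : ℤ) * (y : ℤ) : ℤ) : ZMod M) = ((x' + (g : ℤ) * (y' : ℤ) : ℤ) : ZMod M) :=
          congrArg (fun z : ℤ => (z : ZMod M)) hxy
        have hy0 : ((y : ℕ) : ZMod M) = 0 := (ZMod.natCast_eq_zero_iff y M).2 (hdiv y hy)
        have hy0' : ((y' : ℕ) : ZMod M) = 0 := (ZMod.natCast_eq_zero_iff y' M).2 (hdiv y' hy')
        push_cast at e
        rw [hy0, hy0', mul_zero, add_zero, add_zero] at e
        exact e)
    have hcl : ∀ y : ℕ, cl (fun _ : ℕ => ()) Y0 y = Y0 := by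
      intro y
      unfold cl
      exact Finset.filter_true_of_mem (fun _ _ => rfl)
    simp only [hcl, av_const Y0 hne] at h2
    have h3 : av X (fun x => dd g (cl (rX M) X x) Y0) =
        (Real.log (X.card : ℝ) - hh (rX M) X) + Real.log (Y0.card : ℝ) -
          av X (fun x => Real.log ((Finset.image₂ (fun (x : ℤ) (y : ℕ) => x + (g : ℤ) * (y : ℤ))
            (cl (rX M) X x) Y0).card : ℝ)) := by
      have e1 : av X (fun x => dd g (cl (rX M) X x) Y0) +
          av X (fun x => Real.log ((Finset.image₂ (fun (x : ℤ) (y : ℕ) => x + (g : ℤ) * (y : ℤ))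
            (cl (rX M) X x) Y0).card : ℝ)) =
          av X (fun x => Real.log ((cl (rX M) X x).card : ℝ)) + av X (fun _ => Real.log (Y0.card : ℝ)) := by
        rw [← av_add, ← av_add]
        congr 1
        funext x
        unfold dd sm
        ring
      rw [av_const X hX, log_card_eq] at e1
      linarith
    have h4 : dd g X Y0 ≤ av X (fun x => dd g (cl (rX M) X x) Y0) := by
      rw [h3]
      unfold dd sm
      linarith
    linarith
  have hav : av G (fun g => dd g X Y) ≤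
      av G (fun g => (Real.log (Y.card : ℝ) - Real.log (Y0.card : ℝ)) +
        av X (fun x => dd g (cl (rX M) X x) Y0)) := av_mono G _ _ (fun g _ => hone g)
  rw [av_add, av_const G hG, av_comm] at hav
  have hav2 : av X (fun x => av G (fun g => dd g (cl (rX M) X x) Y0)) ≤
      av X (fun x => ε * Real.log ((cl (rX M) X x).card : ℝ) +
        (ε * Real.log (Y0.card : ℝ) + lam * (rr Y0 : ℝ) + K * (qq W Y0 : ℝ))) := by
    refine av_mono X _ _ (fun x hx => ?_)
    have := IH (cl (rX M) X x) ⟨x, mem_cl_self _ _ _ hx⟩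
    unfold Bd at this
    linarith
  rw [av_add, av_const X hX, av_mul, log_card_eq] at hav2
  have hrr : (rr Y0 : ℝ) ≤ (rr Y : ℝ) := by exact_mod_cast rr_mono hsub
  have hqq : (qq W Y0 : ℝ) ≤ (qq W Y : ℝ) := by exact_mod_cast qq_mono W hsub
  have e1 : ε * Real.log (Y0.card : ℝ) ≤ ε * Real.log (Y.card : ℝ) :=
    mul_le_mul_of_nonneg_left hlogY hε
  have e2 : lam * (rr Y0 : ℝ) ≤ lam * (rr Y : ℝ) := mul_le_mul_of_nonneg_left hrr hlam
  have e3 : K * (qq W Y0 : ℝ) ≤ K * (qq W Y : ℝ) := mul_le_mul_of_nonneg_left hqq hK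
  have e4 : ε * (Real.log (X.card : ℝ) - hh (rX M) X) =
      ε * Real.log (X.card : ℝ) - ε * hh (rX M) X := by ring
  unfold Bd
  linarith

end Pool.Agent.Helper24.MD
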