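import Pool.Agent.Helper24.MD.Pairs
import Pool.Agent.Helper24.MD.Branch

set_option autoImplicit false

/-! # Project MD, case C of Proposition S, and the general decoding step -/

namespace Pool.Agent.Helper24.MD

open Finset

private lemma CaseC_av_sub {α : Type*} (S : Finset α) (F F' : α → ℝ) :
    av S (fun x => F x - F' x) = av S F - av S F' := by
  unfold av
  rw [Finset.sum_sub_distrib, sub_div]

private lemma CaseC_av3 {α β : Type*} (X : Finset α) (Y : Finset β) (hX : X.Nonempty)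
    (hY : Y.Nonempty) (a : α → ℝ) (b : β → ℝ) (c : α → β → ℝ) :
    av X (fun x => av Y (fun y => a x + b y - c x y)) =
      av X a + av Y b - av X (fun x => av Y (fun y => c x y)) := by
  have h1 : ∀ x, av Y (fun y => a x + b y - c x y) = a x + av Y b - av Y (fun y => c x y) := by
    intro x
    rw [CaseC_av_sub, av_add, av_const Y hY]
  simp only [h1]
  rw [CaseC_av_sub, av_add, av_const X hX]

private lemma CaseC_dd (g M : ℕ) (X : Finset ℤ) (hX : X.Nonempty) (Y : Finset ℕ)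
    (hY : Y.Nonempty) :
    av X (fun x => av Y (fun y => dd g (cl (rX M) X x) (cl (rY M) Y y))) =
      (Real.log (X.card : ℝ) - hh (rX M) X) + (Real.log (Y.card : ℝ) - hh (rY M) Y) -
        av X (fun x => av Y (fun y =>
          Real.log ((sm g (cl (rX M) X x) (cl (rY M) Y y)).card : ℝ))) := by
  unfold dd
  rw [CaseC_av3 X Y hX hY (fun x => Real.log ((cl (rX M) X x).card : ℝ))
    (fun y => Real.log ((cl (rY M) Y y).card : ℝ))
    (fun x y => Real.log ((sm g (cl (rX M) X x) (cl (rY M) Y y)).card : ℝ)),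
    log_card_eq, log_card_eq]

/-- general `g`: the class of `x` is seen once `y` is known, loss `hh (rY M) Y`
(`step_left` with `φ = rX M`, `ψ = rY M`, and `log_card_eq`). -/
theorem dd_step_any (g M : ℕ) (X : Finset ℤ) (hX : X.Nonempty) (Y : Finset ℕ)
    (hY : Y.Nonempty) :
    dd g X Y ≤ hh (rY M) Y +
      av X (fun x => av Y (fun y => dd g (cl (rX M) X x) (cl (rY M) Y y))) := by
  have h := step_left (fun (x : ℤ) (y : ℕ) => x + (g : ℤ) * (y : ℤ)) (rX M) (rY M) X Y hX hY
    (by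
      intro x _ x' _ y _ y' _ hy hxy
      have h2 : ((x + (g : ℤ) * (y : ℤ) : ℤ) : ZMod M) = ((x' + (g : ℤ) * (y' : ℤ) : ℤ) : ZMod M) :=
        congrArg (fun z : ℤ => (z : ZMod M)) hxy
      push_cast at h2
      unfold rY at hy
      rw [hy] at h2
      exact add_right_cancel h2)
  rw [CaseC_dd g M X hX Y hY]
  unfold dd
  unfold sm
  linarith

/-- `g` prime to `p`: the class of `y` is seen once `x` is known, loss `hh (rX M) X` -/
theorem dd_step_coprime (g M : ℕ) (hg : Nat.Coprime g M) (X : Finset ℤ) (hX : X.Nonempty)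
    (Y : Finset ℕ) (hY : Y.Nonempty) :
    dd g X Y ≤ hh (rX M) X +
      av X (fun x => av Y (fun y => dd g (cl (rX M) X x) (cl (rY M) Y y))) := by
  have h := step_right (fun (x : ℤ) (y : ℕ) => x + (g : ℤ) * (y : ℤ)) (rX M) (rY M) X Y hX hY
    (by
      intro x _ x' _ y _ y' _ hx hxy
      have h2 : ((x + (g : ℤ) * (y : ℤ) : ℤ) : ZMod M) = ((x' + (g : ℤ) * (y' : ℤ) : ℤ) : ZMod M) :=
        congrArg (fun z : ℤ => (z : ZMod M)) hxy
      push_cast at h2
      unfold rX at hx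
      rw [hx] at h2
      have h3 : (g : ZMod M) * (y : ZMod M) = (g : ZMod M) * (y' : ZMod M) := add_left_cancel h2
      have hu : IsUnit (g : ZMod M) := (ZMod.isUnit_iff_coprime g M).mpr hg
      exact hu.mul_left_cancel h3)
  rw [CaseC_dd g M X hX Y hY]
  unfold dd
  unfold sm
  linarith

/-- `g` separates the pairs of classes: no loss -/
theorem dd_step_sep (g M : ℕ) (X : Finset ℤ) (hX : X.Nonempty) (Y : Finset ℕ)
    (hY : Y.Nonempty)
    (h : ∀ x ∈ X, ∀ x' ∈ X, ∀ y ∈ Y, ∀ y' ∈ Y,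
      x + (g : ℤ) * (y : ℤ) = x' + (g : ℤ) * (y' : ℤ) → rX M x = rX M x' ∧ rY M y = rY M y') :
    dd g X Y ≤ av X (fun x => av Y (fun y => dd g (cl (rX M) X x) (cl (rY M) Y y))) := by
  have h := step_both (fun (x : ℤ) (y : ℕ) => x + (g : ℤ) * (y : ℤ)) (rX M) (rY M) X Y hX hY h
  rw [CaseC_dd g M X hX Y hY]
  unfold dd
  unfold sm
  linarith

private lemma CaseC_cl_sub {α β : Type*} [DecidableEq β] (φ : α → β) (S : Finset α) (x : α) :
    cl φ S x ⊆ S := by
  unfold cl
  exact Finset.filter_subset _ _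

/-- case C: `hh (rX M) X ≤ (ε/2) hh (rY M) Y`, `M = p ^ (j + 1)` -/
theorem caseC (ε lam K : ℝ) (hε : 0 < ε) (hlam : 0 ≤ lam) (hK : 0 ≤ K) (G : Finset ℕ)
    (hG : G.Nonempty) (hm : 2 / ε ≤ (G.card : ℝ)) (W : Finset ℕ) (p j : ℕ) (hp : p.Prime)
    (hG1 : ∀ g ∈ G, ∀ g' ∈ G, p ∣ g → p ∣ g' → g = g') (X : Finset ℤ) (hX : X.Nonempty)
    (Y : Finset ℕ) (hY : Y.Nonempty)
    (hC : hh (rX (p ^ (j + 1))) X ≤ ε / 2 * hh (rY (p ^ (j + 1))) Y)
    (IH : ∀ X' : Finset ℤ, X'.Nonempty → ∀ y ∈ Y,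
      av G (fun g => dd g X' (cl (rY (p ^ (j + 1))) Y y)) ≤
        Bd ε lam K W X' (cl (rY (p ^ (j + 1))) Y y)) :
    av G (fun g => dd g X Y) ≤ Bd ε lam K W X Y := by
  set M := p ^ (j + 1) with hM
  have hX0 : 0 ≤ hh (rX M) X := hh_nonneg _ _ hX
  have hY0 : 0 ≤ hh (rY M) Y := hh_nonneg _ _ hY
  have hGc : (0 : ℝ) < (G.card : ℝ) := by exact_mod_cast Finset.card_pos.2 hG
  -- the loss for each `g`
  have hstep : ∀ g ∈ G, dd g X Y ≤ (hh (rX M) X + (if p ∣ g then hh (rY M) Y else 0)) +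
      av X (fun x => av Y (fun y => dd g (cl (rX M) X x) (cl (rY M) Y y))) := by
    intro g _
    by_cases hpg : p ∣ g
    · rw [if_pos hpg]
      have := dd_step_any g M X hX Y hY
      linarith
    · rw [if_neg hpg]
      have hc : Nat.Coprime g M := by
        rw [hM]
        exact Nat.Coprime.pow_right _ ((Nat.Prime.coprime_iff_not_dvd hp).2 hpg).symm
      have := dd_step_coprime g M hc X hX Y hY
      linarith
  have h1 := av_mono G _ _ hstep
  rw [av_add, av_add, av_const G hG] at h1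
  have hcount : (G.filter (fun g => p ∣ g)).card ≤ 1 := by
    rw [Finset.card_le_one]
    intro a ha b hb
    rw [Finset.mem_filter] at ha hb
    exact hG1 a ha.1 b hb.1 ha.2 hb.2
  have hloss : av G (fun g => if p ∣ g then hh (rY M) Y else 0) ≤ ε / 2 * hh (rY M) Y := by
    unfold av
    rw [← Finset.sum_filter, Finset.sum_const, nsmul_eq_mul, div_le_iff₀ hGc]
    have hc1 : ((G.filter (fun g => p ∣ g)).card : ℝ) ≤ 1 := by exact_mod_cast hcount
    have h3 : 1 ≤ ε / 2 * (G.card : ℝ) := by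
      have h4 := mul_le_mul_of_nonneg_left hm (by positivity : (0 : ℝ) ≤ ε / 2)
      have h5 : ε / 2 * (2 / ε) = 1 := by field_simp
      linarith
    have h6 : ((G.filter (fun g => p ∣ g)).card : ℝ) * hh (rY M) Y ≤ 1 * hh (rY M) Y :=
      mul_le_mul_of_nonneg_right hc1 hY0
    have h7 : 1 * hh (rY M) Y ≤ (ε / 2 * (G.card : ℝ)) * hh (rY M) Y :=
      mul_le_mul_of_nonneg_right h3 hY0
    linarith
  -- exchange the averages
  have hswap : av G (fun g => av X (fun x => av Y (fun y =>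
      dd g (cl (rX M) X x) (cl (rY M) Y y)))) =
      av X (fun x => av Y (fun y => av G (fun g => dd g (cl (rX M) X x) (cl (rY M) Y y)))) := by
    rw [av_comm G X (fun g x => av Y (fun y => dd g (cl (rX M) X x) (cl (rY M) Y y)))]
    congr 1
    funext x
    exact av_comm G Y (fun g y => dd g (cl (rX M) X x) (cl (rY M) Y y))
  have hIH : av X (fun x => av Y (fun y => av G (fun g =>
      dd g (cl (rX M) X x) (cl (rY M) Y y)))) ≤
      av X (fun x => av Y (fun y => ε * Real.log ((cl (rX M) X x).card : ℝ) +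
        ε * Real.log ((cl (rY M) Y y).card : ℝ) -
          (-(lam * (rr Y : ℝ) + K * (qq W Y : ℝ))))) := by
    apply av_mono
    intro x hx
    apply av_mono
    intro y hy
    refine le_trans (IH (cl (rX M) X x) ⟨x, mem_cl_self _ _ _ hx⟩ y hy) ?_
    unfold Bd
    have hr : (rr (cl (rY M) Y y) : ℝ) ≤ (rr Y : ℝ) := by
      exact_mod_cast rr_mono (CaseC_cl_sub (rY M) Y y)
    have hq : (qq W (cl (rY M) Y y) : ℝ) ≤ (qq W Y : ℝ) := by
      exact_mod_cast qq_mono W (CaseC_cl_sub (rY M) Y y)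
    have h3 := mul_le_mul_of_nonneg_left hr hlam
    have h4 := mul_le_mul_of_nonneg_left hq hK
    linarith
  rw [CaseC_av3 X Y hX hY (fun x => ε * Real.log ((cl (rX M) X x).card : ℝ))
    (fun y => ε * Real.log ((cl (rY M) Y y).card : ℝ))
    (fun _ _ => -(lam * (rr Y : ℝ) + K * (qq W Y : ℝ))), av_mul, av_mul, log_card_eq,
    log_card_eq] at hIH
  have hconst : av X (fun _ => av Y (fun _ => -(lam * (rr Y : ℝ) + K * (qq W Y : ℝ)))) =
      -(lam * (rr Y : ℝ) + K * (qq W Y : ℝ)) := by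
    rw [av_const Y hY, av_const X hX]
  rw [hconst] at hIH
  rw [hswap] at h1
  unfold Bd
  have hεX : 0 ≤ ε * hh (rX M) X := mul_nonneg hε.le hX0
  linarith

end Pool.Agent.Helper24.MD
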