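import Pool.Agent.Helper24.MD.CaseC

set_option autoImplicit false

/-! # Project MD, case E at a bad prime (medium step) of Proposition S -/

namespace Pool.Agent.Helper24.MD

open Finset

/-- medium step at a bad prime: loss at most `C4`, paid by `K qq` -/
theorem caseE2 (ε lam K C4 t0 : ℝ) (hε : 0 ≤ ε) (hlam : 0 ≤ lam) (hK : 0 ≤ K)
    (ht0 : 0 < t0) (hKC : C4 ≤ K * t0)
    (G : Finset ℕ) (hG : G.Nonempty) (W : Finset ℕ) (p j : ℕ) (hp : p.Prime) (hpW : p ∈ W)
    (X : Finset ℤ) (hX : X.Nonempty) (Y : Finset ℕ) (hY : Y.Nonempty)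
    (hpos : ∀ y ∈ Y, 0 < y) (hdiv : ∀ y ∈ Y, p ^ j ∣ y) (hNC : NC Y p)
    (hτ : t0 * (Y.card : ℝ) ≤ ((Y.filter (fun y => ¬ p ^ (j + 1) ∣ y)).card : ℝ))
    (hh4 : hh (rY (p ^ (j + 1))) Y ≤ C4)
    (IH : ∀ X' : Finset ℤ, X'.Nonempty → ∀ y ∈ Y,
      av G (fun g => dd g X' (cl (rY (p ^ (j + 1))) Y y)) ≤
        Bd ε lam K W X' (cl (rY (p ^ (j + 1))) Y y)) :
    av G (fun g => dd g X Y) ≤ Bd ε lam K W X Y := by
  classical
  set M : ℕ := p ^ (j + 1) with hM
  have hYc : (0 : ℝ) < (Y.card : ℝ) := by exact_mod_cast Finset.card_pos.2 hY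
  -- step 1: the general decoding step, averaged over `G`
  have h1 : av G (fun g => dd g X Y) ≤ hh (rY M) Y +
      av X (fun x => av Y (fun y => av G (fun g => dd g (cl (rX M) X x) (cl (rY M) Y y)))) := by
    have e1 : av G (fun g => dd g X Y) ≤ av G (fun g => hh (rY M) Y +
        av X (fun x => av Y (fun y => dd g (cl (rX M) X x) (cl (rY M) Y y)))) :=
      av_mono G _ _ (fun g _ => dd_step_any g M X hX Y hY)
    have e2 : av G (fun g => hh (rY M) Y +
        av X (fun x => av Y (fun y => dd g (cl (rX M) X x) (cl (rY M) Y y)))) =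
        hh (rY M) Y + av X (fun x => av Y (fun y => av G (fun g =>
          dd g (cl (rX M) X x) (cl (rY M) Y y)))) := by
      rw [av_add, av_const G hG, av_comm]
      congr 1
      unfold av
      congr 1
      refine Finset.sum_congr rfl (fun x _ => ?_)
      exact av_comm G Y (fun g y => dd g (cl (rX M) X x) (cl (rY M) Y y))
    rw [← e2]
    exact e1
  -- step 2: pointwise bound
  have h2 : ∀ x ∈ X, ∀ y ∈ Y, av G (fun g => dd g (cl (rX M) X x) (cl (rY M) Y y)) ≤
      Bd ε lam K W X Y + (-K) * (if ¬ M ∣ y then (1 : ℝ) else 0) := by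
    intro x hx y hy
    have hXx : (cl (rX M) X x).Nonempty := ⟨x, mem_cl_self _ _ _ hx⟩
    have hYy : (cl (rY M) Y y).Nonempty := ⟨y, mem_cl_self _ _ _ hy⟩
    have hXs : cl (rX M) X x ⊆ X := Finset.filter_subset _ _
    have hYs : cl (rY M) Y y ⊆ Y := Finset.filter_subset _ _
    refine (IH (cl (rX M) X x) hXx y hy).trans ?_
    have l1 : Real.log ((cl (rX M) X x).card : ℝ) ≤ Real.log (X.card : ℝ) := by
      apply Real.log_le_log
      · exact_mod_cast Finset.card_pos.2 hXx
      · exact_mod_cast Finset.card_le_card hXs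
    have l2 : Real.log ((cl (rY M) Y y).card : ℝ) ≤ Real.log (Y.card : ℝ) := by
      apply Real.log_le_log
      · exact_mod_cast Finset.card_pos.2 hYy
      · exact_mod_cast Finset.card_le_card hYs
    have l3 : ((rr (cl (rY M) Y y) : ℕ) : ℝ) ≤ ((rr Y : ℕ) : ℝ) := by
      exact_mod_cast rr_mono hYs
    have l4 : ((qq W (cl (rY M) Y y) : ℕ) : ℝ) + (if ¬ M ∣ y then (1 : ℝ) else 0) ≤
        ((qq W Y : ℕ) : ℝ) := by
      by_cases hMy : M ∣ y
      · have : ((qq W (cl (rY M) Y y) : ℕ) : ℝ) ≤ ((qq W Y : ℕ) : ℝ) := by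
          exact_mod_cast qq_mono W hYs
        rw [if_neg (not_not.2 hMy)]
        linarith
      · have hex : ¬ NC (cl (rY M) Y y) p := by
          refine not_NC_of_exact p j hp _ (fun z hz => hpos z (hYs hz))
            (fun z hz => hdiv z (hYs hz)) ?_
          intro z hz hzM
          apply hMy
          have hzy : rY M z = rY M y := (Finset.mem_filter.1 hz).2
          have h3 : ((z : ℕ) : ZMod M) = 0 := (ZMod.natCast_eq_zero_iff z M).2 hzM
          have h4 : ((y : ℕ) : ZMod M) = 0 := by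
            have h5 : ((z : ℕ) : ZMod M) = ((y : ℕ) : ZMod M) := hzy
            rw [← h5, h3]
          exact (ZMod.natCast_eq_zero_iff y M).1 h4
        have := qq_drop W hYs p hpW hNC hex
        have h6 : ((qq W (cl (rY M) Y y) + 1 : ℕ) : ℝ) ≤ ((qq W Y : ℕ) : ℝ) := by
          exact_mod_cast this
        push_cast at h6
        rw [if_pos hMy]
        exact h6
    unfold Bd
    have m1 := mul_le_mul_of_nonneg_left l1 hε
    have m2 := mul_le_mul_of_nonneg_left l2 hε
    have m3 := mul_le_mul_of_nonneg_left l3 hlam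
    have m4 := mul_le_mul_of_nonneg_left l4 hK
    rw [mul_add] at m4
    linarith
  -- step 3: average the pointwise bound
  have h3 : av X (fun x => av Y (fun y => av G (fun g =>
      dd g (cl (rX M) X x) (cl (rY M) Y y)))) ≤
      Bd ε lam K W X Y + (-K) * (((Y.filter (fun y => ¬ M ∣ y)).card : ℝ) / (Y.card : ℝ)) := by
    have e1 : av X (fun x => av Y (fun y => av G (fun g =>
        dd g (cl (rX M) X x) (cl (rY M) Y y)))) ≤
        av X (fun _ => av Y (fun y => Bd ε lam K W X Y +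
          (-K) * (if ¬ M ∣ y then (1 : ℝ) else 0))) :=
      av_mono X _ _ (fun x hx => av_mono Y _ _ (fun y hy => h2 x hx y hy))
    have e2 : av X (fun _ => av Y (fun y => Bd ε lam K W X Y +
        (-K) * (if ¬ M ∣ y then (1 : ℝ) else 0))) =
        Bd ε lam K W X Y + (-K) * (((Y.filter (fun y => ¬ M ∣ y)).card : ℝ) / (Y.card : ℝ)) := by
      rw [av_const X hX, av_add, av_const Y hY, av_mul]
      congr 2
      unfold av
      rw [Finset.sum_ite]
      simp
    rw [← e2]
    exact e1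
  have h4 : t0 ≤ ((Y.filter (fun y => ¬ M ∣ y)).card : ℝ) / (Y.card : ℝ) := by
    rw [le_div_iff₀ hYc]
    exact hτ
  have h5 := mul_le_mul_of_nonneg_left h4 hK
  linarith

end Pool.Agent.Helper24.MD
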