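import Pool.Agent.Helper24.MD.CaseE1
import Pool.Agent.Helper24.MD.CaseE2

/-! # Project MD, case E (medium step) of Proposition S: both parts -/
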