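import Pool.Agent.Helper24.MD.Defs

set_option autoImplicit false

/-! # Project MD, Count: all but `r ^ 4` multipliers separate the pairs of classes -/

namespace Pool.Agent.Helper24.MD

open Finset

/-- the core of `count_bad`: equal classes force equal residues of `g` -/
private theorem Count_core (p j : ℕ) (hp : p.Prime) (g g' : ℕ) (x x' w w' : ℤ) (y y' z z' : ℕ)
    (hy : p ^ j ∣ y) (hy' : p ^ j ∣ y') (h1 : x + (g : ℤ) * y = x' + (g : ℤ) * y')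
    (h2 : w + (g' : ℤ) * z = w' + (g' : ℤ) * z')
    (e1 : rX (p ^ (j + 1)) x = rX (p ^ (j + 1)) w)
    (e2 : rX (p ^ (j + 1)) x' = rX (p ^ (j + 1)) w')
    (e3 : rY (p ^ (j + 1)) y = rY (p ^ (j + 1)) z)
    (e4 : rY (p ^ (j + 1)) y' = rY (p ^ (j + 1)) z')
    (hne : rY (p ^ (j + 1)) y ≠ rY (p ^ (j + 1)) y') : ((g : ℕ) : ZMod p) = ((g' : ℕ) : ZMod p) := by
  unfold rX rY at *
  obtain ⟨a, rfl⟩ := hy
  obtain ⟨b, rfl⟩ := hy'
  have k1 : ((x : ZMod (p ^ (j + 1))) + (g : ZMod (p ^ (j + 1))) * ((p ^ j * a : ℕ) : ZMod (p ^ (j + 1))))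
      = (x' : ZMod (p ^ (j + 1))) + (g : ZMod (p ^ (j + 1))) * ((p ^ j * b : ℕ) : ZMod (p ^ (j + 1))) := by
    have := congrArg (fun t : ℤ => (t : ZMod (p ^ (j + 1)))) h1
    push_cast at this ⊢
    exact this
  have k2 : ((w : ZMod (p ^ (j + 1))) + (g' : ZMod (p ^ (j + 1))) * ((z : ℕ) : ZMod (p ^ (j + 1))))
      = (w' : ZMod (p ^ (j + 1))) + (g' : ZMod (p ^ (j + 1))) * ((z' : ℕ) : ZMod (p ^ (j + 1))) := by
    have := congrArg (fun t : ℤ => (t : ZMod (p ^ (j + 1)))) h2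
    push_cast at this ⊢
    exact this
  rw [← e1, ← e2, ← e3, ← e4] at k2
  have k3 : ((((g : ℤ) - g') * ((p : ℤ) ^ j * ((a : ℤ) - b)) : ℤ) : ZMod (p ^ (j + 1))) = 0 := by
    push_cast at k1 k2 ⊢
    linear_combination k1 - k2
  rw [ZMod.intCast_zmod_eq_zero_iff_dvd] at k3
  have hp0 : (p : ℤ) ≠ 0 := by exact_mod_cast hp.ne_zero
  have k4 : (p : ℤ) ∣ ((g : ℤ) - g') * ((a : ℤ) - b) := by
    have h5 : (p : ℤ) ^ j * p ∣ (p : ℤ) ^ j * (((g : ℤ) - g') * ((a : ℤ) - b)) := by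
      have e : (p : ℤ) ^ j * (((g : ℤ) - g') * ((a : ℤ) - b))
          = ((g : ℤ) - g') * ((p : ℤ) ^ j * ((a : ℤ) - b)) := by ring
      rw [e, ← pow_succ]
      exact_mod_cast k3
    exact (mul_dvd_mul_iff_left (pow_ne_zero j hp0)).1 h5
  rcases (Nat.prime_iff_prime_int.1 hp).dvd_or_dvd k4 with h6 | h6
  · have h7 : (((g : ℤ) - g' : ℤ) : ZMod p) = 0 := (ZMod.intCast_zmod_eq_zero_iff_dvd _ _).2 h6
    push_cast at h7
    exact sub_eq_zero.1 h7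
  · exfalso
    apply hne
    have h8 : ((p : ℤ) ^ (j + 1)) ∣ (p : ℤ) ^ j * ((a : ℤ) - b) := by
      rw [pow_succ]
      exact mul_dvd_mul_left _ h6
    have h9 : ((((p : ℤ) ^ j * ((a : ℤ) - b)) : ℤ) : ZMod (p ^ (j + 1))) = 0 := by
      rw [ZMod.intCast_zmod_eq_zero_iff_dvd]
      exact_mod_cast h8
    push_cast at h9 ⊢
    linear_combination h9

open Classical in
/-- A bad `g` gives classes `x, x'` and `y ≠ y'` modulo `p ^ (j + 1)` with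
`x - x' = g (y' - y)`; as `p ^ j` divides `y' - y` and `p ^ (j + 1)` does not, these four classes
determine `g` modulo `p`. -/
theorem count_bad (p j : ℕ) (hp : p.Prime) (G : Finset ℕ)
    (hG : ∀ g ∈ G, ∀ g' ∈ G, ((g : ℕ) : ZMod p) = ((g' : ℕ) : ZMod p) → g = g')
    (X : Finset ℤ) (Y : Finset ℕ) (hY : ∀ y ∈ Y, p ^ j ∣ y) (r : ℕ)
    (hXr : (X.image (rX (p ^ (j + 1)))).card ≤ r)
    (hYr : (Y.image (rY (p ^ (j + 1)))).card ≤ r) :
    (G.filter (fun g : ℕ => ¬ (∀ x ∈ X, ∀ x' ∈ X, ∀ y ∈ Y, ∀ y' ∈ Y,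
      x + (g : ℤ) * (y : ℤ) = x' + (g : ℤ) * (y' : ℤ) →
        rX (p ^ (j + 1)) x = rX (p ^ (j + 1)) x' ∧
        rY (p ^ (j + 1)) y = rY (p ^ (j + 1)) y'))).card ≤ r ^ 4 := by
  have key : ∀ g ∈ G.filter (fun g : ℕ => ¬ (∀ x ∈ X, ∀ x' ∈ X, ∀ y ∈ Y, ∀ y' ∈ Y,
      x + (g : ℤ) * (y : ℤ) = x' + (g : ℤ) * (y' : ℤ) →
        rX (p ^ (j + 1)) x = rX (p ^ (j + 1)) x' ∧
        rY (p ^ (j + 1)) y = rY (p ^ (j + 1)) y')),
      ∃ q : (ℤ × ℤ) × (ℕ × ℕ), q.1.1 ∈ X ∧ q.1.2 ∈ X ∧ q.2.1 ∈ Y ∧ q.2.2 ∈ Y ∧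
        q.1.1 + (g : ℤ) * (q.2.1 : ℤ) = q.1.2 + (g : ℤ) * (q.2.2 : ℤ) ∧
        rY (p ^ (j + 1)) q.2.1 ≠ rY (p ^ (j + 1)) q.2.2 := by
    intro g hg
    rw [mem_filter] at hg
    have h := hg.2
    push Not at h
    obtain ⟨x, hx, x', hx', y, hy, y', hy', he, hne⟩ := h
    refine ⟨((x, x'), (y, y')), hx, hx', hy, hy', he, ?_⟩
    intro heq
    apply hne ?_ heq
    have k1 := congrArg (fun t : ℤ => (t : ZMod (p ^ (j + 1)))) he
    simp only [rX, rY] at heq ⊢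
    push_cast at k1
    rw [heq] at k1
    exact add_right_cancel k1
  choose! q hx hx' hy hy' he hne using key
  set T := ((X.image (rX (p ^ (j + 1)))) ×ˢ (X.image (rX (p ^ (j + 1))))) ×ˢ
    ((Y.image (rY (p ^ (j + 1)))) ×ˢ (Y.image (rY (p ^ (j + 1))))) with hT
  have hcard : T.card ≤ r ^ 4 := by
    rw [hT, card_product, card_product, card_product]
    calc _ ≤ (r * r) * (r * r) := by gcongr
      _ = r ^ 4 := by ring
  refine le_trans (card_le_card_of_injOn (fun g => ((rX (p ^ (j + 1)) (q g).1.1,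
    rX (p ^ (j + 1)) (q g).1.2), (rY (p ^ (j + 1)) (q g).2.1, rY (p ^ (j + 1)) (q g).2.2)))
    ?_ ?_) hcard
  · intro g hg
    simp only [hT, coe_product, Set.mem_prod, mem_coe]
    exact ⟨⟨mem_image_of_mem _ (hx g hg), mem_image_of_mem _ (hx' g hg)⟩,
      ⟨mem_image_of_mem _ (hy g hg), mem_image_of_mem _ (hy' g hg)⟩⟩
  · intro g hg g' hg' heq
    simp only [Prod.mk.injEq] at heq
    obtain ⟨⟨e1, e2⟩, e3, e4⟩ := heq
    exact hG g (mem_filter.1 hg).1 g' (mem_filter.1 hg').1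
      (Count_core p j hp g g' _ _ _ _ _ _ _ _ (hY _ (hy g hg)) (hY _ (hy' g hg)) (he g hg)
        (he g' hg') e1 e2 e3 e4 (hne g hg))

end Pool.Agent.Helper24.MD
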