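import Pool.Agent.Helper24.MD.CaseAB
import Pool.Agent.Helper24.MD.CaseC
import Pool.Agent.Helper24.MD.Trunc
import Pool.Agent.Helper24.MD.Count

set_option autoImplicit false

/-! # Project MD, case E (medium step) of Proposition S at a good prime -/

namespace Pool.Agent.Helper24.MD

open Finset

theorem log_ratio_le {a b δ : ℝ} (ha : 0 < a) (hδ : 0 < δ) (hδ1 : δ ≤ 1 / 2)
    (h : (1 - δ) * a ≤ b) : Real.log a - Real.log b ≤ 2 * δ := by
  have h1 : (0 : ℝ) < 1 - δ := by linarith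
  have hb : 0 < (1 - δ) * a := mul_pos h1 ha
  have h2 : Real.log ((1 - δ) * a) ≤ Real.log b := Real.log_le_log hb h
  rw [Real.log_mul h1.ne' ha.ne'] at h2
  have h3 : 1 - (1 - δ)⁻¹ ≤ Real.log (1 - δ) := Real.one_sub_inv_le_log_of_pos h1
  have h4 : (1 - δ)⁻¹ ≤ 1 + 2 * δ := by
    rw [inv_le_iff_one_le_mul₀ h1]
    nlinarith
  linarith

/-- medium step at a good prime: truncate both laws (`trunc`), then all but `r ^ 4` of the `g`
lose nothing and the others lose at most `log r`; paid by `lam rr`. -/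
theorem caseE1 (ε lam K C4 δ t0 : ℝ) (hε : 0 ≤ ε) (hlam : 0 ≤ lam) (hK : 0 ≤ K)
    (hC4 : 0 ≤ C4) (hδ : 0 < δ) (hδ1 : δ ≤ 1 / 2) (hδt : δ ≤ t0 / 2) (ht0 : 0 < t0) (r : ℕ)
    (hr : Real.exp (C4 / δ) ≤ (r : ℝ)) (G : Finset ℕ) (hG : G.Nonempty)
    (hm : 4 * δ + (r : ℝ) ^ 4 * Real.log r / (G.card : ℝ) ≤ lam * (t0 / 2))
    (W : Finset ℕ) (p j : ℕ) (hp : p.Prime)
    (hGp : ∀ g ∈ G, ∀ g' ∈ G, ((g : ℕ) : ZMod p) = ((g' : ℕ) : ZMod p) → g = g')
    (X : Finset ℤ) (hX : X.Nonempty) (Y : Finset ℕ) (hY : Y.Nonempty)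
    (hpos : ∀ y ∈ Y, 0 < y) (hdiv : ∀ y ∈ Y, p ^ j ∣ y)
    (hτ : t0 * (Y.card : ℝ) ≤ ((Y.filter (fun y => ¬ p ^ (j + 1) ∣ y)).card : ℝ))
    (hrr : ∀ Z ⊆ Y, Z.Nonempty → ¬ NC Z p → rr Z + 1 ≤ rr Y)
    (hX4 : hh (rX (p ^ (j + 1))) X ≤ C4) (hY4 : hh (rY (p ^ (j + 1))) Y ≤ C4)
    (IH : ∀ X' : Finset ℤ, X'.Nonempty → ∀ Y' ⊆ Y, Y'.Nonempty →
      (∃ y ∈ Y, Y' ⊆ cl (rY (p ^ (j + 1))) Y y) →
      av G (fun g => dd g X' Y') ≤ Bd ε lam K W X' Y') :
    av G (fun g => dd g X Y) ≤ Bd ε lam K W X Y := by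
  classical
  obtain ⟨M, hM⟩ : ∃ M : ℕ, M = p ^ (j + 1) := ⟨_, rfl⟩
  rw [← hM] at hτ hX4 hY4 IH
  obtain ⟨X', hX'X, hX'ne, hX'c, hX'i, hX'cl⟩ := trunc (rX M) X hX C4 δ hX4 hC4 hδ hδ1
  obtain ⟨Y', hY'Y, hY'ne, hY'c, hY'i, hY'cl⟩ := trunc (rY M) Y hY C4 δ hY4 hC4 hδ hδ1
  have hXr : (X'.image (rX M)).card ≤ r := by exact_mod_cast hX'i.trans hr
  have hYr : (Y'.image (rY M)).card ≤ r := by exact_mod_cast hY'i.trans hr
  have hXc : (0 : ℝ) < X.card := by exact_mod_cast Finset.card_pos.2 hX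
  have hYc : (0 : ℝ) < Y.card := by exact_mod_cast Finset.card_pos.2 hY
  have hX'0 : (0 : ℝ) < X'.card := by exact_mod_cast Finset.card_pos.2 hX'ne
  have hY'0 : (0 : ℝ) < Y'.card := by exact_mod_cast Finset.card_pos.2 hY'ne
  have hGc : (0 : ℝ) < G.card := by exact_mod_cast Finset.card_pos.2 hG
  have hr1 : (1 : ℝ) ≤ r := by
    refine le_trans ?_ hr
    rw [← Real.exp_zero]
    exact Real.exp_le_exp.2 (by positivity)
  have hlr : 0 ≤ Real.log r := Real.log_nonneg hr1
  -- the bad multipliers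
  obtain ⟨P, hP⟩ : ∃ P : ℕ → Prop, P = fun (g : ℕ) => ∀ x ∈ X', ∀ x' ∈ X', ∀ y ∈ Y', ∀ y' ∈ Y',
      x + (g : ℤ) * (y : ℤ) = x' + (g : ℤ) * (y' : ℤ) →
        rX M x = rX M x' ∧ rY M y = rY M y' := ⟨_, rfl⟩
  have hbad : (G.filter (fun g => ¬ P g)).card ≤ r ^ 4 := by
    have := count_bad p j hp G hGp X' Y' (fun y hy => hdiv y (hY'Y hy)) r
      (by rw [← hM]; exact hXr) (by rw [← hM]; exact hYr)
    refine le_trans (Finset.card_le_card ?_) this
    intro g hg
    rw [Finset.mem_filter] at hg ⊢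
    refine ⟨hg.1, ?_⟩
    have h := hg.2
    rw [hP, hM] at h
    exact h
  obtain ⟨V, hV⟩ : ∃ V : ℕ → ℝ, V = fun g => av X' (fun x => av Y' (fun y =>
      dd g (cl (rX M) X' x) (cl (rY M) Y' y))) := ⟨_, rfl⟩
  have hone : ∀ g ∈ G, dd g X Y ≤ (4 * δ + (if P g then 0 else Real.log r)) + V g := by
    intro g _
    have h1 := dd_restrict g hX'X hY'Y hX'ne hY'ne
    have h2 := log_ratio_le hXc hδ hδ1 hX'c
    have h3 := log_ratio_le hYc hδ hδ1 hY'c
    by_cases hg : P g
    · have h4 : dd g X' Y' ≤ V g := by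
        rw [hV]
        refine dd_step_sep g M X' hX'ne Y' hY'ne ?_
        rw [hP] at hg
        exact hg
      rw [if_pos hg]
      linarith
    · have h4 : dd g X' Y' ≤ hh (rY M) Y' + V g := by
        rw [hV]
        exact dd_step_any g M X' hX'ne Y' hY'ne
      have h5 : hh (rY M) Y' ≤ Real.log r := by
        refine (hh_le_log_card (rY M) Y' hY'ne).trans ?_
        refine Real.log_le_log ?_ (by exact_mod_cast hYr)
        have : 0 < (Y'.image (rY M)).card := Finset.card_pos.2 (hY'ne.image _)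
        exact_mod_cast this
      rw [if_neg hg]
      linarith
  have havg : av G (fun g => dd g X Y) ≤
      av G (fun g => 4 * δ + (if P g then 0 else Real.log r)) + av G V := by
    rw [← av_add]
    exact av_mono G _ _ hone
  have h6 : av G (fun g => 4 * δ + (if P g then 0 else Real.log r)) ≤ lam * (t0 / 2) := by
    refine le_trans ?_ hm
    rw [av_add, av_const G hG]
    have h7 : av G (fun g => if P g then (0 : ℝ) else Real.log r) =
        ((G.filter (fun g => ¬ P g)).card : ℝ) * Real.log r / G.card := by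
      unfold av
      rw [Finset.sum_ite, Finset.sum_const_zero, zero_add, Finset.sum_const, nsmul_eq_mul]
    rw [h7]
    have h8 : ((G.filter (fun g => ¬ P g)).card : ℝ) ≤ (r : ℝ) ^ 4 := by exact_mod_cast hbad
    have h9 : ((G.filter (fun g => ¬ P g)).card : ℝ) * Real.log r / G.card ≤
        (r : ℝ) ^ 4 * Real.log r / G.card := by
      refine div_le_div_of_nonneg_right ?_ hGc.le
      exact mul_le_mul_of_nonneg_right h8 hlr
    linarith
  -- exchange the averages
  have h10 : av G V = av X' (fun x => av Y' (fun y => av G (fun g =>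
      dd g (cl (rX M) X' x) (cl (rY M) Y' y)))) := by
    rw [hV, av_comm]
    refine congrArg (av X') (funext fun x => ?_)
    rw [av_comm]
  have hBd : ∀ x ∈ X', ∀ y ∈ Y', av G (fun g => dd g (cl (rX M) X' x) (cl (rY M) Y' y)) ≤
      (Bd ε lam K W X Y) + (-lam) * (if M ∣ y then 0 else 1) := by
    intro x hx y hy
    have hc1 : (cl (rX M) X' x) ⊆ X := (Finset.filter_subset _ _).trans hX'X
    have hc2 : (cl (rY M) Y' y) ⊆ Y := (Finset.filter_subset _ _).trans hY'Y
    have hn1 : (cl (rX M) X' x).Nonempty := ⟨x, mem_cl_self _ _ _ hx⟩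
    have hn2 : (cl (rY M) Y' y).Nonempty := ⟨y, mem_cl_self _ _ _ hy⟩
    have h11 := IH (cl (rX M) X' x) hn1 (cl (rY M) Y' y) hc2 hn2
      ⟨y, hY'Y hy, Finset.filter_subset_filter _ hY'Y⟩
    refine h11.trans ?_
    unfold Bd
    have h12 : Real.log ((cl (rX M) X' x).card : ℝ) ≤ Real.log (X.card : ℝ) := by
      refine Real.log_le_log ?_ (by exact_mod_cast Finset.card_le_card hc1)
      exact_mod_cast Finset.card_pos.2 hn1
    have h13 : Real.log ((cl (rY M) Y' y).card : ℝ) ≤ Real.log (Y.card : ℝ) := by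
      refine Real.log_le_log ?_ (by exact_mod_cast Finset.card_le_card hc2)
      exact_mod_cast Finset.card_pos.2 hn2
    have h14 : (qq W (cl (rY M) Y' y) : ℝ) ≤ qq W Y := by exact_mod_cast qq_mono W hc2
    have h15 : (rr (cl (rY M) Y' y) : ℝ) ≤ rr Y - (if M ∣ y then (0 : ℝ) else 1) := by
      by_cases hd : M ∣ y
      · rw [if_pos hd, sub_zero]
        exact_mod_cast rr_mono hc2
      · rw [if_neg hd]
        have h16 : ¬ NC (cl (rY M) Y' y) p := by
          refine not_NC_of_exact p j hp _ (fun z hz => hpos z (hc2 hz))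
            (fun z hz => hdiv z (hc2 hz)) (fun z hz hzd => hd ?_)
          rw [← hM] at hzd
          have h17 : rY M z = rY M y := (Finset.mem_filter.1 hz).2
          unfold rY at h17
          rw [(ZMod.natCast_eq_zero_iff z M).2 hzd] at h17
          exact (ZMod.natCast_eq_zero_iff y M).1 h17.symm
        have h18 := hrr _ hc2 hn2 h16
        have h19 : (rr (cl (rY M) Y' y) : ℝ) + 1 ≤ rr Y := by exact_mod_cast h18
        linarith
    have a1 := mul_le_mul_of_nonneg_left h12 hε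
    have a2 := mul_le_mul_of_nonneg_left h13 hε
    have a3 := mul_le_mul_of_nonneg_left h15 hlam
    have a4 := mul_le_mul_of_nonneg_left h14 hK
    linarith
  have h20 : av G V ≤ Bd ε lam K W X Y +
      (-lam) * av Y' (fun y => if M ∣ y then (0 : ℝ) else 1) := by
    rw [h10]
    have h21 : ∀ x ∈ X', av Y' (fun y => av G (fun g =>
        dd g (cl (rX M) X' x) (cl (rY M) Y' y))) ≤ Bd ε lam K W X Y +
          (-lam) * av Y' (fun y => if M ∣ y then (0 : ℝ) else 1) := by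
      intro x hx
      refine (av_mono Y' _ _ (hBd x hx)).trans (le_of_eq ?_)
      rw [av_add, av_const Y' hY'ne, av_mul]
    refine (av_mono X' _ _ h21).trans (le_of_eq ?_)
    rw [av_const X' hX'ne]
  have h22 : t0 / 2 ≤ av Y' (fun y => if M ∣ y then (0 : ℝ) else 1) := by
    have h23 : av Y' (fun y => if M ∣ y then (0 : ℝ) else 1) =
        ((Y'.filter (fun y => ¬ M ∣ y)).card : ℝ) / Y'.card := by
      unfold av
      rw [Finset.sum_ite, Finset.sum_const_zero, zero_add, Finset.sum_const, nsmul_eq_mul,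
        mul_one]
    rw [h23, le_div_iff₀ hY'0]
    have h24 : ((Y.filter (fun y => ¬ M ∣ y)).card : ℝ) ≤
        (Y'.filter (fun y => ¬ M ∣ y)).card + ((Y.card : ℝ) - Y'.card) := by
      have h25 : Y.filter (fun y => ¬ M ∣ y) ⊆ Y'.filter (fun y => ¬ M ∣ y) ∪ (Y \ Y') := by
        intro y hy
        rw [Finset.mem_filter] at hy
        rw [Finset.mem_union, Finset.mem_filter, Finset.mem_sdiff]
        by_cases h : y ∈ Y'
        · exact Or.inl ⟨h, hy.2⟩
        · exact Or.inr ⟨hy.1, h⟩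
      have h26 := (Finset.card_le_card h25).trans (Finset.card_union_le _ _)
      have h27 : (Y \ Y').card + Y'.card = Y.card := by
        rw [Finset.card_sdiff_of_subset hY'Y]
        exact Nat.sub_add_cancel (Finset.card_le_card hY'Y)
      have h28 : ((Y \ Y').card : ℝ) + Y'.card = Y.card := by exact_mod_cast h27
      have h29 : ((Y.filter (fun y => ¬ M ∣ y)).card : ℝ) ≤
          (Y'.filter (fun y => ¬ M ∣ y)).card + (Y \ Y').card := by exact_mod_cast h26
      linarith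
    have h30 : (Y'.card : ℝ) ≤ Y.card := by exact_mod_cast Finset.card_le_card hY'Y
    have h31 : δ * (Y.card : ℝ) ≤ t0 / 2 * Y.card := mul_le_mul_of_nonneg_right hδt hYc.le
    have h32 : t0 / 2 * (Y'.card : ℝ) ≤ t0 / 2 * Y.card :=
      mul_le_mul_of_nonneg_left h30 (by linarith)
    nlinarith
  have h33 := mul_le_mul_of_nonneg_left h22 hlam
  linarith

end Pool.Agent.Helper24.MD
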