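import Mathlib

set_option autoImplicit false

/-!
# Project MD (MP_120218): definitions
-/

namespace Pool.Agent.Helper24.MD

open Finset

/-- average over a finite set -/
noncomputable def av {α : Type*} (S : Finset α) (F : α → ℝ) : ℝ :=
  (∑ x ∈ S, F x) / (S.card : ℝ)

/-- class of `x` in `S` -/
def cl {α β : Type*} [DecidableEq β] (φ : α → β) (S : Finset α) (x : α) : Finset α :=
  S.filter (fun y => φ y = φ x)

/-- entropy of `φ` on `S` -/
noncomputable def hh {α β : Type*} [DecidableEq β] (φ : α → β) (S : Finset α) : ℝ :=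
  Real.log (S.card : ℝ) - av S (fun x => Real.log ((cl φ S x).card : ℝ))

/-- `X + gY` -/
def sm (g : ℕ) (X : Finset ℤ) (Y : Finset ℕ) : Finset ℤ :=
  Finset.image₂ (fun (x : ℤ) (y : ℕ) => x + (g : ℤ) * (y : ℤ)) X Y

/-- the deficit of `X + gY` -/
noncomputable def dd (g : ℕ) (X : Finset ℤ) (Y : Finset ℕ) : ℝ :=
  Real.log (X.card : ℝ) + Real.log (Y.card : ℝ) - Real.log ((sm g X Y).card : ℝ)

/-- residue of an integer -/
def rX (M : ℕ) (x : ℤ) : ZMod M := (x : ZMod M)

/-- residue of a natural number -/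
def rY (M : ℕ) (y : ℕ) : ZMod M := (y : ZMod M)

/-- the least number at which the valuations of `a` and `b` differ -/
noncomputable def dl (a b : ℕ) : ℕ := sInf {q : ℕ | a.factorization q ≠ b.factorization q}

/-- branching primes of `a` in `Y` -/
noncomputable def br (Y : Finset ℕ) (a : ℕ) : Finset ℕ := (Y.erase a).image (fun b => dl a b)

/-- tree rank -/
noncomputable def rr (Y : Finset ℕ) : ℕ := Y.sup (fun a => (br Y a).card)

/-- `v_p` is not constant on `Y` -/
def NC (Y : Finset ℕ) (p : ℕ) : Prop :=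
  ∃ a ∈ Y, ∃ b ∈ Y, a.factorization p ≠ b.factorization p

open Classical in
/-- number of elements of `W` at which the valuation is not constant on `Y` -/
noncomputable def qq (W : Finset ℕ) (Y : Finset ℕ) : ℕ := (W.filter (fun p => NC Y p)).card

/-- the bound of Proposition S -/
noncomputable def Bd (ε lam K : ℝ) (W : Finset ℕ) (X : Finset ℤ) (Y : Finset ℕ) : ℝ :=
  ε * Real.log (X.card : ℝ) + ε * Real.log (Y.card : ℝ) + lam * (rr Y : ℝ) + K * (qq W Y : ℝ)

end Pool.Agent.Helper24.MD
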