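import Pool.Agent.Helper24.MD.Prod
import Pool.Agent.Helper24.MD.Branch

set_option autoImplicit false

/-! # Project MD, the splitting lemma -/

namespace Pool.Agent.Helper24.MD

open Finset

theorem SplitL_avav {A B : Finset ℕ} (hA : A.Nonempty) (hB : B.Nonempty) (η : ℝ) (c d : ℕ → ℝ) :
    av B (fun b => av A (fun a => (1 - η) * (c b + d a))) = (1 - η) * (av B c + av A d) := by
  have h1 : ∀ b, av A (fun a => (1 - η) * (c b + d a)) = (1 - η) * (c b + av A d) := by
    intro b
    rw [av_mul A (1 - η) (fun a => c b + d a), av_add A (fun _ => c b) d, av_const A hA]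
  simp only [h1]
  rw [av_mul B (1 - η) (fun b => c b + av A d), av_add B c (fun _ => av A d), av_const B hB]

theorem SplitL_dl {a b p : ℕ} (h : ∀ q < p, a.factorization q = b.factorization q)
    (hp : a.factorization p ≠ b.factorization p) : dl a b = p := by
  unfold dl
  apply le_antisymm
  · exact Nat.sInf_le hp
  · apply le_csInf ⟨p, hp⟩
    intro q hq
    by_contra hlt
    exact hq (h q (by omega))

/-- entropy is large if all classes are small -/
theorem SplitL_hh {A : Finset ℕ} (hA : A.Nonempty) (φ : ℕ → ℕ) {t0 : ℝ} (ht0 : 0 < t0)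
    (ht1 : t0 ≤ 1 / 2) (h : ∀ a ∈ A, ((cl φ A a).card : ℝ) < (1 - t0) * (A.card : ℝ)) :
    t0 ≤ hh φ A := by
  have hc : (0 : ℝ) < A.card := by exact_mod_cast hA.card_pos
  have h1 : av A (fun x => Real.log ((cl φ A x).card : ℝ)) ≤
      av A (fun _ => Real.log ((A.card : ℝ)) - t0) := by
    refine av_mono A _ _ fun a ha => ?_
    have h2 : (0 : ℝ) < ((cl φ A a).card : ℝ) := by
      exact_mod_cast Finset.card_pos.2 ⟨a, mem_cl_self φ A a ha⟩
    have h3 : Real.log ((cl φ A a).card : ℝ) ≤ Real.log ((1 - t0) * (A.card : ℝ)) :=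
      Real.log_le_log h2 (h a ha).le
    rw [Real.log_mul (by linarith) hc.ne'] at h3
    have h4 : Real.log (1 - t0) ≤ (1 - t0) - 1 := Real.log_le_sub_one_of_pos (by linarith)
    linarith
  rw [av_const A hA] at h1
  unfold hh
  linarith

/-- **Splitting lemma**: `ρ` is the entropy of the rare valuations. -/
theorem split (η ε' : ℝ) (hη : 0 < η) (hη1 : η ≤ 1) (hε : 0 < ε') (hε1 : ε' ≤ 1) :
    ∃ lam : ℝ, 0 < lam ∧ ∀ A : Finset ℕ, A.Nonempty → (∀ a ∈ A, 0 < a) →
      ∃ ρ : ℝ, 0 ≤ ρ ∧ ρ ≤ Real.log (A.card : ℝ) ∧ ∃ S ⊆ A, S.Nonempty ∧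
        (∀ B : Finset ℕ, B.Nonempty → (∀ b ∈ B, 0 < b) →
          (1 - η) * (Real.log (B.card : ℝ) + ρ) ≤
            Real.log ((Finset.image₂ (fun x y : ℕ => x * y) B A).card : ℝ)) ∧
        Real.exp ((1 - ε') * (Real.log (A.card : ℝ) - ρ)) ≤
          ∑ a ∈ S, Real.exp (-lam * ((br S a).card : ℝ)) := by
  obtain ⟨t0, ht0, ht01, hnode⟩ := prod_node η hη hη1
  refine ⟨ε' * t0, mul_pos hε ht0, ?_⟩
  generalize hlam : ε' * t0 = lam
  have hlam0 : 0 < lam := hlam ▸ mul_pos hε ht0
  intro A
  induction A using Finset.strongInduction with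
  | H A ih =>
  intro hA hpos
  have hcA : (0 : ℝ) < A.card := by exact_mod_cast hA.card_pos
  rcases Nat.lt_or_ge A.card 2 with h1 | h2
  · -- one element
    have hc1 : A.card = 1 := by
      have := hA.card_pos
      omega
    obtain ⟨a, rfl⟩ := Finset.card_eq_one.1 hc1
    have ha : 0 < a := hpos a (Finset.mem_singleton_self a)
    refine ⟨0, le_refl _, ?_, {a}, Finset.Subset.refl _, Finset.singleton_nonempty a, ?_, ?_⟩
    · rw [Finset.card_singleton, Nat.cast_one, Real.log_one]
    · intro B hB _
      have hcB : (1 : ℝ) ≤ B.card := by exact_mod_cast hB.card_pos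
      have hc : (Finset.image₂ (fun x y : ℕ => x * y) B {a}).card = B.card := by
        rw [Finset.image₂_singleton_right]
        exact Finset.card_image_of_injective _ fun x y hxy => Nat.eq_of_mul_eq_mul_right ha hxy
      rw [hc, add_zero]
      have hl := Real.log_nonneg hcB
      nlinarith
    · rw [Finset.card_singleton, Nat.cast_one, Real.log_one, sub_zero, mul_zero, Real.exp_zero,
        Finset.sum_singleton]
      have hb : br {a} a = ∅ := by
        unfold br
        rw [Finset.erase_singleton, Finset.image_empty]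
      rw [hb, Finset.card_empty, Nat.cast_zero, mul_zero, Real.exp_zero]
  · obtain ⟨p, j, hp, -, -, -, hNC, hlow, -⟩ := exists_split A hpos h2
    have hφ0 : ∃ φ : ℕ → ℕ, φ = fun n : ℕ => n.factorization p := ⟨_, rfl⟩
    obtain ⟨φ, hφ⟩ := hφ0
    have hss : ∀ v, A.filter (fun y => φ y = v) ⊂ A := by
      intro v
      refine Finset.filter_ssubset.2 ?_
      obtain ⟨a, ha, b, hb, hab⟩ := hNC
      by_cases hav : φ a = v
      · refine ⟨b, hb, fun hbv => hab ?_⟩
        have := hav.trans hbv.symm
        rw [hφ] at this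
        exact this
      · exact ⟨a, ha, hav⟩
    have hih : ∀ v ∈ A.image φ, ∃ (ρ : ℝ) (S : Finset ℕ), 0 ≤ ρ ∧
        ρ ≤ Real.log ((A.filter (fun y => φ y = v)).card : ℝ) ∧
        S ⊆ A.filter (fun y => φ y = v) ∧ S.Nonempty ∧
        (∀ B : Finset ℕ, B.Nonempty → (∀ b ∈ B, 0 < b) →
          (1 - η) * (Real.log (B.card : ℝ) + ρ) ≤
            Real.log ((Finset.image₂ (fun x y : ℕ => x * y) B
              (A.filter (fun y => φ y = v))).card : ℝ)) ∧
        Real.exp ((1 - ε') * (Real.log ((A.filter (fun y => φ y = v)).card : ℝ) - ρ)) ≤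
          ∑ a ∈ S, Real.exp (-lam * ((br S a).card : ℝ)) := by
      intro v hv
      obtain ⟨a, ha, rfl⟩ := Finset.mem_image.1 hv
      obtain ⟨ρ, h0, hle, S, hS, hSne, hP, hW⟩ := ih _ (hss (φ a))
        ⟨a, Finset.mem_filter.2 ⟨ha, rfl⟩⟩ (fun b hb => hpos b (Finset.mem_filter.1 hb).1)
      exact ⟨ρ, S, h0, hle, hS, hSne, hP, hW⟩
    choose! ρf Sf hf0 hf1 hfS hfne hfP hfW using hih
    have hmem : ∀ a ∈ A, φ a ∈ A.image φ := fun a ha => Finset.mem_image_of_mem φ ha
    have hclne : ∀ a ∈ A, (0 : ℝ) < ((cl φ A a).card : ℝ) := by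
      intro a ha
      exact_mod_cast Finset.card_pos.2 ⟨a, mem_cl_self φ A a ha⟩
    -- the averages
    have hav0 : 0 ≤ av A (fun a => ρf (φ a)) := by
      have := av_mono A (fun _ => (0 : ℝ)) (fun a => ρf (φ a)) fun a ha => hf0 _ (hmem a ha)
      rwa [av_const A hA] at this
    have hav1 : av A (fun a => ρf (φ a)) ≤ Real.log (A.card : ℝ) - hh φ A := by
      rw [← log_card_eq]
      exact av_mono A _ _ fun a ha => hf1 _ (hmem a ha)
    have hhA : 0 ≤ hh φ A := hh_nonneg φ A hA
    have key : ∀ B : Finset ℕ, B.Nonempty → (∀ b ∈ B, 0 < b) →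
        (1 - η) * ((Real.log (B.card : ℝ) - hh φ B) + av A (fun a => ρf (φ a))) ≤
          av B (fun b => av A (fun a => Real.log ((Finset.image₂ (fun x y : ℕ => x * y)
            (cl φ B b) (cl φ A a)).card : ℝ))) := by
      intro B hB hB0
      rw [← log_card_eq, ← SplitL_avav hA hB η (fun x => Real.log ((cl φ B x).card : ℝ))
        (fun a => ρf (φ a))]
      refine av_mono B _ _ fun b hb => av_mono A _ _ fun a ha => ?_
      exact hfP (φ a) (hmem a ha) (cl φ B b) ⟨b, mem_cl_self φ B b hb⟩
        fun x hx => hB0 x (Finset.mem_filter.1 hx).1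
    by_cases hatom : ∃ a ∈ A, (1 - t0) * (A.card : ℝ) ≤ ((cl φ A a).card : ℝ)
    · -- a frequent valuation
      obtain ⟨x, hx, hmax⟩ := Finset.exists_max_image A
        (fun a => Real.log ((cl φ A a).card : ℝ) - ρf (φ a)) hA
      refine ⟨hh φ A + av A (fun a => ρf (φ a)), add_nonneg hhA hav0, by linarith, Sf (φ x),
        (hfS _ (hmem x hx)).trans (Finset.filter_subset _ _), hfne _ (hmem x hx), ?_, ?_⟩
      · intro B hB hB0
        have h3 : (1 - η) * (hh φ B + hh φ A) +
            av B (fun b => av A (fun a => Real.log ((Finset.image₂ (fun x y : ℕ => x * y)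
              (cl φ B b) (cl φ A a)).card : ℝ))) ≤
            Real.log ((Finset.image₂ (fun x y : ℕ => x * y) B A).card : ℝ) := by
          rw [hφ] at hatom ⊢
          exact hnode p B A hB hA hB0 hpos hatom
        have h4 := key B hB hB0
        calc (1 - η) * (Real.log (B.card : ℝ) + (hh φ A + av A (fun a => ρf (φ a)))) =
              (1 - η) * (hh φ B + hh φ A) + (1 - η) * ((Real.log (B.card : ℝ) - hh φ B) +
                av A (fun a => ρf (φ a))) := by ring
          _ ≤ _ := by linarith
      · refine le_trans (Real.exp_le_exp.2 ?_) (hfW _ (hmem x hx))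
        apply mul_le_mul_of_nonneg_left _ (by linarith)
        have h3 : av A (fun a => Real.log ((cl φ A a).card : ℝ)) ≤
            av A (fun a => (Real.log ((cl φ A x).card : ℝ) - ρf (φ x)) + ρf (φ a)) :=
          av_mono A _ _ fun a ha => by
            have := hmax a ha
            linarith
        rw [av_add A (fun _ => Real.log ((cl φ A x).card : ℝ) - ρf (φ x)) (fun a => ρf (φ a)),
          av_const A hA, log_card_eq] at h3
        have h4 : Real.log ((cl φ A x).card : ℝ) =
            Real.log ((A.filter (fun y => φ y = φ x)).card : ℝ) := rfl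
        linarith
    · -- no frequent valuation
      push Not at hatom
      have hH : t0 ≤ hh φ A := SplitL_hh hA φ ht0 ht01 hatom
      have hdisj : ((A.image φ : Finset ℕ) : Set ℕ).PairwiseDisjoint Sf := by
        intro v hv w hw hvw
        refine Finset.disjoint_left.2 fun b hb hb' => hvw ?_
        have h3 := (Finset.mem_filter.1 (hfS v hv hb)).2
        have h4 := (Finset.mem_filter.1 (hfS w hw hb')).2
        exact h3.symm.trans h4
      refine ⟨av A (fun a => ρf (φ a)), hav0, by linarith, (A.image φ).biUnion Sf, ?_, ?_, ?_, ?_⟩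
      · refine Finset.biUnion_subset.2 fun v hv => (hfS v hv).trans (Finset.filter_subset _ _)
      · obtain ⟨a, ha⟩ := hA
        obtain ⟨b, hb⟩ := hfne _ (hmem a ha)
        exact ⟨b, Finset.mem_biUnion.2 ⟨φ a, hmem a ha, hb⟩⟩
      · intro B hB hB0
        have h3 : hh φ B +
            av B (fun b => av A (fun a => Real.log ((Finset.image₂ (fun x y : ℕ => x * y)
              (cl φ B b) (cl φ A a)).card : ℝ))) ≤
            Real.log ((Finset.image₂ (fun x y : ℕ => x * y) B A).card : ℝ) := by
          rw [hφ]
          exact prod_any p B A hB hA hB0 hpos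
        have h4 := key B hB hB0
        have h5 : 0 ≤ hh φ B := hh_nonneg φ B hB
        calc (1 - η) * (Real.log (B.card : ℝ) + av A (fun a => ρf (φ a))) =
              (1 - η) * ((Real.log (B.card : ℝ) - hh φ B) + av A (fun a => ρf (φ a))) +
                (hh φ B - η * hh φ B) := by ring
          _ ≤ _ := by nlinarith
      · -- the weights
        set S := (A.image φ).biUnion Sf with hS
        have hbr : ∀ v ∈ A.image φ, ∀ a ∈ Sf v, ((br S a).card : ℝ) ≤ ((br (Sf v) a).card : ℝ) + 1 := by
          intro v hv a ha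
          have hsub : br S a ⊆ insert p (br (Sf v) a) := by
            intro q hq
            unfold br at hq
            obtain ⟨b, hb, rfl⟩ := Finset.mem_image.1 hq
            obtain ⟨hba, hbS⟩ := Finset.mem_erase.1 hb
            obtain ⟨w, hw, hbw⟩ := Finset.mem_biUnion.1 hbS
            have h3 := Finset.mem_filter.1 (hfS v hv ha)
            have h4 := Finset.mem_filter.1 (hfS w hw hbw)
            by_cases hvw : v = w
            · subst hvw
              refine Finset.mem_insert_of_mem ?_
              unfold br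
              exact Finset.mem_image.2 ⟨b, Finset.mem_erase.2 ⟨hba, hbw⟩, rfl⟩
            · have h5 : dl a b = p := by
                refine SplitL_dl (fun q hq => hlow a h3.1 b h4.1 q hq) fun h6 => hvw ?_
                rw [← h3.2, ← h4.2, hφ]
                exact h6
              rw [h5]
              exact Finset.mem_insert_self _ _
          have h3 := (Finset.card_le_card hsub).trans (Finset.card_insert_le _ _)
          exact_mod_cast h3
        have hsum : ∑ a ∈ S, Real.exp (-lam * ((br S a).card : ℝ)) =
            ∑ v ∈ A.image φ, ∑ a ∈ Sf v, Real.exp (-lam * ((br S a).card : ℝ)) :=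
          Finset.sum_biUnion hdisj
        have hlow2 : ∀ v ∈ A.image φ, Real.exp (-lam) *
            Real.exp ((1 - ε') * (Real.log ((A.filter (fun y => φ y = v)).card : ℝ) - ρf v)) ≤
              ∑ a ∈ Sf v, Real.exp (-lam * ((br S a).card : ℝ)) := by
          intro v hv
          refine (mul_le_mul_of_nonneg_left (hfW v hv) (Real.exp_pos _).le).trans ?_
          rw [Finset.mul_sum]
          refine Finset.sum_le_sum fun a ha => ?_
          rw [← Real.exp_add]
          apply Real.exp_le_exp.2
          have := hbr v hv a ha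
          nlinarith
        -- Gibbs
        set w : ℕ → ℝ := fun x => Real.exp ((1 - ε') *
          (Real.log ((cl φ A x).card : ℝ) - ρf (φ x))) with hw
        have hg := gibbs φ A hA w fun x _ => Real.exp_pos _
        have hlogw : av A (fun x => Real.log (w x)) =
            (1 - ε') * (Real.log (A.card : ℝ) - hh φ A - av A (fun a => ρf (φ a))) := by
          have h3 : (fun x => Real.log (w x)) = fun x => (1 - ε') *
              (Real.log ((cl φ A x).card : ℝ) - ρf (φ x)) := by
            funext x
            rw [hw, Real.log_exp]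
          rw [h3, av_mul A (1 - ε') (fun x => Real.log ((cl φ A x).card : ℝ) - ρf (φ x))]
          congr 1
          have h4 := av_add A (fun x => Real.log ((cl φ A x).card : ℝ) - ρf (φ x))
            (fun x => ρf (φ x))
          simp only [sub_add_cancel] at h4
          rw [log_card_eq] at h4
          linarith
        have hfib : ∑ x ∈ A, w x / ((cl φ A x).card : ℝ) = ∑ v ∈ A.image φ,
            Real.exp ((1 - ε') * (Real.log ((A.filter (fun y => φ y = v)).card : ℝ) - ρf v)) := by
          rw [← Finset.sum_fiberwise_of_maps_to (g := φ) hmem]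
          refine Finset.sum_congr rfl fun v hv => ?_
          obtain ⟨a, ha, rfl⟩ := Finset.mem_image.1 hv
          have h3 : ∀ x ∈ A.filter (fun y => φ y = φ a), w x / ((cl φ A x).card : ℝ) =
              w a / ((cl φ A a).card : ℝ) := by
            intro x hx
            have h4 := (Finset.mem_filter.1 hx).2
            have h5 : cl φ A x = cl φ A a := by
              unfold cl
              rw [h4]
            simp only [hw, h5, h4]
          rw [Finset.sum_congr rfl h3, Finset.sum_const, nsmul_eq_mul]
          have h6 : ((A.filter (fun y => φ y = φ a)).card : ℝ) = ((cl φ A a).card : ℝ) := rfl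
          rw [h6, mul_div_cancel₀ _ (hclne a ha).ne']
        rw [hfib] at hg
        have hpos2 : 0 < ∑ v ∈ A.image φ,
            Real.exp ((1 - ε') * (Real.log ((A.filter (fun y => φ y = v)).card : ℝ) - ρf v)) :=
          Finset.sum_pos (fun v _ => Real.exp_pos _) (hA.image φ)
        have h7 : Real.exp (hh φ A + av A (fun x => Real.log (w x))) ≤ ∑ v ∈ A.image φ,
            Real.exp ((1 - ε') * (Real.log ((A.filter (fun y => φ y = v)).card : ℝ) - ρf v)) := by
          rw [← Real.exp_log hpos2]
          exact Real.exp_le_exp.2 hg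
        rw [hsum]
        refine le_trans ?_ (Finset.sum_le_sum hlow2)
        rw [← Finset.mul_sum]
        refine le_trans ?_ (mul_le_mul_of_nonneg_left h7 (Real.exp_pos _).le)
        rw [← Real.exp_add]
        apply Real.exp_le_exp.2
        rw [hlogw]
        have h8 : lam ≤ ε' * hh φ A := by
          rw [← hlam]
          exact mul_le_mul_of_nonneg_left hH hε.le
        nlinarith

end Pool.Agent.Helper24.MD
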