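import Pool.Agent.Helper24.MD.KFold
import Pool.Agent.Helper24.MD.SplitL

set_option autoImplicit false

/-! # Project MD, the theorems for sets of positive integers -/

namespace Pool.Agent.Helper24.MD

open Finset

/-- `k`-fold product sets -/
theorem kprod (η ρ : ℝ) (hη : 0 ≤ η) (hη1 : η ≤ 1) (hρ : 0 ≤ ρ) (A : Finset ℕ) (hA : A.Nonempty)
    (hpos : ∀ a ∈ A, 0 < a)
    (h : ∀ B : Finset ℕ, B.Nonempty → (∀ b ∈ B, 0 < b) →
      (1 - η) * (Real.log (B.card : ℝ) + ρ) ≤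
        Real.log ((Finset.image₂ (fun x y : ℕ => x * y) B A).card : ℝ)) (k : ℕ) :
    (k : ℝ) * (1 - k * η) * ρ ≤
      Real.log ((((Fintype.piFinset (fun _ : Fin k => A)).image
        (fun f : Fin k → ℕ => ∏ i, f i)).card : ℕ) : ℝ) := by
  induction k with
  | zero =>
    have h0 : ((0 : ℕ) : ℝ) * (1 - ((0 : ℕ) : ℝ) * η) * ρ = 0 := by
      rw [Nat.cast_zero]; ring
    rw [h0]
    exact Real.log_natCast_nonneg _
  | succ k ih =>
    set P : Finset ℕ := (Fintype.piFinset (fun _ : Fin k => A)).image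
      (fun f : Fin k → ℕ => ∏ i, f i) with hP
    have hPne : P.Nonempty := by
      rw [hP]
      refine Finset.Nonempty.image ?_ _
      rw [Fintype.piFinset_nonempty]
      intro _; exact hA
    have hPpos : ∀ b ∈ P, 0 < b := by
      intro b hb
      rw [hP, Finset.mem_image] at hb
      obtain ⟨f, hf, rfl⟩ := hb
      rw [Fintype.mem_piFinset] at hf
      exact Finset.prod_pos fun i _ => hpos _ (hf i)
    have h1 := h P hPne hPpos
    have hsub : Finset.image₂ (fun x y : ℕ => x * y) P A ⊆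
        (Fintype.piFinset (fun _ : Fin (k + 1) => A)).image
          (fun f : Fin (k + 1) → ℕ => ∏ i, f i) := by
      intro z hz
      rw [Finset.mem_image₂] at hz
      obtain ⟨x, hx, y, hy, rfl⟩ := hz
      rw [hP, Finset.mem_image] at hx
      obtain ⟨f, hf, rfl⟩ := hx
      rw [Fintype.mem_piFinset] at hf
      rw [Finset.mem_image]
      refine ⟨Fin.snoc f y, ?_, ?_⟩
      · rw [Fintype.mem_piFinset]
        intro i
        refine Fin.lastCases ?_ (fun j => ?_) i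
        · rw [Fin.snoc_last]; exact hy
        · rw [Fin.snoc_castSucc]; exact hf j
      · rw [Fin.prod_univ_castSucc]
        simp only [Fin.snoc_castSucc, Fin.snoc_last]
    have hne2 : (Finset.image₂ (fun x y : ℕ => x * y) P A).Nonempty := hPne.image₂ hA
    have h2 : Real.log ((Finset.image₂ (fun x y : ℕ => x * y) P A).card : ℝ) ≤
        Real.log (((((Fintype.piFinset (fun _ : Fin (k + 1) => A)).image
          (fun f : Fin (k + 1) → ℕ => ∏ i, f i)).card : ℕ)) : ℝ) := by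
      apply Real.log_le_log
      · exact_mod_cast Finset.card_pos.2 hne2
      · exact_mod_cast Finset.card_le_card hsub
    refine le_trans ?_ h2
    refine le_trans ?_ h1
    have h3 : (1 - η) * ((k : ℝ) * (1 - k * η) * ρ + ρ) ≤
        (1 - η) * (Real.log (P.card : ℝ) + ρ) :=
      mul_le_mul_of_nonneg_left (by linarith) (by linarith)
    refine le_trans ?_ h3
    push_cast
    have hk : (0 : ℝ) ≤ k := Nat.cast_nonneg k
    have e : (1 - η) * ((k : ℝ) * (1 - k * η) * ρ + ρ) -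
        ((k : ℝ) + 1) * (1 - ((k : ℝ) + 1) * η) * ρ = k * η * ρ + k ^ 2 * η ^ 2 * ρ := by ring
    have e2 : 0 ≤ (k : ℝ) * η * ρ + k ^ 2 * η ^ 2 * ρ := by positivity
    linarith

theorem sums_mono (k : ℕ) (g : Fin k → ℕ) {Z Y : Finset ℕ} (hZ : Z.Nonempty) (h : Z ⊆ Y) :
    Real.log ((((Fintype.piFinset (fun _ : Fin k => Z)).image
      (fun f : Fin k → ℕ => ∑ i, ((g i : ℕ) : ℤ) * ((f i : ℕ) : ℤ))).card : ℕ) : ℝ) ≤
    Real.log ((((Fintype.piFinset (fun _ : Fin k => Y)).image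
      (fun f : Fin k → ℕ => ∑ i, ((g i : ℕ) : ℤ) * ((f i : ℕ) : ℤ))).card : ℕ) : ℝ) := by
  have hne : ((Fintype.piFinset (fun _ : Fin k => Z)).image
      (fun f : Fin k → ℕ => ∑ i, ((g i : ℕ) : ℤ) * ((f i : ℕ) : ℤ))).Nonempty := by
    refine Finset.Nonempty.image ?_ _
    rw [Fintype.piFinset_nonempty]
    intro _; exact hZ
  apply Real.log_le_log
  · exact_mod_cast Finset.card_pos.2 hne
  · have : (Fintype.piFinset (fun _ : Fin k => Z)).image
        (fun f : Fin k → ℕ => ∑ i, ((g i : ℕ) : ℤ) * ((f i : ℕ) : ℤ)) ⊆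
        (Fintype.piFinset (fun _ : Fin k => Y)).image
        (fun f : Fin k → ℕ => ∑ i, ((g i : ℕ) : ℤ) * ((f i : ℕ) : ℤ)) :=
      Finset.image_subset_image (Fintype.piFinset_subset _ _ fun _ => h)
    exact_mod_cast Finset.card_le_card this

/-- the elements of small branching -/
theorem small_branch (lam ε' ρ : ℝ) (hlam : 0 < lam) (hε1 : ε' ≤ 1)
    (Y S : Finset ℕ) (hY : Y.Nonempty) (hS : S ⊆ Y) (hρ : ρ ≤ Real.log (Y.card : ℝ))
    (hW : Real.exp ((1 - ε') * (Real.log (Y.card : ℝ) - ρ)) ≤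
      ∑ a ∈ S, Real.exp (-lam * ((br S a).card : ℝ))) :
    ∃ S' ⊆ S, S'.Nonempty ∧
      (1 - ε') * (Real.log (Y.card : ℝ) - ρ) - Real.log 2 ≤ Real.log (S'.card : ℝ) ∧
      (rr S' : ℝ) ≤ (Real.log 2 + Real.log (Y.card : ℝ)) / lam := by
  classical
  set R : ℝ := (Real.log 2 + Real.log (Y.card : ℝ)) / lam with hR
  have hN : (0 : ℝ) < (Y.card : ℝ) := by exact_mod_cast Finset.card_pos.2 hY
  set S' : Finset ℕ := S.filter (fun a => ((br S a).card : ℝ) ≤ R) with hS'
  have hsum := Finset.sum_filter_add_sum_filter_not S (fun a => ((br S a).card : ℝ) ≤ R)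
    (fun a => Real.exp (-lam * ((br S a).card : ℝ)))
  have b1 : ∑ a ∈ S', Real.exp (-lam * ((br S a).card : ℝ)) ≤ (S'.card : ℝ) := by
    have : ∑ a ∈ S', Real.exp (-lam * ((br S a).card : ℝ)) ≤ ∑ a ∈ S', (1 : ℝ) := by
      refine Finset.sum_le_sum fun a _ => ?_
      rw [Real.exp_le_one_iff]
      have : 0 ≤ lam * ((br S a).card : ℝ) := by positivity
      linarith
    refine le_trans this ?_
    rw [Finset.sum_const, nsmul_eq_mul, mul_one]
  have b2 : ∑ a ∈ S.filter (fun a => ¬ ((br S a).card : ℝ) ≤ R),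
      Real.exp (-lam * ((br S a).card : ℝ)) ≤ 1 / 2 := by
    have e1 : ∀ a ∈ S.filter (fun a => ¬ ((br S a).card : ℝ) ≤ R),
        Real.exp (-lam * ((br S a).card : ℝ)) ≤ (2 * (Y.card : ℝ))⁻¹ := by
      intro a ha
      rw [Finset.mem_filter, not_le] at ha
      have h1 : Real.log 2 + Real.log (Y.card : ℝ) ≤ lam * ((br S a).card : ℝ) := by
        have h2 := ha.2
        rw [hR, div_lt_iff₀ hlam] at h2
        linarith
      have h3 : (2 * (Y.card : ℝ))⁻¹ = Real.exp (-(Real.log 2 + Real.log (Y.card : ℝ))) := by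
        rw [Real.exp_neg, Real.exp_add, Real.exp_log (by norm_num), Real.exp_log hN]
      rw [h3, Real.exp_le_exp]
      linarith
    refine le_trans (Finset.sum_le_sum e1) ?_
    rw [Finset.sum_const, nsmul_eq_mul]
    have h4 : ((S.filter (fun a => ¬ ((br S a).card : ℝ) ≤ R)).card : ℝ) ≤ (Y.card : ℝ) := by
      exact_mod_cast Finset.card_le_card ((Finset.filter_subset _ _).trans hS)
    have h5 : ((S.filter (fun a => ¬ ((br S a).card : ℝ) ≤ R)).card : ℝ) * (2 * (Y.card : ℝ))⁻¹ ≤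
        (Y.card : ℝ) * (2 * (Y.card : ℝ))⁻¹ := mul_le_mul_of_nonneg_right h4 (by positivity)
    refine le_trans h5 ?_
    have : (Y.card : ℝ) * (2 * (Y.card : ℝ))⁻¹ = 1 / 2 := by field_simp
    linarith
  have hx : 0 ≤ (1 - ε') * (Real.log (Y.card : ℝ) - ρ) :=
    mul_nonneg (by linarith) (by linarith)
  have hone : 1 ≤ Real.exp ((1 - ε') * (Real.log (Y.card : ℝ) - ρ)) := Real.one_le_exp hx
  have hcard : Real.exp ((1 - ε') * (Real.log (Y.card : ℝ) - ρ)) / 2 ≤ (S'.card : ℝ) := by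
    linarith
  have hpos : (0 : ℝ) < (S'.card : ℝ) := lt_of_lt_of_le (by positivity) hcard
  have hne : S'.Nonempty := Finset.card_pos.1 (by exact_mod_cast hpos)
  refine ⟨S', Finset.filter_subset _ _, hne, ?_, ?_⟩
  · have h1 := Real.log_le_log (by positivity) hcard
    rw [Real.log_div (Real.exp_pos _).ne' (by norm_num), Real.log_exp] at h1
    exact h1
  · obtain ⟨a, ha, hae⟩ := Finset.exists_mem_eq_sup S' hne (fun a => (br S' a).card)
    have h1 : rr S' = (br S' a).card := hae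
    rw [h1]
    have h2 : (br S' a).card ≤ (br S a).card :=
      Finset.card_le_card (br_mono (Finset.filter_subset _ _) a)
    have h3 : ((br S a).card : ℝ) ≤ R := (Finset.mem_filter.1 ha).2
    have h4 : ((br S' a).card : ℝ) ≤ ((br S a).card : ℝ) := by exact_mod_cast h2
    linarith

/-- (1) for positive integers -/
theorem main1 (k : ℕ) (ε : ℝ) (hε : 0 < ε) : ∃ m : ℕ, 2 ≤ m ∧ ∃ K : ℝ, 0 ≤ K ∧
    ∀ G : Finset ℕ, m ≤ G.card → (∀ g ∈ G, ∀ g' ∈ G, g ≠ g' → Nat.Coprime g g') →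
    ∀ W : Finset ℕ, (∀ p : ℕ, p.Prime → p ∉ W → ∀ g ∈ G, ∀ g' ∈ G,
      ((g : ℕ) : ZMod p) = ((g' : ℕ) : ZMod p) → g = g') →
    ∀ Y : Finset ℕ, Y.Nonempty → (∀ y ∈ Y, 0 < y) →
      ∃ g : Fin k → ℕ, (∀ i, g i ∈ G) ∧
        ((k : ℝ) - ε) * Real.log (Y.card : ℝ) - K * (1 + (qq W Y : ℝ)) ≤
          Real.log ((((Fintype.piFinset (fun _ : Fin k => Y)).image
            (fun f : Fin k → ℕ => ∏ i, f i)).card : ℕ) : ℝ) +
          Real.log ((((Fintype.piFinset (fun _ : Fin k => Y)).image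
            (fun f : Fin k → ℕ => ∑ i, ((g i : ℕ) : ℤ) * ((f i : ℕ) : ℤ))).card : ℕ) : ℝ) := by
  rcases Nat.eq_zero_or_pos k with hk | hk
  · subst hk
    refine ⟨2, le_rfl, 0, le_rfl, ?_⟩
    intro G _ _ W _ Y _ _
    refine ⟨fun i => i.elim0, fun i => i.elim0, ?_⟩
    have h1 : 0 ≤ Real.log (Y.card : ℝ) := Real.log_natCast_nonneg _
    have h2 : (((0 : ℕ) : ℝ) - ε) * Real.log (Y.card : ℝ) - 0 * (1 + (qq W Y : ℝ)) ≤ 0 := by
      rw [Nat.cast_zero]
      nlinarith
    refine le_trans h2 ?_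
    exact add_nonneg (Real.log_natCast_nonneg _) (Real.log_natCast_nonneg _)
  · have hκ : (1 : ℝ) ≤ (k : ℝ) := by exact_mod_cast hk
    set κ : ℝ := (k : ℝ) with hκd
    set e : ℝ := min ε 1 with he
    have he0 : 0 < e := lt_min hε one_pos
    have he1 : e ≤ 1 := min_le_right _ _
    have hee : e ≤ ε := min_le_left _ _
    have hκ0 : 0 < κ := by linarith
    -- the parameters
    have hη0 : 0 < e / (2 * κ ^ 2) := by positivity
    have hη1 : e / (2 * κ ^ 2) ≤ 1 := by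
      rw [div_le_one (by positivity)]; nlinarith
    have hε0' : 0 < e / (4 * κ) := by positivity
    have hε1' : e / (4 * κ) ≤ 1 := by
      rw [div_le_one (by positivity)]; linarith
    obtain ⟨lam, hlam, hsplit⟩ := split (e / (2 * κ ^ 2)) (e / (4 * κ)) hη0 hη1 hε0' hε1'
    have hε10 : 0 < e / (4 * (κ * (κ + 1))) := by positivity
    have hε11 : e / (4 * (κ * (κ + 1))) ≤ 1 := by
      rw [div_le_one (by positivity)]; nlinarith
    have hlam1 : 0 < e * lam / (2 * κ) := by positivity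
    obtain ⟨m, hm, K, hK, hprop⟩ := propS _ _ hε10 hε11 hlam1
    have hl2 : 0 ≤ Real.log 2 := Real.log_nonneg (by norm_num)
    refine ⟨m, hm, κ * K + κ * Real.log 2 + Real.log 2, by positivity, ?_⟩
    intro G hG hco W hWG Y hY hYpos
    obtain ⟨ρ, hρ0, hρ1, S, hSY, hSne, hP, hWt⟩ := hsplit Y hY hYpos
    obtain ⟨S', hS'S, hS'ne, hS'card, hS'r⟩ :=
      small_branch lam (e / (4 * κ)) ρ hlam hε1' Y S hY hSY hρ1 hWt
    have hS'Y : S' ⊆ Y := hS'S.trans hSY
    have hS'pos : ∀ y ∈ S', 0 < y := fun y hy => hYpos y (hS'Y hy)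
    have hGne : G.Nonempty := Finset.card_pos.1 (by omega)
    have hB0 : 0 ≤ e * lam / (2 * κ) * (rr S' : ℝ) + K * (qq W S' : ℝ) := by positivity
    obtain ⟨g, hg, hgs⟩ := kfold (e / (4 * (κ * (κ + 1))))
      (e * lam / (2 * κ) * (rr S' : ℝ) + K * (qq W S' : ℝ)) hε10.le hB0 G hGne S' hS'ne (by
        intro X hX
        have h1 := hprop G hG hco W hWG S' hS'ne hS'pos X hX
        unfold Bd at h1
        linarith) k
    refine ⟨g, hg, ?_⟩
    have p1 := kprod (e / (2 * κ ^ 2)) ρ hη0.le hη1 hρ0 Y hY hYpos hP k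
    have p2 := le_trans hgs (sums_mono k g hS'ne hS'Y)
    refine le_trans ?_ (add_le_add p1 p2)
    have hq : (qq W S' : ℝ) ≤ (qq W Y : ℝ) := by exact_mod_cast qq_mono W hS'Y
    have hq0 : (0 : ℝ) ≤ (qq W Y : ℝ) := Nat.cast_nonneg _
    generalize Real.log (Y.card : ℝ) = LY at *
    generalize Real.log (S'.card : ℝ) = LS at *
    generalize (qq W S' : ℝ) = q' at *
    generalize (qq W Y : ℝ) = q at *
    generalize (rr S' : ℝ) = r at *
    generalize Real.log 2 = l2 at *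
    -- simplify the coefficients
    have c1 : κ * (1 - κ * (e / (2 * κ ^ 2))) * ρ = (κ - e / 2) * ρ := by field_simp
    have c2 : κ * LS - κ * ((κ + 1) * (e / (4 * (κ * (κ + 1)))) * LS +
        (e * lam / (2 * κ) * r + K * q')) =
        (κ - e / 4) * LS - e * lam / 2 * r - κ * K * q' := by field_simp; ring
    rw [c1, c2]
    have d1 : (κ - e / 4) * ((1 - e / (4 * κ)) * (LY - ρ) - l2) ≤ (κ - e / 4) * LS :=
      mul_le_mul_of_nonneg_left hS'card (by linarith)
    have d2 : e * lam / 2 * r ≤ e / 2 * (l2 + LY) := by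
      have h1 : e * lam / 2 * r ≤ e * lam / 2 * ((l2 + LY) / lam) :=
        mul_le_mul_of_nonneg_left hS'r (by positivity)
      have h2 : e * lam / 2 * ((l2 + LY) / lam) = e / 2 * (l2 + LY) := by field_simp
      linarith
    have d3 : κ * K * q' ≤ κ * K * q := mul_le_mul_of_nonneg_left hq (by positivity)
    have d4 : (κ - e / 4) * ((1 - e / (4 * κ)) * (LY - ρ) - l2) =
        (κ - e / 4) * (LY - ρ) - (κ - e / 4) * (e / (4 * κ)) * (LY - ρ) - (κ - e / 4) * l2 := by
      ring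
    have d5 : (κ - e / 4) * (e / (4 * κ)) * (LY - ρ) ≤ e / 4 * (LY - ρ) := by
      apply mul_le_mul_of_nonneg_right _ (by linarith)
      have h1 : (κ - e / 4) * (e / (4 * κ)) ≤ κ * (e / (4 * κ)) :=
        mul_le_mul_of_nonneg_right (by linarith) (by positivity)
      have h2 : κ * (e / (4 * κ)) = e / 4 := by field_simp
      linarith
    have d6 : 0 ≤ (e / 4) * l2 := by positivity
    have d7 : (κ - ε) * LY ≤ (κ - e) * LY :=
      mul_le_mul_of_nonneg_right (by linarith) (by linarith)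
    have d8 : 0 ≤ (κ * l2 + l2) * q := by positivity
    have d9 : e / 2 * l2 ≤ l2 := by nlinarith
    nlinarith

/-- (2) for positive integers -/
theorem main2 (k : ℕ) (ε C : ℝ) (hε : 0 < ε) (hC : 0 < C) : ∃ m : ℕ, 2 ≤ m ∧ ∃ K : ℝ, 0 ≤ K ∧
    ∀ G : Finset ℕ, m ≤ G.card → (∀ g ∈ G, ∀ g' ∈ G, g ≠ g' → Nat.Coprime g g') →
    ∀ W : Finset ℕ, (∀ p : ℕ, p.Prime → p ∉ W → ∀ g ∈ G, ∀ g' ∈ G,
      ((g : ℕ) : ZMod p) = ((g' : ℕ) : ZMod p) → g = g') →
    ∀ Y : Finset ℕ, Y.Nonempty → (∀ y ∈ Y, 0 < y) →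
      ∃ g : Fin k → ℕ, (∀ i, g i ∈ G) ∧ ∀ T : Finset ℕ, (∀ p, p.Prime → NC Y p → p ∈ T) →
        ((k : ℝ) - ε) * Real.log (Y.card : ℝ) - ε / C * (T.card : ℝ) - K * (1 + (qq W Y : ℝ)) ≤
          Real.log ((((Fintype.piFinset (fun _ : Fin k => Y)).image
            (fun f : Fin k → ℕ => ∑ i, ((g i : ℕ) : ℤ) * ((f i : ℕ) : ℤ))).card : ℕ) : ℝ) := by
  rcases Nat.eq_zero_or_pos k with hk | hk
  · subst hk
    refine ⟨2, le_rfl, 0, le_rfl, ?_⟩
    intro G _ _ W _ Y _ _
    refine ⟨fun i => i.elim0, fun i => i.elim0, ?_⟩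
    intro T _
    have h1 : 0 ≤ Real.log (Y.card : ℝ) := Real.log_natCast_nonneg _
    have h3 : 0 ≤ ε / C * (T.card : ℝ) := by positivity
    have h2 : (((0 : ℕ) : ℝ) - ε) * Real.log (Y.card : ℝ) - ε / C * (T.card : ℝ) -
        0 * (1 + (qq W Y : ℝ)) ≤ 0 := by
      rw [Nat.cast_zero]
      nlinarith
    exact le_trans h2 (Real.log_natCast_nonneg _)
  · have hκ : (1 : ℝ) ≤ (k : ℝ) := by exact_mod_cast hk
    set κ : ℝ := (k : ℝ) with hκd
    set e : ℝ := min ε 1 with he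
    have he0 : 0 < e := lt_min hε one_pos
    have he1 : e ≤ 1 := min_le_right _ _
    have hee : e ≤ ε := min_le_left _ _
    have hκ0 : 0 < κ := by linarith
    have hε10 : 0 < e / (κ * (κ + 1)) := by positivity
    have hε11 : e / (κ * (κ + 1)) ≤ 1 := by
      rw [div_le_one (by positivity)]; nlinarith
    have hlam1 : 0 < ε / (C * κ) := by positivity
    obtain ⟨m, hm, K, hK, hprop⟩ := propS _ _ hε10 hε11 hlam1
    refine ⟨m, hm, κ * K, by positivity, ?_⟩
    intro G hG hco W hWG Y hY hYpos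
    have hGne : G.Nonempty := Finset.card_pos.1 (by omega)
    have hB0 : 0 ≤ ε / (C * κ) * (rr Y : ℝ) + K * (qq W Y : ℝ) := by positivity
    obtain ⟨g, hg, hgs⟩ := kfold (e / (κ * (κ + 1)))
      (ε / (C * κ) * (rr Y : ℝ) + K * (qq W Y : ℝ)) hε10.le hB0 G hGne Y hY (by
        intro X hX
        have h1 := hprop G hG hco W hWG Y hY hYpos X hX
        unfold Bd at h1
        linarith) k
    refine ⟨g, hg, ?_⟩
    intro T hT
    refine le_trans ?_ hgs
    have hr : (rr Y : ℝ) ≤ (T.card : ℝ) := by exact_mod_cast rr_le_card Y hYpos T hT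
    have hL : 0 ≤ Real.log (Y.card : ℝ) := Real.log_natCast_nonneg _
    have hq0 : (0 : ℝ) ≤ (qq W Y : ℝ) := Nat.cast_nonneg _
    generalize Real.log (Y.card : ℝ) = LY at *
    generalize (qq W Y : ℝ) = q at *
    generalize (rr Y : ℝ) = r at *
    have c2 : κ * LY - κ * ((κ + 1) * (e / (κ * (κ + 1))) * LY +
        (ε / (C * κ) * r + K * q)) = (κ - e) * LY - ε / C * r - κ * K * q := by
      field_simp
      ring
    rw [c2]
    have d1 : ε / C * r ≤ ε / C * (T.card : ℝ) := mul_le_mul_of_nonneg_left hr (by positivity)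
    have d2 : (κ - ε) * LY ≤ (κ - e) * LY := mul_le_mul_of_nonneg_right (by linarith) hL
    have d3 : 0 ≤ κ * K := by positivity
    nlinarith

end Pool.Agent.Helper24.MD
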