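import Pool.Agent.Helper24.MD.EndN

set_option autoImplicit false

/-! # Project MD, the theorems for sets of positive integers, general sets of dilates -/

namespace Pool.Agent.Helper24.MD

open Finset

/-- (1) for positive integers; no prime with non-constant valuation divides two elements of `G` -/
theorem main1t (k : ℕ) (ε : ℝ) (hε : 0 < ε) : ∃ m : ℕ, 2 ≤ m ∧ ∃ K : ℝ, 0 ≤ K ∧
    ∀ G : Finset ℕ, m ≤ G.card →
    ∀ W : Finset ℕ, (∀ p : ℕ, p.Prime → p ∉ W → ∀ g ∈ G, ∀ g' ∈ G,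
      ((g : ℕ) : ZMod p) = ((g' : ℕ) : ZMod p) → g = g') →
    ∀ Y : Finset ℕ, Y.Nonempty → (∀ y ∈ Y, 0 < y) →
      (∀ p : ℕ, p.Prime → NC Y p → ∀ g ∈ G, ∀ g' ∈ G, p ∣ g → p ∣ g' → g = g') →
      ∃ g : Fin k → ℕ, (∀ i, g i ∈ G) ∧
        ((k : ℝ) - ε) * Real.log (Y.card : ℝ) - K * (1 + (qq W Y : ℝ)) ≤
          Real.log ((((Fintype.piFinset (fun _ : Fin k => Y)).image
            (fun f : Fin k → ℕ => ∏ i, f i)).card : ℕ) : ℝ) +
          Real.log ((((Fintype.piFinset (fun _ : Fin k => Y)).image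
            (fun f : Fin k → ℕ => ∑ i, ((g i : ℕ) : ℤ) * ((f i : ℕ) : ℤ))).card : ℕ) : ℝ) := by
  rcases Nat.eq_zero_or_pos k with hk | hk
  · subst hk
    refine ⟨2, le_rfl, 0, le_rfl, ?_⟩
    intro G _ W _ Y _ _ _
    refine ⟨fun i => i.elim0, fun i => i.elim0, ?_⟩
    have h1 : 0 ≤ Real.log (Y.card : ℝ) := Real.log_natCast_nonneg _
    have h2 : (((0 : ℕ) : ℝ) - ε) * Real.log (Y.card : ℝ) - 0 * (1 + (qq W Y : ℝ)) ≤ 0 := by
      rw [Nat.cast_zero]
      nlinarith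
    refine le_trans h2 ?_
    exact add_nonneg (Real.log_natCast_nonneg _) (Real.log_natCast_nonneg _)
  · have hκ : (1 : ℝ) ≤ (k : ℝ) := by exact_mod_cast hk
    set κ : ℝ := (k : ℝ) with hκd
    set e : ℝ := min ε 1 with he
    have he0 : 0 < e := lt_min hε one_pos
    have he1 : e ≤ 1 := min_le_right _ _
    have hee : e ≤ ε := min_le_left _ _
    have hκ0 : 0 < κ := by linarith
    -- the parameters
    have hη0 : 0 < e / (2 * κ ^ 2) := by positivity
    have hη1 : e / (2 * κ ^ 2) ≤ 1 := by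
      rw [div_le_one (by positivity)]; nlinarith
    have hε0' : 0 < e / (4 * κ) := by positivity
    have hε1' : e / (4 * κ) ≤ 1 := by
      rw [div_le_one (by positivity)]; linarith
    obtain ⟨lam, hlam, hsplit⟩ := split (e / (2 * κ ^ 2)) (e / (4 * κ)) hη0 hη1 hε0' hε1'
    have hε10 : 0 < e / (4 * (κ * (κ + 1))) := by positivity
    have hε11 : e / (4 * (κ * (κ + 1))) ≤ 1 := by
      rw [div_le_one (by positivity)]; nlinarith
    have hlam1 : 0 < e * lam / (2 * κ) := by positivity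
    obtain ⟨m, hm, K, hK, hprop⟩ := propT _ _ hε10 hε11 hlam1
    have hl2 : 0 ≤ Real.log 2 := Real.log_nonneg (by norm_num)
    refine ⟨m, hm, κ * K + κ * Real.log 2 + Real.log 2, by positivity, ?_⟩
    intro G hG W hWG Y hY hYpos hco
    obtain ⟨ρ, hρ0, hρ1, S, hSY, hSne, hP, hWt⟩ := hsplit Y hY hYpos
    obtain ⟨S', hS'S, hS'ne, hS'card, hS'r⟩ :=
      small_branch lam (e / (4 * κ)) ρ hlam hε1' Y S hY hSY hρ1 hWt
    have hS'Y : S' ⊆ Y := hS'S.trans hSY
    have hS'pos : ∀ y ∈ S', 0 < y := fun y hy => hYpos y (hS'Y hy)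
    have hGne : G.Nonempty := Finset.card_pos.1 (by omega)
    have hB0 : 0 ≤ e * lam / (2 * κ) * (rr S' : ℝ) + K * (qq W S' : ℝ) := by positivity
    obtain ⟨g, hg, hgs⟩ := kfold (e / (4 * (κ * (κ + 1))))
      (e * lam / (2 * κ) * (rr S' : ℝ) + K * (qq W S' : ℝ)) hε10.le hB0 G hGne S' hS'ne (by
        intro X hX
        have h1 := hprop G hG W hWG S' hS'ne hS'pos
          (fun p hp hNCp => hco p hp (NC_mono hS'Y hNCp)) X hX
        unfold Bd at h1
        linarith) k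
    refine ⟨g, hg, ?_⟩
    have p1 := kprod (e / (2 * κ ^ 2)) ρ hη0.le hη1 hρ0 Y hY hYpos hP k
    have p2 := le_trans hgs (sums_mono k g hS'ne hS'Y)
    refine le_trans ?_ (add_le_add p1 p2)
    have hq : (qq W S' : ℝ) ≤ (qq W Y : ℝ) := by exact_mod_cast qq_mono W hS'Y
    have hq0 : (0 : ℝ) ≤ (qq W Y : ℝ) := Nat.cast_nonneg _
    generalize Real.log (Y.card : ℝ) = LY at *
    generalize Real.log (S'.card : ℝ) = LS at *
    generalize (qq W S' : ℝ) = q' at *
    generalize (qq W Y : ℝ) = q at *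
    generalize (rr S' : ℝ) = r at *
    generalize Real.log 2 = l2 at *
    -- simplify the coefficients
    have c1 : κ * (1 - κ * (e / (2 * κ ^ 2))) * ρ = (κ - e / 2) * ρ := by field_simp
    have c2 : κ * LS - κ * ((κ + 1) * (e / (4 * (κ * (κ + 1)))) * LS +
        (e * lam / (2 * κ) * r + K * q')) =
        (κ - e / 4) * LS - e * lam / 2 * r - κ * K * q' := by field_simp; ring
    rw [c1, c2]
    have d1 : (κ - e / 4) * ((1 - e / (4 * κ)) * (LY - ρ) - l2) ≤ (κ - e / 4) * LS :=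
      mul_le_mul_of_nonneg_left hS'card (by linarith)
    have d2 : e * lam / 2 * r ≤ e / 2 * (l2 + LY) := by
      have h1 : e * lam / 2 * r ≤ e * lam / 2 * ((l2 + LY) / lam) :=
        mul_le_mul_of_nonneg_left hS'r (by positivity)
      have h2 : e * lam / 2 * ((l2 + LY) / lam) = e / 2 * (l2 + LY) := by field_simp
      linarith
    have d3 : κ * K * q' ≤ κ * K * q := mul_le_mul_of_nonneg_left hq (by positivity)
    have d4 : (κ - e / 4) * ((1 - e / (4 * κ)) * (LY - ρ) - l2) =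
        (κ - e / 4) * (LY - ρ) - (κ - e / 4) * (e / (4 * κ)) * (LY - ρ) - (κ - e / 4) * l2 := by
      ring
    have d5 : (κ - e / 4) * (e / (4 * κ)) * (LY - ρ) ≤ e / 4 * (LY - ρ) := by
      apply mul_le_mul_of_nonneg_right _ (by linarith)
      have h1 : (κ - e / 4) * (e / (4 * κ)) ≤ κ * (e / (4 * κ)) :=
        mul_le_mul_of_nonneg_right (by linarith) (by positivity)
      have h2 : κ * (e / (4 * κ)) = e / 4 := by field_simp
      linarith
    have d6 : 0 ≤ (e / 4) * l2 := by positivity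
    have d7 : (κ - ε) * LY ≤ (κ - e) * LY :=
      mul_le_mul_of_nonneg_right (by linarith) (by linarith)
    have d8 : 0 ≤ (κ * l2 + l2) * q := by positivity
    have d9 : e / 2 * l2 ≤ l2 := by nlinarith
    nlinarith

/-- `k`-fold sums of dilates in terms of the tree rank -/
theorem main2t (k : ℕ) (ε C : ℝ) (hε : 0 < ε) (hC : 0 < C) : ∃ m : ℕ, 2 ≤ m ∧ ∃ K : ℝ, 0 ≤ K ∧
    ∀ G : Finset ℕ, m ≤ G.card →
    ∀ W : Finset ℕ, (∀ p : ℕ, p.Prime → p ∉ W → ∀ g ∈ G, ∀ g' ∈ G,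
      ((g : ℕ) : ZMod p) = ((g' : ℕ) : ZMod p) → g = g') →
    ∀ Y : Finset ℕ, Y.Nonempty → (∀ y ∈ Y, 0 < y) →
      (∀ p : ℕ, p.Prime → NC Y p → ∀ g ∈ G, ∀ g' ∈ G, p ∣ g → p ∣ g' → g = g') →
      ∃ g : Fin k → ℕ, (∀ i, g i ∈ G) ∧
        ((k : ℝ) - ε) * Real.log (Y.card : ℝ) - ε / C * (rr Y : ℝ) - K * (1 + (qq W Y : ℝ)) ≤
          Real.log ((((Fintype.piFinset (fun _ : Fin k => Y)).image
            (fun f : Fin k → ℕ => ∑ i, ((g i : ℕ) : ℤ) * ((f i : ℕ) : ℤ))).card : ℕ) : ℝ) := by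
  rcases Nat.eq_zero_or_pos k with hk | hk
  · subst hk
    refine ⟨2, le_rfl, 0, le_rfl, ?_⟩
    intro G _ W _ Y _ _ _
    refine ⟨fun i => i.elim0, fun i => i.elim0, ?_⟩
    have h1 : 0 ≤ Real.log (Y.card : ℝ) := Real.log_natCast_nonneg _
    have h3 : 0 ≤ ε / C * (rr Y : ℝ) := by positivity
    have h2 : (((0 : ℕ) : ℝ) - ε) * Real.log (Y.card : ℝ) - ε / C * (rr Y : ℝ) -
        0 * (1 + (qq W Y : ℝ)) ≤ 0 := by
      rw [Nat.cast_zero]
      nlinarith
    exact le_trans h2 (Real.log_natCast_nonneg _)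
  · have hκ : (1 : ℝ) ≤ (k : ℝ) := by exact_mod_cast hk
    set κ : ℝ := (k : ℝ) with hκd
    set e : ℝ := min ε 1 with he
    have he0 : 0 < e := lt_min hε one_pos
    have he1 : e ≤ 1 := min_le_right _ _
    have hee : e ≤ ε := min_le_left _ _
    have hκ0 : 0 < κ := by linarith
    have hε10 : 0 < e / (κ * (κ + 1)) := by positivity
    have hε11 : e / (κ * (κ + 1)) ≤ 1 := by
      rw [div_le_one (by positivity)]; nlinarith
    have hlam1 : 0 < ε / (C * κ) := by positivity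
    obtain ⟨m, hm, K, hK, hprop⟩ := propT _ _ hε10 hε11 hlam1
    refine ⟨m, hm, κ * K, by positivity, ?_⟩
    intro G hG W hWG Y hY hYpos hco
    have hGne : G.Nonempty := Finset.card_pos.1 (by omega)
    have hB0 : 0 ≤ ε / (C * κ) * (rr Y : ℝ) + K * (qq W Y : ℝ) := by positivity
    obtain ⟨g, hg, hgs⟩ := kfold (e / (κ * (κ + 1)))
      (ε / (C * κ) * (rr Y : ℝ) + K * (qq W Y : ℝ)) hε10.le hB0 G hGne Y hY (by
        intro X hX
        have h1 := hprop G hG W hWG Y hY hYpos hco X hX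
        unfold Bd at h1
        linarith) k
    refine ⟨g, hg, ?_⟩
    refine le_trans ?_ hgs
    have hL : 0 ≤ Real.log (Y.card : ℝ) := Real.log_natCast_nonneg _
    have hq0 : (0 : ℝ) ≤ (qq W Y : ℝ) := Nat.cast_nonneg _
    generalize Real.log (Y.card : ℝ) = LY at *
    generalize (qq W Y : ℝ) = q at *
    generalize (rr Y : ℝ) = r at *
    have c2 : κ * LY - κ * ((κ + 1) * (e / (κ * (κ + 1))) * LY +
        (ε / (C * κ) * r + K * q)) = (κ - e) * LY - ε / C * r - κ * K * q := by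
      field_simp
      ring
    rw [c2]
    have d2 : (κ - ε) * LY ≤ (κ - e) * LY := mul_le_mul_of_nonneg_right (by linarith) hL
    have d3 : 0 ≤ κ * K := by positivity
    nlinarith

end Pool.Agent.Helper24.MD
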