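import Pool.Agent.Helper24.MD.EndT
import Pool.Agent.Helper99.MD.Dil

set_option autoImplicit false

/-!
# Project MD (MP_120218), sums with an arbitrary first set
-/

namespace Pool.Agent.Helper24.MD

open Finset

/-- `X + Z` -/
def pl (X Z : Finset ℤ) : Finset ℤ := Finset.image₂ (fun x z : ℤ => x + z) X Z

theorem pl_nonempty {X Z : Finset ℤ} (hX : X.Nonempty) (hZ : Z.Nonempty) : (pl X Z).Nonempty :=
  hX.image₂ hZ

theorem pl_log {k : ℕ} (X0 : Finset ℤ) (hX : X0.Nonempty) (g : Fin k → ℕ) {Y : Finset ℕ}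
    (hY : Y.Nonempty) :
    Real.log ((pl X0 (kf_X g Y)).card : ℝ) ≤
      Real.log (X0.card : ℝ) + (k : ℝ) * Real.log (Y.card : ℝ) := by
  have h1 : (0 : ℝ) < ((pl X0 (kf_X g Y)).card : ℝ) := by
    exact_mod_cast Finset.card_pos.2 (pl_nonempty hX (kf_nonempty g hY))
  have h2 : ((pl X0 (kf_X g Y)).card : ℝ) ≤ (X0.card : ℝ) * ((kf_X g Y).card : ℝ) := by
    exact_mod_cast Finset.card_image₂_le _ _ _
  have h3 := Real.log_le_log h1 h2
  have hX' : (0 : ℝ) < (X0.card : ℝ) := by exact_mod_cast Finset.card_pos.2 hX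
  have hk' : (0 : ℝ) < ((kf_X g Y).card : ℝ) := by
    exact_mod_cast Finset.card_pos.2 (kf_nonempty g hY)
  rw [Real.log_mul hX'.ne' hk'.ne'] at h3
  have := kf_log g hY
  linarith

theorem pl_sub {k : ℕ} (X0 : Finset ℤ) (g : Fin k → ℕ) (g0 : ℕ) (Y : Finset ℕ) :
    sm g0 (pl X0 (kf_X g Y)) Y ⊆ pl X0 (kf_X (Fin.cons g0 g : Fin (k + 1) → ℕ) Y) := by
  intro z hz
  unfold sm at hz
  obtain ⟨w, hw, y, hy, rfl⟩ := Finset.mem_image₂.1 hz
  unfold pl at hw
  obtain ⟨x, hx, u, hu, rfl⟩ := Finset.mem_image₂.1 hw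
  unfold pl
  refine Finset.mem_image₂.2 ⟨x, hx, u + (g0 : ℤ) * (y : ℤ), ?_, ?_⟩
  · apply kf_sub g g0 Y
    unfold sm
    exact Finset.mem_image₂.2 ⟨u, hu, y, hy, rfl⟩
  · ring

/-- iteration with an arbitrary first set -/
theorem kfoldX (ε B : ℝ) (hε : 0 ≤ ε) (G : Finset ℕ) (hG : G.Nonempty)
    (Y : Finset ℕ) (hY : Y.Nonempty)
    (h : ∀ X : Finset ℤ, X.Nonempty → av G (fun g => dd g X Y) ≤
      ε * Real.log (X.card : ℝ) + ε * Real.log (Y.card : ℝ) + B)
    (X0 : Finset ℤ) (hX0 : X0.Nonempty) (k : ℕ) :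
    ∃ g : Fin k → ℕ, (∀ i, g i ∈ G) ∧
      (1 - (k : ℝ) * ε) * Real.log (X0.card : ℝ) + (k : ℝ) * Real.log (Y.card : ℝ) -
        (k : ℝ) * (((k : ℝ) + 1) * ε * Real.log (Y.card : ℝ) + B) ≤
        Real.log ((pl X0 (kf_X g Y)).card : ℝ) := by
  have hL : 0 ≤ Real.log (Y.card : ℝ) := Real.log_natCast_nonneg _
  induction k with
  | zero =>
    refine ⟨Fin.elim0, fun i => i.elim0, ?_⟩
    have h1 : X0 ⊆ pl X0 (kf_X (Fin.elim0 : Fin 0 → ℕ) Y) := by
      intro x hx
      unfold pl kf_X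
      refine Finset.mem_image₂.2 ⟨x, hx, 0, ?_, by ring⟩
      refine Finset.mem_image.2 ⟨fun i => i.elim0, ?_, ?_⟩
      · rw [Fintype.mem_piFinset]
        exact fun i => i.elim0
      · simp
    have h2 : Real.log (X0.card : ℝ) ≤
        Real.log ((pl X0 (kf_X (Fin.elim0 : Fin 0 → ℕ) Y)).card : ℝ) := by
      apply Real.log_le_log
      · exact_mod_cast Finset.card_pos.2 hX0
      · exact_mod_cast Finset.card_le_card h1
    simpa using h2
  | succ k ih =>
    obtain ⟨g, hg, hgk⟩ := ih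
    obtain ⟨g0, hg0, hg0k⟩ := kf_min G hG _ _
      (h (pl X0 (kf_X g Y)) (pl_nonempty hX0 (kf_nonempty g hY)))
    refine ⟨Fin.cons g0 g, ?_, ?_⟩
    · intro i
      refine Fin.cases ?_ (fun j => ?_) i
      · simpa using hg0
      · simpa using hg j
    · have hne : (sm g0 (pl X0 (kf_X g Y)) Y).Nonempty := by
        unfold sm
        exact (pl_nonempty hX0 (kf_nonempty g hY)).image₂ hY
      have h1 : Real.log ((sm g0 (pl X0 (kf_X g Y)) Y).card : ℝ) ≤
          Real.log ((pl X0 (kf_X (Fin.cons g0 g : Fin (k + 1) → ℕ) Y)).card : ℝ) := by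
        refine Real.log_le_log (by exact_mod_cast Finset.card_pos.2 hne) ?_
        exact_mod_cast Finset.card_le_card (pl_sub X0 g g0 Y)
      have h2 := pl_log X0 hX0 g hY
      have h3 := mul_le_mul_of_nonneg_left h2 hε
      have h4 : 0 ≤ ((k : ℝ) + 1) * (ε * Real.log (Y.card : ℝ)) :=
        mul_nonneg (by positivity) (mul_nonneg hε hL)
      unfold dd at hg0k
      refine le_trans ?_ h1
      push_cast
      nlinarith [hgk, hg0k, h3, h4]

/-- sums with an arbitrary first set, in terms of the tree rank -/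
theorem main2X (k : ℕ) (ε C : ℝ) (hε : 0 < ε) (hC : 0 < C) : ∃ m : ℕ, 2 ≤ m ∧ ∃ K : ℝ, 0 ≤ K ∧
    ∀ G : Finset ℕ, m ≤ G.card →
    ∀ W : Finset ℕ, (∀ p : ℕ, p.Prime → p ∉ W → ∀ g ∈ G, ∀ g' ∈ G,
      ((g : ℕ) : ZMod p) = ((g' : ℕ) : ZMod p) → g = g') →
    ∀ Y : Finset ℕ, Y.Nonempty → (∀ y ∈ Y, 0 < y) →
      (∀ p : ℕ, p.Prime → NC Y p → ∀ g ∈ G, ∀ g' ∈ G, p ∣ g → p ∣ g' → g = g') →
      ∀ X : Finset ℤ, X.Nonempty →
      ∃ g : Fin k → ℕ, (∀ i, g i ∈ G) ∧
        (1 - ε) * Real.log (X.card : ℝ) + ((k : ℝ) - ε) * Real.log (Y.card : ℝ) -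
          ε / C * (rr Y : ℝ) - K * (1 + (qq W Y : ℝ)) ≤
          Real.log ((pl X (kf_X g Y)).card : ℝ) := by
  rcases Nat.eq_zero_or_pos k with hk | hk
  · subst hk
    obtain ⟨m, hm, K, hK, hprop⟩ := propT 1 1 one_pos le_rfl one_pos
    refine ⟨2, le_rfl, 0, le_rfl, ?_⟩
    intro G _ W _ Y hY _ _ X hX
    obtain ⟨g, hg, h⟩ := kfoldX 0 (Real.log (Y.card : ℝ)) le_rfl {0} ⟨0, by simp⟩ Y hY (by
      intro X' hX'
      unfold av
      rw [Finset.sum_singleton, Finset.card_singleton, Nat.cast_one, div_one]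
      unfold dd
      have h1 : X' ⊆ sm 0 X' Y := by
        intro x hx
        obtain ⟨y, hy⟩ := hY
        unfold sm
        exact Finset.mem_image₂.2 ⟨x, hx, y, hy, by simp⟩
      have h2 : Real.log (X'.card : ℝ) ≤ Real.log ((sm 0 X' Y).card : ℝ) := by
        apply Real.log_le_log
        · exact_mod_cast Finset.card_pos.2 hX'
        · exact_mod_cast Finset.card_le_card h1
      linarith) X hX 0
    refine ⟨g, fun i => i.elim0, le_trans ?_ h⟩
    have h1 : 0 ≤ Real.log (Y.card : ℝ) := Real.log_natCast_nonneg _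
    have h2 : 0 ≤ Real.log (X.card : ℝ) := Real.log_natCast_nonneg _
    have h3 : 0 ≤ ε / C * (rr Y : ℝ) := by positivity
    rw [Nat.cast_zero]
    nlinarith
  · have hκ : (1 : ℝ) ≤ (k : ℝ) := by exact_mod_cast hk
    set κ : ℝ := (k : ℝ) with hκd
    set e : ℝ := min ε 1 with he
    have he0 : 0 < e := lt_min hε one_pos
    have he1 : e ≤ 1 := min_le_right _ _
    have hee : e ≤ ε := min_le_left _ _
    have hκ0 : 0 < κ := by linarith
    have hε10 : 0 < e / (κ * (κ + 1)) := by positivity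
    have hε11 : e / (κ * (κ + 1)) ≤ 1 := by
      rw [div_le_one (by positivity)]; nlinarith
    have hlam1 : 0 < ε / (C * κ) := by positivity
    obtain ⟨m, hm, K, hK, hprop⟩ := propT _ _ hε10 hε11 hlam1
    refine ⟨m, hm, κ * K, by positivity, ?_⟩
    intro G hG W hWG Y hY hYpos hco X hX
    have hGne : G.Nonempty := Finset.card_pos.1 (by omega)
    obtain ⟨g, hg, hgs⟩ := kfoldX (e / (κ * (κ + 1)))
      (ε / (C * κ) * (rr Y : ℝ) + K * (qq W Y : ℝ)) hε10.le G hGne Y hY (by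
        intro X' hX'
        have h1 := hprop G hG W hWG Y hY hYpos hco X' hX'
        unfold Bd at h1
        linarith) X hX k
    refine ⟨g, hg, ?_⟩
    refine le_trans ?_ hgs
    have hL : 0 ≤ Real.log (Y.card : ℝ) := Real.log_natCast_nonneg _
    have hLX : 0 ≤ Real.log (X.card : ℝ) := Real.log_natCast_nonneg _
    have hq0 : (0 : ℝ) ≤ (qq W Y : ℝ) := Nat.cast_nonneg _
    generalize Real.log (Y.card : ℝ) = LY at *
    generalize Real.log (X.card : ℝ) = LX at *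
    generalize (qq W Y : ℝ) = q at *
    generalize (rr Y : ℝ) = r at *
    have c1 : κ * (e / (κ * (κ + 1))) ≤ e := by
      have h1 : κ * (e / (κ * (κ + 1))) = e / (κ + 1) := by field_simp
      rw [h1]
      exact div_le_self he0.le (by linarith)
    have c2 : κ * LY - κ * ((κ + 1) * (e / (κ * (κ + 1))) * LY +
        (ε / (C * κ) * r + K * q)) = (κ - e) * LY - ε / C * r - κ * K * q := by
      field_simp
      ring
    have c3 : (1 - ε) * LX ≤ (1 - κ * (e / (κ * (κ + 1)))) * LX :=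
      mul_le_mul_of_nonneg_right (by linarith) hLX
    have d2 : (κ - ε) * LY ≤ (κ - e) * LY := mul_le_mul_of_nonneg_right (by linarith) hL
    have d3 : 0 ≤ κ * K := by positivity
    nlinarith

/-- a translate of a sum of dilates by at most `M` lies in a long sumset -/
theorem dil_sub (n M : ℕ) (g : Fin n → ℕ) (hg : ∀ i, g i ≤ M) (Y : Finset ℕ) (hY : Y.Nonempty) :
    ∃ τ : ℤ, ∀ z ∈ kf_X g Y, ∃ f : Fin (n * M) → ℕ, (∀ i, f i ∈ Y) ∧
      z + τ = ∑ i, ((f i : ℕ) : ℤ) := by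
  classical
  obtain ⟨y0, hy0⟩ := hY
  refine ⟨((∑ i, (M - g i) * y0 : ℕ) : ℤ), ?_⟩
  intro z hz
  unfold kf_X at hz
  obtain ⟨f, hf, rfl⟩ := Finset.mem_image.1 hz
  rw [Fintype.mem_piFinset] at hf
  refine ⟨fun t => if ((finProdFinEquiv.symm t).2 : ℕ) <
        g (finProdFinEquiv.symm t).1 then f (finProdFinEquiv.symm t).1 else y0, ?_, ?_⟩
  · intro t
    dsimp only
    split_ifs
    · exact hf _
    · exact hy0
  · rw [← Nat.cast_sum]
    have h1 : ∑ t : Fin (n * M), (if ((finProdFinEquiv.symm t).2 : ℕ) <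
        g (finProdFinEquiv.symm t).1 then f (finProdFinEquiv.symm t).1 else y0) =
        ∑ i, g i * f i + ∑ i, (M - g i) * y0 := by
      show ∑ t, (fun x : Fin n × Fin M => if (x.2 : ℕ) < g x.1 then f x.1 else y0)
          (finProdFinEquiv.symm t) = _
      rw [Equiv.sum_comp finProdFinEquiv.symm
          (fun x : Fin n × Fin M => if (x.2 : ℕ) < g x.1 then f x.1 else y0),
          Fintype.sum_prod_type, ← Finset.sum_add_distrib]
      exact Finset.sum_congr rfl fun i _ =>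
        Pool.Agent.Helper99.MD.sum_ite_fin M (g i) (f i) y0 (hg i)
    rw [h1]
    push_cast
    ring

end Pool.Agent.Helper24.MD
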