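import Pool.Agent.Helper99.MD.Main1k
import Pool.Agent.Helper99.MD.Sums

set_option autoImplicit false

/-!
# Project MD (MP_120218): the theorems for finite sets of integers
-/

namespace Pool.Agent.Helper24.MD

open Finset

/-- the primes dividing a difference of two elements of `G` -/
def badW (G : Finset ℕ) : Finset ℕ :=
  (G ×ˢ G).biUnion (fun z => (((z.1 : ℕ) : ℤ) - ((z.2 : ℕ) : ℤ)).natAbs.primeFactors)

theorem badW_spec (G : Finset ℕ) : ∀ p : ℕ, p.Prime → p ∉ badW G → ∀ g ∈ G, ∀ g' ∈ G,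
    ((g : ℕ) : ZMod p) = ((g' : ℕ) : ZMod p) → g = g' := by
  intro p hp hpW g hg g' hg' h
  by_contra hne
  apply hpW
  unfold badW
  rw [Finset.mem_biUnion]
  refine ⟨(g', g), Finset.mk_mem_product hg' hg, ?_⟩
  rw [Nat.mem_primeFactors]
  refine ⟨hp, ?_, ?_⟩
  · have h1 : ((((g : ℕ) : ℤ)) : ZMod p) = ((((g' : ℕ) : ℤ)) : ZMod p) := by
      push_cast
      exact h
    have h2 := (ZMod.intCast_eq_intCast_iff_dvd_sub _ _ p).1 h1
    exact Int.natCast_dvd.1 h2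
  · intro h0
    rw [Int.natAbs_eq_zero, sub_eq_zero] at h0
    apply hne
    have h1 : g' = g := by exact_mod_cast h0
    exact h1.symm

theorem badW_mem (G : Finset ℕ) (p : ℕ) (h : p ∈ badW G) :
    p.Prime ∧ ∃ g ∈ G, ∃ g' ∈ G, g ≠ g' ∧ (p : ℤ) ∣ ((g : ℕ) : ℤ) - ((g' : ℕ) : ℤ) := by
  unfold badW at h
  rw [Finset.mem_biUnion] at h
  obtain ⟨⟨g, g'⟩, hz, hp⟩ := h
  rw [Finset.mem_product] at hz
  rw [Nat.mem_primeFactors] at hp
  refine ⟨hp.1, g, hz.1, g', hz.2, ?_, Int.natCast_dvd.2 hp.2.1⟩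
  rintro rfl
  apply hp.2.2
  simp

/-- the larger half of a set of non-zero integers, in absolute value -/
theorem half0 (A : Finset ℤ) (hA : A.Nonempty) (h0 : (0 : ℤ) ∉ A) :
    ∃ σ : ℤ, (σ = 1 ∨ σ = -1) ∧ ∃ Y : Finset ℕ,
    Y.Nonempty ∧ (∀ y ∈ Y, 0 < y ∧ σ * (y : ℤ) ∈ A) ∧ A.card ≤ 2 * Y.card := by
  classical
  obtain ⟨P, hP⟩ : ∃ P : Finset ℤ, P = A.filter (fun a => 0 < a) := ⟨_, rfl⟩
  obtain ⟨Q, hQ⟩ : ∃ Q : Finset ℤ, Q = A.filter (fun a => a < 0) := ⟨_, rfl⟩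
  have hsum : A.card ≤ P.card + Q.card := by
    have h1 : A ⊆ P ∪ Q := by
      intro a ha
      rw [Finset.mem_union, hP, hQ, Finset.mem_filter, Finset.mem_filter]
      rcases lt_trichotomy a 0 with h | h | h
      · exact Or.inr ⟨ha, h⟩
      · exact absurd (h ▸ ha) h0
      · exact Or.inl ⟨ha, h⟩
    exact (Finset.card_le_card h1).trans (Finset.card_union_le _ _)
  have hA0 := Finset.card_pos.2 hA
  by_cases hPQ : Q.card ≤ P.card
  · refine ⟨1, Or.inl rfl, P.image Int.natAbs, ?_, ?_, ?_⟩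
    · refine Finset.Nonempty.image (Finset.card_pos.1 (by omega)) _
    · intro y hy
      obtain ⟨a, ha, rfl⟩ := Finset.mem_image.1 hy
      rw [hP, Finset.mem_filter] at ha
      refine ⟨Int.natAbs_pos.2 ha.2.ne', ?_⟩
      rw [one_mul, Int.natAbs_of_nonneg ha.2.le]
      exact ha.1
    · rw [Finset.card_image_of_injOn]
      · omega
      · intro a ha b hb hab
        rw [Finset.mem_coe, hP, Finset.mem_filter] at ha hb
        have h1 : (a.natAbs : ℤ) = b.natAbs := by exact_mod_cast hab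
        rwa [Int.natAbs_of_nonneg ha.2.le, Int.natAbs_of_nonneg hb.2.le] at h1
  · refine ⟨-1, Or.inr rfl, Q.image Int.natAbs, ?_, ?_, ?_⟩
    · refine Finset.Nonempty.image (Finset.card_pos.1 (by omega)) _
    · intro y hy
      obtain ⟨a, ha, rfl⟩ := Finset.mem_image.1 hy
      rw [hQ, Finset.mem_filter] at ha
      refine ⟨Int.natAbs_pos.2 ha.2.ne, ?_⟩
      have h1 : ((a.natAbs : ℕ) : ℤ) = -a := by
        rw [Int.natCast_natAbs, abs_of_neg ha.2]
      rw [h1]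
      simpa using ha.1
    · rw [Finset.card_image_of_injOn]
      · omega
      · intro a ha b hb hab
        rw [Finset.mem_coe, hQ, Finset.mem_filter] at ha hb
        have h1 : (a.natAbs : ℤ) = b.natAbs := by exact_mod_cast hab
        rw [Int.natCast_natAbs, Int.natCast_natAbs, abs_of_neg ha.2, abs_of_neg hb.2] at h1
        linarith

theorem sgn_inj {σ : ℤ} (hσ : σ = 1 ∨ σ = -1) {a b : ℤ} (h : σ * a = σ * b) : a = b := by
  rcases hσ with rfl | rfl
  · simpa using h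
  · simpa using h

/-- the product sets -/
theorem prod_le (k : ℕ) (σ : ℤ) (hσ : σ = 1 ∨ σ = -1) (B : Finset ℤ) (Y : Finset ℕ)
    (hY : ∀ y ∈ Y, σ * (y : ℤ) ∈ B) :
    ((Fintype.piFinset (fun _ : Fin k => Y)).image (fun f : Fin k → ℕ => ∏ i, f i)).card ≤
    ((Fintype.piFinset (fun _ : Fin k => B)).image (fun f : Fin k → ℤ => ∏ i, f i)).card := by
  have hσ0 : σ ≠ 0 := by rcases hσ with rfl | rfl <;> norm_num
  refine Finset.card_le_card_of_injOn (fun z : ℕ => σ ^ k * (z : ℤ)) ?_ ?_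
  · intro z hz
    rw [Finset.mem_coe] at hz ⊢
    obtain ⟨f, hf, rfl⟩ := Finset.mem_image.1 hz
    rw [Fintype.mem_piFinset] at hf
    refine Finset.mem_image.2 ⟨fun i => σ * (f i : ℤ), ?_, ?_⟩
    · rw [Fintype.mem_piFinset]
      exact fun i => hY _ (hf i)
    · push_cast
      rw [Finset.prod_mul_distrib, Finset.prod_const, Finset.card_univ, Fintype.card_fin]
  · intro a _ b _ hab
    have h3 := mul_left_cancel₀ (pow_ne_zero k hσ0) hab
    exact_mod_cast h3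

/-- the sums -/
theorem sum_le (k : ℕ) (σ : ℤ) (hσ : σ = 1 ∨ σ = -1) (A B : Finset ℤ) (Y : Finset ℕ)
    (hY : ∀ y ∈ Y, σ * (y : ℤ) ∈ B) (g : Fin k → ℕ)
    (hg : ∀ i, ∃ t : ℤ, ∀ b ∈ B, ((g i : ℕ) : ℤ) * b + t ∈ A) :
    ((Fintype.piFinset (fun _ : Fin k => Y)).image
      (fun f : Fin k → ℕ => ∑ i, ((g i : ℕ) : ℤ) * ((f i : ℕ) : ℤ))).card ≤
    ((Fintype.piFinset (fun _ : Fin k => A)).image (fun f : Fin k → ℤ => ∑ i, f i)).card := by
  choose t ht using hg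
  refine Finset.card_le_card_of_injOn (fun z : ℤ => σ * z + ∑ i, t i) ?_ ?_
  · intro z hz
    rw [Finset.mem_coe] at hz ⊢
    obtain ⟨f, hf, rfl⟩ := Finset.mem_image.1 hz
    rw [Fintype.mem_piFinset] at hf
    refine Finset.mem_image.2 ⟨fun i => ((g i : ℕ) : ℤ) * (σ * (f i : ℤ)) + t i, ?_, ?_⟩
    · rw [Fintype.mem_piFinset]
      exact fun i => ht i _ (hY _ (hf i))
    · show _ = σ * (∑ i, ((g i : ℕ) : ℤ) * ((f i : ℕ) : ℤ)) + ∑ i, t i
      rw [Finset.sum_add_distrib, Finset.mul_sum]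
      congr 1
      exact Finset.sum_congr rfl fun i _ => by ring
  · intro a _ b _ hab
    exact sgn_inj hσ (add_right_cancel hab)

/-- non-constant valuations -/
theorem NC_int (σ : ℤ) (hσ : σ = 1 ∨ σ = -1) (B : Finset ℤ) (Y : Finset ℕ)
    (hY : ∀ y ∈ Y, 0 < y ∧ σ * (y : ℤ) ∈ B) (p : ℕ) (hp : p.Prime) (h : NC Y p) :
    ∃ b ∈ B, ∃ b' ∈ B, padicValInt p b ≠ padicValInt p b' := by
  obtain ⟨a, ha, b, hb, hab⟩ := h
  refine ⟨_, (hY a ha).2, _, (hY b hb).2, ?_⟩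
  have h1 : ∀ y : ℕ, padicValInt p (σ * (y : ℤ)) = y.factorization p := by
    intro y
    unfold padicValInt
    rw [Int.natAbs_mul, Int.natAbs_natCast, Nat.factorization_def _ hp]
    rcases hσ with rfl | rfl <;> simp
  rw [h1, h1]
  exact hab

/-- the bad primes -/
theorem qq_le (σ : ℤ) (hσ : σ = 1 ∨ σ = -1) (B : Finset ℤ) (Y : Finset ℕ)
    (hY : ∀ y ∈ Y, 0 < y ∧ σ * (y : ℤ) ∈ B) (G : Finset ℕ) :
    qq (badW G) Y ≤ {p : ℕ | p.Prime ∧
      (∃ b ∈ B, ∃ b' ∈ B, padicValInt p b ≠ padicValInt p b') ∧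
      ∃ g ∈ G, ∃ g' ∈ G, g ≠ g' ∧ (p : ℤ) ∣ ((g : ℕ) : ℤ) - ((g' : ℕ) : ℤ)}.ncard := by
  classical
  unfold qq
  rw [← Set.ncard_coe_finset]
  refine Set.ncard_le_ncard ?_ ?_
  · intro p hp
    rw [Finset.mem_coe, Finset.mem_filter] at hp
    obtain ⟨hpp, hd⟩ := badW_mem G p hp.1
    exact ⟨hpp, NC_int σ hσ B Y hY p hpp hp.2, hd⟩
  · refine Set.Finite.subset (Finset.finite_toSet (badW G)) ?_
    rintro p ⟨hpp, -, ⟨g, hg, g', hg', hne, hd⟩⟩
    rw [Finset.mem_coe]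
    unfold badW
    rw [Finset.mem_biUnion]
    refine ⟨(g, g'), Finset.mk_mem_product hg hg', ?_⟩
    rw [Nat.mem_primeFactors]
    refine ⟨hpp, Int.natCast_dvd.1 hd, ?_⟩
    intro h0
    rw [Int.natAbs_eq_zero, sub_eq_zero] at h0
    exact hne (by exact_mod_cast h0)

/-- the tree rank -/
theorem rank_le (σ : ℤ) (hσ : σ = 1 ∨ σ = -1) (B : Finset ℤ) (Y : Finset ℕ)
    (hY : ∀ y ∈ Y, 0 < y ∧ σ * (y : ℤ) ∈ B) (r : ℕ) (x0 : ℚ) (x : Fin r → ℚ)
    (h : ∀ b ∈ B, b ≠ 0 → ∃ e : Fin r → ℤ, |(b : ℚ)| = x0 * ∏ i, x i ^ e i) : rr Y ≤ r := by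
  refine Pool.Agent.Helper99.MD.rr_le_rank Y (fun y hy => (hY y hy).1) r x0 x fun y hy => ?_
  have hy0 : (0 : ℚ) < (y : ℚ) := by exact_mod_cast (hY y hy).1
  have hy1 := (hY y hy).1
  obtain ⟨e, he⟩ := h _ (hY y hy).2 (by
    rcases hσ with rfl | rfl
    · simpa using hy1.ne'
    · simpa using hy1.ne')
  refine ⟨e, ?_⟩
  rw [← he]
  push_cast
  rw [abs_mul, abs_of_pos hy0]
  rcases hσ with rfl | rfl <;> simp

theorem rpow_le_of_log {N c S b : ℝ} (hN : 0 < N) (hc : 0 < c) (hS : 0 < S)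
    (h : Real.log c + b * Real.log N ≤ Real.log S) : c * N ^ b ≤ S := by
  rw [← Real.log_le_log_iff (by positivity) hS, Real.log_mul hc.ne'
    (Real.rpow_pos_of_pos hN _).ne', Real.log_rpow hN]
  exact h

/-- comparison of the logarithms of a set and of its half -/
theorem half_log (x N Y l D : ℝ) (h1 : N ≤ l + Y) (h2 : Y ≤ N) (hl : 0 ≤ l)
    (hD : |x| * l ≤ D) : x * N - D ≤ x * Y := by
  rcases le_total 0 x with hx | hx
  · rw [abs_of_nonneg hx] at hD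
    have := mul_le_mul_of_nonneg_left h1 hx
    linarith
  · have h3 := mul_le_mul_of_nonpos_left h2 hx
    have h4 : 0 ≤ |x| * l := by positivity
    linarith

/-- **Sets with many dilates**, (1) and (2) -/
theorem dilates (k : ℕ) (hk : 1 ≤ k) (ε C : ℝ) (hε : 0 < ε) : ∃ m : ℕ, ∃ c : ℝ, 0 < c ∧
    ∀ B : Finset ℤ, B.Nonempty → (0 : ℤ) ∉ B → ∀ G : Finset ℕ, m ≤ G.card →
      (∀ p : ℕ, p.Prime → (∃ b ∈ B, ∃ b' ∈ B, padicValInt p b ≠ padicValInt p b') →
        ∀ g ∈ G, ∀ g' ∈ G, p ∣ g → p ∣ g' → g = g') →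
      (({p : ℕ | p.Prime ∧ (∃ b ∈ B, ∃ b' ∈ B, padicValInt p b ≠ padicValInt p b') ∧
        ∃ g ∈ G, ∃ g' ∈ G, g ≠ g' ∧ (p : ℤ) ∣ ((g : ℕ) : ℤ) - ((g' : ℕ) : ℤ)}.ncard : ℕ) : ℝ) ≤
        c * Real.log B.card →
      ∀ A : Finset ℤ, (∀ g ∈ G, ∃ t : ℤ, ∀ b ∈ B, ((g : ℕ) : ℤ) * b + t ∈ A) →
        c * (B.card : ℝ) ^ ((k : ℝ) + 1 - ε) ≤
          (((Fintype.piFinset (fun _ : Fin k => A)).image
            (fun f : Fin k → ℤ => ∑ i, f i)).card : ℝ) *
          (((Fintype.piFinset (fun _ : Fin k => B)).image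
            (fun f : Fin k → ℤ => ∏ i, f i)).card : ℝ) ∧
        ∀ (r : ℕ) (x0 : ℚ) (x : Fin r → ℚ), (r : ℝ) ≤ C * Real.log B.card →
          (∀ b ∈ B, ∃ e : Fin r → ℤ, |(b : ℚ)| = x0 * ∏ i, x i ^ e i) →
          c * (B.card : ℝ) ^ ((k : ℝ) - ε) ≤
            (((Fintype.piFinset (fun _ : Fin k => A)).image
              (fun f : Fin k → ℤ => ∑ i, f i)).card : ℝ) := by
  classical
  obtain ⟨m1, hm1, K1, hK1, h1⟩ := Pool.Agent.Helper99.MD.main1k k hk (ε / 4) (by positivity)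
  obtain ⟨m2, hm2, K2, hK2, h2⟩ := main2t k (ε / 4) (max C 1)
    (by positivity) (lt_of_lt_of_le one_pos (le_max_right _ _))
  obtain ⟨D, hD⟩ : ∃ D : ℝ, D = |(k : ℝ) + 1 - ε / 4| * Real.log 2 +
      |(k : ℝ) - ε / 4| * Real.log 2 := ⟨_, rfl⟩
  have hl2 : 0 ≤ Real.log 2 := Real.log_nonneg (by norm_num)
  have hD0 : 0 ≤ D := by rw [hD]; positivity
  obtain ⟨c, hc, hc1, hc2⟩ : ∃ c : ℝ, 0 < c ∧ (K1 + K2) * c ≤ ε / 4 ∧
      Real.log c ≤ -(K1 + K2 + D) := by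
    refine ⟨min (ε / (4 * (K1 + K2 + 1))) (Real.exp (-(K1 + K2 + D))), by positivity, ?_, ?_⟩
    · have h3 : min (ε / (4 * (K1 + K2 + 1))) (Real.exp (-(K1 + K2 + D))) ≤
          ε / (4 * (K1 + K2 + 1)) := min_le_left _ _
      have h4 : (K1 + K2) * (ε / (4 * (K1 + K2 + 1))) ≤ ε / 4 := by
        rw [mul_div_assoc', div_le_div_iff₀ (by positivity) (by norm_num)]
        nlinarith
      exact (mul_le_mul_of_nonneg_left h3 (by positivity)).trans h4
    · have h3 : min (ε / (4 * (K1 + K2 + 1))) (Real.exp (-(K1 + K2 + D))) ≤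
          Real.exp (-(K1 + K2 + D)) := min_le_right _ _
      have h4 := Real.log_le_log (by positivity) h3
      rwa [Real.log_exp] at h4
  refine ⟨max m1 m2, c, hc, ?_⟩
  intro B hB h0 G hG hco hbad A hA
  have hG1 : m1 ≤ G.card := (le_max_left _ _).trans hG
  have hG2 : m2 ≤ G.card := (le_max_right _ _).trans hG
  obtain ⟨σ, hσ, Y, hY, hYB, hcard⟩ := half0 B hB h0
  have hYpos : ∀ y ∈ Y, 0 < y := fun y hy => (hYB y hy).1
  have hN : (0 : ℝ) < (B.card : ℝ) := by exact_mod_cast Finset.card_pos.2 hB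
  have hYc : (0 : ℝ) < (Y.card : ℝ) := by exact_mod_cast Finset.card_pos.2 hY
  have hcoY : ∀ p : ℕ, p.Prime → NC Y p → ∀ g ∈ G, ∀ g' ∈ G, p ∣ g → p ∣ g' → g = g' :=
    fun p hp hNCp => hco p hp (NC_int σ hσ B Y hYB p hp hNCp)
  have hlog1 : Real.log (B.card : ℝ) ≤ Real.log 2 + Real.log (Y.card : ℝ) := by
    rw [← Real.log_mul (by norm_num) hYc.ne']
    exact Real.log_le_log hN (by exact_mod_cast hcard)
  have hYB' : Y.card ≤ B.card := by
    refine Finset.card_le_card_of_injOn (fun y : ℕ => σ * (y : ℤ)) (fun y hy => (hYB y hy).2) ?_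
    intro a _ b _ hab
    have h3 := sgn_inj hσ hab
    exact_mod_cast h3
  have hlog2 : Real.log (Y.card : ℝ) ≤ Real.log (B.card : ℝ) :=
    Real.log_le_log hYc (by exact_mod_cast hYB')
  have hL : 0 ≤ Real.log (B.card : ℝ) := Real.log_natCast_nonneg _
  have hqq : (qq (badW G) Y : ℝ) ≤ c * Real.log (B.card : ℝ) := by
    refine le_trans ?_ hbad
    exact_mod_cast qq_le σ hσ B Y hYB G
  have hD1 : |(k : ℝ) + 1 - ε / 4| * Real.log 2 ≤ D := by
    rw [hD]
    have : 0 ≤ |(k : ℝ) - ε / 4| * Real.log 2 := by positivity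
    linarith
  have hD2 : |(k : ℝ) - ε / 4| * Real.log 2 ≤ D := by
    rw [hD]
    have : 0 ≤ |(k : ℝ) + 1 - ε / 4| * Real.log 2 := by positivity
    linarith
  have hhalf1 := half_log ((k : ℝ) + 1 - ε / 4) (Real.log (B.card : ℝ)) (Real.log (Y.card : ℝ))
    (Real.log 2) D hlog1 hlog2 hl2 hD1
  have hhalf := half_log ((k : ℝ) - ε / 4) (Real.log (B.card : ℝ)) (Real.log (Y.card : ℝ))
    (Real.log 2) D hlog1 hlog2 hl2 hD2
  have hGA : ∀ g : Fin k → ℕ, (∀ i, g i ∈ G) →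
      ∀ i, ∃ t : ℤ, ∀ b ∈ B, ((g i : ℕ) : ℤ) * b + t ∈ A := fun g hg i => hA _ (hg i)
  have hGne : G.Nonempty := Finset.card_pos.1 (by omega)
  have hAne : A.Nonempty := by
    obtain ⟨g, hg⟩ := hGne
    obtain ⟨t, ht⟩ := hA g hg
    obtain ⟨b, hb⟩ := hB
    exact ⟨_, ht b hb⟩
  have hSpos : (0 : ℝ) < (((Fintype.piFinset (fun _ : Fin k => A)).image
      (fun f : Fin k → ℤ => ∑ i, f i)).card : ℝ) := by
    exact_mod_cast Finset.card_pos.2 ((Fintype.piFinset_nonempty.2 fun _ => hAne).image _)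
  have hPpos : (0 : ℝ) < (((Fintype.piFinset (fun _ : Fin k => B)).image
      (fun f : Fin k → ℤ => ∏ i, f i)).card : ℝ) := by
    exact_mod_cast Finset.card_pos.2 ((Fintype.piFinset_nonempty.2 fun _ => hB).image _)
  have hYS : ∀ g : Fin k → ℕ, (0 : ℝ) < (((Fintype.piFinset (fun _ : Fin k => Y)).image
      (fun f : Fin k → ℕ => ∑ i, ((g i : ℕ) : ℤ) * ((f i : ℕ) : ℤ))).card : ℝ) := by
    intro g
    exact_mod_cast Finset.card_pos.2 ((Fintype.piFinset_nonempty.2 fun _ => hY).image _)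
  have hYP : (0 : ℝ) < (((Fintype.piFinset (fun _ : Fin k => Y)).image
      (fun f : Fin k → ℕ => ∏ i, f i)).card : ℝ) := by
    exact_mod_cast Finset.card_pos.2 ((Fintype.piFinset_nonempty.2 fun _ => hY).image _)
  have hq1 : K1 * (qq (badW G) Y : ℝ) + K2 * (qq (badW G) Y : ℝ) ≤
      ε / 4 * Real.log (B.card : ℝ) := by
    have h3 : (K1 + K2) * (qq (badW G) Y : ℝ) ≤ (K1 + K2) * (c * Real.log (B.card : ℝ)) :=
      mul_le_mul_of_nonneg_left hqq (by positivity)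
    have h4 : (K1 + K2) * c * Real.log (B.card : ℝ) ≤ ε / 4 * Real.log (B.card : ℝ) :=
      mul_le_mul_of_nonneg_right hc1 hL
    linarith
  have hq0 : (0 : ℝ) ≤ (qq (badW G) Y : ℝ) := Nat.cast_nonneg _
  have hq2 : 0 ≤ K1 * (qq (badW G) Y : ℝ) := by positivity
  have hq3 : 0 ≤ K2 * (qq (badW G) Y : ℝ) := by positivity
  refine ⟨?_, ?_⟩
  · obtain ⟨g, hg, h3⟩ := h1 G hG1 (badW G) (badW_spec G) Y hY hYpos hcoY
    have h4 : Real.log (((Fintype.piFinset (fun _ : Fin k => Y)).image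
        (fun f : Fin k → ℕ => ∑ i, ((g i : ℕ) : ℤ) * ((f i : ℕ) : ℤ))).card : ℝ) ≤
        Real.log (((Fintype.piFinset (fun _ : Fin k => A)).image
        (fun f : Fin k → ℤ => ∑ i, f i)).card : ℝ) := by
      refine Real.log_le_log (hYS g) ?_
      exact_mod_cast sum_le k σ hσ A B Y (fun y hy => (hYB y hy).2) g (hGA g hg)
    have h5 : Real.log (((Fintype.piFinset (fun _ : Fin k => Y)).image
        (fun f : Fin k → ℕ => ∏ i, f i)).card : ℝ) ≤
        Real.log (((Fintype.piFinset (fun _ : Fin k => B)).image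
        (fun f : Fin k → ℤ => ∏ i, f i)).card : ℝ) := by
      refine Real.log_le_log hYP ?_
      exact_mod_cast prod_le k σ hσ B Y (fun y hy => (hYB y hy).2)
    refine rpow_le_of_log hN hc (mul_pos hSpos hPpos) ?_
    rw [Real.log_mul hSpos.ne' hPpos.ne']
    nlinarith
  · intro r x0 x hr hx
    obtain ⟨g, hg, h3⟩ := h2 G hG2 (badW G) (badW_spec G) Y hY hYpos hcoY
    have h4 : Real.log (((Fintype.piFinset (fun _ : Fin k => Y)).image
        (fun f : Fin k → ℕ => ∑ i, ((g i : ℕ) : ℤ) * ((f i : ℕ) : ℤ))).card : ℝ) ≤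
        Real.log (((Fintype.piFinset (fun _ : Fin k => A)).image
        (fun f : Fin k → ℤ => ∑ i, f i)).card : ℝ) := by
      refine Real.log_le_log (hYS g) ?_
      exact_mod_cast sum_le k σ hσ A B Y (fun y hy => (hYB y hy).2) g (hGA g hg)
    have h6 : (rr Y : ℝ) ≤ max C 1 * Real.log (B.card : ℝ) := by
      have h7 : (rr Y : ℝ) ≤ (r : ℝ) := by
        exact_mod_cast rank_le σ hσ B Y hYB r x0 x (fun b hb _ => hx b hb)
      have h8 : C * Real.log (B.card : ℝ) ≤ max C 1 * Real.log (B.card : ℝ) :=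
        mul_le_mul_of_nonneg_right (le_max_left _ _) hL
      linarith
    have hmax : 0 < max C 1 := lt_of_lt_of_le one_pos (le_max_right _ _)
    have h7 : ε / 4 / max C 1 * (rr Y : ℝ) ≤ ε / 4 * Real.log (B.card : ℝ) := by
      rw [div_mul_eq_mul_div, div_le_iff₀ hmax]
      have := mul_le_mul_of_nonneg_left h6 (by positivity : (0 : ℝ) ≤ ε / 4)
      linarith
    refine rpow_le_of_log hN hc hSpos ?_
    nlinarith

/-- **Sums alone for every set of rank at most `C log |B|`**, (3) -/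
theorem everyset (k : ℕ) (C : ℝ) : ∃ K : ℕ, ∃ c : ℝ, 0 < c ∧
    ∀ B : Finset ℤ, B.Nonempty → ∀ (r : ℕ) (x0 : ℚ) (x : Fin r → ℚ),
      (r : ℝ) ≤ C * Real.log B.card →
      (∀ b ∈ B, b ≠ 0 → ∃ e : Fin r → ℤ, |(b : ℚ)| = x0 * ∏ i, x i ^ e i) →
      c * (B.card : ℝ) ^ k ≤
        (((Fintype.piFinset (fun _ : Fin K => B)).image (fun f : Fin K → ℤ => ∑ i, f i)).card : ℝ) := by
  classical
  obtain ⟨K, D, hD, hnat⟩ := Pool.Agent.Helper99.MD.natR (max C 1) (k : ℝ)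
    (lt_of_lt_of_le one_pos (le_max_right _ _))
  have hl4 : 0 ≤ Real.log 4 := Real.log_nonneg (by norm_num)
  refine ⟨K, Real.exp (-((k : ℝ) * Real.log 4 + D)), Real.exp_pos _, ?_⟩
  intro A hA r x0 x hr h
  have hone : (1 : ℝ) ≤ (((Fintype.piFinset (fun _ : Fin K => A)).image
      (fun f : Fin K → ℤ => ∑ i, f i)).card : ℝ) := by
    exact_mod_cast Finset.card_pos.2 ((Fintype.piFinset_nonempty.2 fun _ => hA).image _)
  rw [← Real.rpow_natCast]
  by_cases h2 : A.card < 2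
  · have h1 : A.card = 1 := by
      have := Finset.card_pos.2 hA
      omega
    rw [h1, Nat.cast_one, Real.one_rpow, mul_one]
    refine le_trans ?_ hone
    rw [Real.exp_le_one_iff]
    have : 0 ≤ (k : ℝ) * Real.log 4 := by positivity
    linarith
  push Not at h2
  obtain ⟨σ, hσ, Y, hY, hYA, hcard⟩ := Pool.Agent.Helper99.MD.half A h2
  have hYpos : ∀ y ∈ Y, 0 < y := fun y hy => (hYA y hy).1
  have hN : (0 : ℝ) < (A.card : ℝ) := by exact_mod_cast Finset.card_pos.2 hA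
  have hYc : (0 : ℝ) < (Y.card : ℝ) := by exact_mod_cast Finset.card_pos.2 hY
  have hlog1 : Real.log (A.card : ℝ) ≤ Real.log 4 + Real.log (Y.card : ℝ) := by
    rw [← Real.log_mul (by norm_num) hYc.ne']
    exact Real.log_le_log hN (by exact_mod_cast hcard)
  have hL : 0 ≤ Real.log (A.card : ℝ) := Real.log_natCast_nonneg _
  have hmax : 0 ≤ max C 1 := le_trans zero_le_one (le_max_right _ _)
  have hmain := hnat Y hY hYpos (by
    have h3 : (rr Y : ℝ) ≤ (r : ℝ) := by exact_mod_cast rank_le σ hσ A Y hYA r x0 x h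
    have h4 : max C 1 * Real.log (A.card : ℝ) ≤
        max C 1 * (Real.log 4 + Real.log (Y.card : ℝ)) :=
      mul_le_mul_of_nonneg_left hlog1 hmax
    have h5 : C * Real.log (A.card : ℝ) ≤ max C 1 * Real.log (A.card : ℝ) :=
      mul_le_mul_of_nonneg_right (le_max_left _ _) hL
    linarith)
  have hsum : ((Fintype.piFinset (fun _ : Fin K => Y)).image
      (fun f : Fin K → ℕ => ∑ i, f i)).card ≤
      ((Fintype.piFinset (fun _ : Fin K => A)).image (fun f : Fin K → ℤ => ∑ i, f i)).card := by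
    refine Finset.card_le_card_of_injOn (fun z : ℕ => σ * (z : ℤ)) ?_ ?_
    · intro z hz
      rw [Finset.mem_coe] at hz ⊢
      obtain ⟨f, hf, rfl⟩ := Finset.mem_image.1 hz
      rw [Fintype.mem_piFinset] at hf
      refine Finset.mem_image.2 ⟨fun i => σ * (f i : ℤ), ?_, ?_⟩
      · rw [Fintype.mem_piFinset]
        exact fun i => (hYA _ (hf i)).2
      · push_cast
        rw [Finset.mul_sum]
    · intro a _ b _ hab
      have h3 := sgn_inj hσ hab
      exact_mod_cast h3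
  have hsum' : Real.log ((((Fintype.piFinset (fun _ : Fin K => Y)).image
      (fun f : Fin K → ℕ => ∑ i, f i)).card : ℕ) : ℝ) ≤
      Real.log (((Fintype.piFinset (fun _ : Fin K => A)).image
        (fun f : Fin K → ℤ => ∑ i, f i)).card : ℝ) := by
    refine Real.log_le_log ?_ (by exact_mod_cast hsum)
    exact_mod_cast Finset.card_pos.2 ((Fintype.piFinset_nonempty.2 fun _ => hY).image _)
  have hB : (k : ℝ) * Real.log (A.card : ℝ) ≤ (k : ℝ) * Real.log 4 +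
      (k : ℝ) * Real.log (Y.card : ℝ) := by
    have := mul_le_mul_of_nonneg_left hlog1 (Nat.cast_nonneg (α := ℝ) k)
    linarith
  refine rpow_le_of_log hN (Real.exp_pos _) (by linarith) ?_
  rw [Real.log_exp]
  linarith

end Pool.Agent.Helper24.MD
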