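import Pool.Agent.Helper24.MD.EveryX
import Pool.Agent.Helper24.MD.Final

set_option autoImplicit false

/-!
# Project MD (MP_120218): sums with an arbitrary first set, for finite sets of integers
-/

namespace Pool.Agent.Helper24.MD

open Finset

theorem card_sgn (σ : ℤ) (hσ : σ = 1 ∨ σ = -1) (X : Finset ℤ) :
    (X.image (fun x : ℤ => σ * x)).card = X.card :=
  Finset.card_image_of_injOn fun _ _ _ _ h => sgn_inj hσ h

theorem sgn_sgn {σ : ℤ} (hσ : σ = 1 ∨ σ = -1) (x : ℤ) : σ * (σ * x) = x := by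
  rcases hσ with rfl | rfl <;> simp

/-- `σ X + sum of dilates of Y` against `X + kA` -/
theorem sum_leX (k : ℕ) (σ : ℤ) (hσ : σ = 1 ∨ σ = -1) (A B : Finset ℤ) (Y : Finset ℕ)
    (hY : ∀ y ∈ Y, σ * (y : ℤ) ∈ B) (g : Fin k → ℕ)
    (hg : ∀ i, ∃ t : ℤ, ∀ b ∈ B, ((g i : ℕ) : ℤ) * b + t ∈ A) (X : Finset ℤ) :
    (pl (X.image (fun x : ℤ => σ * x)) (kf_X g Y)).card ≤
    ((X ×ˢ Fintype.piFinset (fun _ : Fin k => A)).image
      (fun z : ℤ × (Fin k → ℤ) => z.1 + ∑ i, z.2 i)).card := by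
  choose t ht using hg
  refine Finset.card_le_card_of_injOn (fun z : ℤ => σ * z + ∑ i, t i) ?_ ?_
  · intro z hz
    rw [Finset.mem_coe] at hz ⊢
    unfold pl kf_X at hz
    obtain ⟨x', hx', u, hu, rfl⟩ := Finset.mem_image₂.1 hz
    obtain ⟨x, hx, rfl⟩ := Finset.mem_image.1 hx'
    obtain ⟨f, hf, rfl⟩ := Finset.mem_image.1 hu
    rw [Fintype.mem_piFinset] at hf
    refine Finset.mem_image.2 ⟨(x, fun i => ((g i : ℕ) : ℤ) * (σ * (f i : ℤ)) + t i), ?_, ?_⟩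
    · rw [Finset.mem_product, Fintype.mem_piFinset]
      exact ⟨hx, fun i => ht i _ (hY _ (hf i))⟩
    · show x + ∑ i, (((g i : ℕ) : ℤ) * (σ * (f i : ℤ)) + t i) =
        σ * (σ * x + ∑ i, ((g i : ℕ) : ℤ) * ((f i : ℕ) : ℤ)) + ∑ i, t i
      rw [Finset.sum_add_distrib, mul_add, sgn_sgn hσ, Finset.mul_sum]
      have h1 : ∑ i, ((g i : ℕ) : ℤ) * (σ * (f i : ℤ)) =
          ∑ i, σ * (((g i : ℕ) : ℤ) * ((f i : ℕ) : ℤ)) :=
        Finset.sum_congr rfl fun i _ => by ring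
      rw [h1]
      ring
  · intro a _ b _ hab
    exact sgn_inj hσ (add_right_cancel hab)

/-- `σ X + sum of dilates of Y` against a long sumset -/
theorem sum_leK (n M : ℕ) (σ : ℤ) (hσ : σ = 1 ∨ σ = -1) (B : Finset ℤ) (Y : Finset ℕ)
    (hYne : Y.Nonempty) (hY : ∀ y ∈ Y, σ * (y : ℤ) ∈ B) (g : Fin n → ℕ) (hg : ∀ i, g i ≤ M)
    (X : Finset ℤ) :
    (pl (X.image (fun x : ℤ => σ * x)) (kf_X g Y)).card ≤
    ((X ×ˢ Fintype.piFinset (fun _ : Fin (n * M) => B)).image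
      (fun z : ℤ × (Fin (n * M) → ℤ) => z.1 + ∑ i, z.2 i)).card := by
  obtain ⟨τ, hτ⟩ := dil_sub n M g hg Y hYne
  refine Finset.card_le_card_of_injOn (fun z : ℤ => σ * (z + τ)) ?_ ?_
  · intro z hz
    rw [Finset.mem_coe] at hz ⊢
    unfold pl at hz
    obtain ⟨x', hx', u, hu, rfl⟩ := Finset.mem_image₂.1 hz
    obtain ⟨x, hx, rfl⟩ := Finset.mem_image.1 hx'
    obtain ⟨f, hf, hfu⟩ := hτ u hu
    refine Finset.mem_image.2 ⟨(x, fun i => σ * (f i : ℤ)), ?_, ?_⟩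
    · rw [Finset.mem_product, Fintype.mem_piFinset]
      exact ⟨hx, fun i => hY _ (hf i)⟩
    · show x + ∑ i, σ * (f i : ℤ) = σ * (σ * x + u + τ)
      rw [add_assoc, hfu, mul_add, sgn_sgn hσ, Finset.mul_sum]
  · intro a _ b _ hab
    exact add_right_cancel (sgn_inj hσ hab)

theorem rpow_le_of_log2 {M N c S a b : ℝ} (hM : 0 < M) (hN : 0 < N) (hc : 0 < c) (hS : 0 < S)
    (h : Real.log c + a * Real.log M + b * Real.log N ≤ Real.log S) : c * M ^ a * N ^ b ≤ S := by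
  have h1 : 0 < M ^ a := Real.rpow_pos_of_pos hM _
  have h2 : 0 < N ^ b := Real.rpow_pos_of_pos hN _
  rw [← Real.log_le_log_iff (by positivity) hS, Real.log_mul (by positivity) h2.ne',
    Real.log_mul hc.ne' h1.ne', Real.log_rpow hM, Real.log_rpow hN]
  exact h

/-- (2) with an arbitrary first set -/
theorem dilatesX (k : ℕ) (ε C : ℝ) (hε : 0 < ε) : ∃ m : ℕ, ∃ c : ℝ, 0 < c ∧
    ∀ B : Finset ℤ, B.Nonempty → (0 : ℤ) ∉ B → ∀ G : Finset ℕ, m ≤ G.card →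
      (∀ p : ℕ, p.Prime → (∃ b ∈ B, ∃ b' ∈ B, padicValInt p b ≠ padicValInt p b') →
        ∀ g ∈ G, ∀ g' ∈ G, p ∣ g → p ∣ g' → g = g') →
      (({p : ℕ | p.Prime ∧ (∃ b ∈ B, ∃ b' ∈ B, padicValInt p b ≠ padicValInt p b') ∧
        ∃ g ∈ G, ∃ g' ∈ G, g ≠ g' ∧ (p : ℤ) ∣ ((g : ℕ) : ℤ) - ((g' : ℕ) : ℤ)}.ncard : ℕ) : ℝ) ≤
        c * Real.log B.card →
      ∀ A : Finset ℤ, (∀ g ∈ G, ∃ t : ℤ, ∀ b ∈ B, ((g : ℕ) : ℤ) * b + t ∈ A) →
        ∀ (r : ℕ) (x0 : ℚ) (x : Fin r → ℚ), (r : ℝ) ≤ C * Real.log B.card →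
          (∀ b ∈ B, ∃ e : Fin r → ℤ, |(b : ℚ)| = x0 * ∏ i, x i ^ e i) →
          ∀ X : Finset ℤ, X.Nonempty →
          c * (X.card : ℝ) ^ (1 - ε) * (B.card : ℝ) ^ ((k : ℝ) - ε) ≤
            (((X ×ˢ Fintype.piFinset (fun _ : Fin k => A)).image
              (fun z : ℤ × (Fin k → ℤ) => z.1 + ∑ i, z.2 i)).card : ℝ) := by
  classical
  obtain ⟨m2, hm2, K2, hK2, h2⟩ := main2X k (ε / 4) (max C 1)
    (by positivity) (lt_of_lt_of_le one_pos (le_max_right _ _))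
  obtain ⟨D, hD⟩ : ∃ D : ℝ, D = |(k : ℝ) - ε / 4| * Real.log 2 := ⟨_, rfl⟩
  have hl2 : 0 ≤ Real.log 2 := Real.log_nonneg (by norm_num)
  have hD0 : 0 ≤ D := by rw [hD]; positivity
  obtain ⟨c, hc, hc1, hc2⟩ : ∃ c : ℝ, 0 < c ∧ K2 * c ≤ ε / 4 ∧
      Real.log c ≤ -(K2 + D) := by
    refine ⟨min (ε / (4 * (K2 + 1))) (Real.exp (-(K2 + D))), by positivity, ?_, ?_⟩
    · have h3 : min (ε / (4 * (K2 + 1))) (Real.exp (-(K2 + D))) ≤
          ε / (4 * (K2 + 1)) := min_le_left _ _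
      have h4 : K2 * (ε / (4 * (K2 + 1))) ≤ ε / 4 := by
        rw [mul_div_assoc', div_le_div_iff₀ (by positivity) (by norm_num)]
        nlinarith
      exact (mul_le_mul_of_nonneg_left h3 (by positivity)).trans h4
    · have h3 : min (ε / (4 * (K2 + 1))) (Real.exp (-(K2 + D))) ≤
          Real.exp (-(K2 + D)) := min_le_right _ _
      have h4 := Real.log_le_log (by positivity) h3
      rwa [Real.log_exp] at h4
  refine ⟨m2, c, hc, ?_⟩
  intro B hB h0 G hG hco hbad A hA r x0 x hr hx X hX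
  obtain ⟨σ, hσ, Y, hY, hYB, hcard⟩ := half0 B hB h0
  have hYpos : ∀ y ∈ Y, 0 < y := fun y hy => (hYB y hy).1
  have hN : (0 : ℝ) < (B.card : ℝ) := by exact_mod_cast Finset.card_pos.2 hB
  have hYc : (0 : ℝ) < (Y.card : ℝ) := by exact_mod_cast Finset.card_pos.2 hY
  have hXc : (0 : ℝ) < (X.card : ℝ) := by exact_mod_cast Finset.card_pos.2 hX
  have hcoY : ∀ p : ℕ, p.Prime → NC Y p → ∀ g ∈ G, ∀ g' ∈ G, p ∣ g → p ∣ g' → g = g' :=
    fun p hp hNCp => hco p hp (NC_int σ hσ B Y hYB p hp hNCp)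
  have hlog1 : Real.log (B.card : ℝ) ≤ Real.log 2 + Real.log (Y.card : ℝ) := by
    rw [← Real.log_mul (by norm_num) hYc.ne']
    exact Real.log_le_log hN (by exact_mod_cast hcard)
  have hYB' : Y.card ≤ B.card := by
    refine Finset.card_le_card_of_injOn (fun y : ℕ => σ * (y : ℤ)) (fun y hy => (hYB y hy).2) ?_
    intro a _ b _ hab
    have h3 := sgn_inj hσ hab
    exact_mod_cast h3
  have hlog2 : Real.log (Y.card : ℝ) ≤ Real.log (B.card : ℝ) :=
    Real.log_le_log hYc (by exact_mod_cast hYB')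
  have hL : 0 ≤ Real.log (B.card : ℝ) := Real.log_natCast_nonneg _
  have hLX : 0 ≤ Real.log (X.card : ℝ) := Real.log_natCast_nonneg _
  have hqq : (qq (badW G) Y : ℝ) ≤ c * Real.log (B.card : ℝ) := by
    refine le_trans ?_ hbad
    exact_mod_cast qq_le σ hσ B Y hYB G
  have hhalf := half_log ((k : ℝ) - ε / 4) (Real.log (B.card : ℝ)) (Real.log (Y.card : ℝ))
    (Real.log 2) D hlog1 hlog2 hl2 hD.ge
  have hGA : ∀ g : Fin k → ℕ, (∀ i, g i ∈ G) →
      ∀ i, ∃ t : ℤ, ∀ b ∈ B, ((g i : ℕ) : ℤ) * b + t ∈ A := fun g hg i => hA _ (hg i)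
  have hq1 : K2 * (qq (badW G) Y : ℝ) ≤ ε / 4 * Real.log (B.card : ℝ) := by
    have h3 : K2 * (qq (badW G) Y : ℝ) ≤ K2 * (c * Real.log (B.card : ℝ)) :=
      mul_le_mul_of_nonneg_left hqq hK2
    have h4 : K2 * c * Real.log (B.card : ℝ) ≤ ε / 4 * Real.log (B.card : ℝ) :=
      mul_le_mul_of_nonneg_right hc1 hL
    linarith
  obtain ⟨g, hg, h3⟩ := h2 G hG (badW G) (badW_spec G) Y hY hYpos hcoY
    (X.image (fun x : ℤ => σ * x)) (hX.image _)
  rw [card_sgn σ hσ X] at h3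
  have hne : (pl (X.image (fun x : ℤ => σ * x)) (kf_X g Y)).Nonempty :=
    pl_nonempty (hX.image _) (kf_nonempty g hY)
  have hle := sum_leX k σ hσ A B Y (fun y hy => (hYB y hy).2) g (hGA g hg) X
  have hpos0 := Finset.card_pos.2 hne
  have h4 : Real.log ((pl (X.image (fun x : ℤ => σ * x)) (kf_X g Y)).card : ℝ) ≤
      Real.log (((X ×ˢ Fintype.piFinset (fun _ : Fin k => A)).image
              (fun z : ℤ × (Fin k → ℤ) => z.1 + ∑ i, z.2 i)).card : ℝ) :=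
    Real.log_le_log (by exact_mod_cast hpos0) (by exact_mod_cast hle)
  have hSpos : (0 : ℝ) < (((X ×ˢ Fintype.piFinset (fun _ : Fin k => A)).image
              (fun z : ℤ × (Fin k → ℤ) => z.1 + ∑ i, z.2 i)).card : ℝ) := by
    exact_mod_cast lt_of_lt_of_le hpos0 hle
  have h6 : (rr Y : ℝ) ≤ max C 1 * Real.log (B.card : ℝ) := by
    have h7 : (rr Y : ℝ) ≤ (r : ℝ) := by
      exact_mod_cast rank_le σ hσ B Y hYB r x0 x (fun b hb _ => hx b hb)
    have h8 : C * Real.log (B.card : ℝ) ≤ max C 1 * Real.log (B.card : ℝ) :=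
      mul_le_mul_of_nonneg_right (le_max_left _ _) hL
    linarith
  have hmax : 0 < max C 1 := lt_of_lt_of_le one_pos (le_max_right _ _)
  have h7 : ε / 4 / max C 1 * (rr Y : ℝ) ≤ ε / 4 * Real.log (B.card : ℝ) := by
    rw [div_mul_eq_mul_div, div_le_iff₀ hmax]
    have := mul_le_mul_of_nonneg_left h6 (by positivity : (0 : ℝ) ≤ ε / 4)
    linarith
  refine rpow_le_of_log2 hXc hN hc hSpos ?_
  have h8 : (1 - ε) * Real.log (X.card : ℝ) ≤ (1 - ε / 4) * Real.log (X.card : ℝ) :=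
    mul_le_mul_of_nonneg_right (by linarith) hLX
  have h9 : 0 ≤ ε / 4 * Real.log (B.card : ℝ) := by positivity
  linarith

/-- (3) with an arbitrary first set -/
theorem everysetX (k : ℕ) (ε C : ℝ) (hε : 0 < ε) : ∃ K : ℕ, ∃ c : ℝ, 0 < c ∧
    ∀ B : Finset ℤ, B.Nonempty → (0 : ℤ) ∉ B → ∀ (r : ℕ) (x0 : ℚ) (x : Fin r → ℚ),
      (r : ℝ) ≤ C * Real.log B.card →
      (∀ b ∈ B, ∃ e : Fin r → ℤ, |(b : ℚ)| = x0 * ∏ i, x i ^ e i) →
      ∀ X : Finset ℤ, X.Nonempty →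
      c * (X.card : ℝ) ^ (1 - ε) * (B.card : ℝ) ^ k ≤
        (((X ×ˢ Fintype.piFinset (fun _ : Fin K => B)).image
          (fun z : ℤ × (Fin K → ℤ) => z.1 + ∑ i, z.2 i)).card : ℝ) := by
  classical
  have he0 : 0 < min ε 1 := lt_min hε one_pos
  obtain ⟨m, -, K0, hK0, h2⟩ := main2X (k + 2) (min ε 1) (max C 1)
    he0 (lt_of_lt_of_le one_pos (le_max_right _ _))
  have hl2 : 0 ≤ Real.log 2 := Real.log_nonneg (by norm_num)
  -- the first `m` primes
  have hinj : Function.Injective (Nat.nth Nat.Prime) :=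
    Nat.nth_injective Nat.infinite_setOfPred_prime
  obtain ⟨G, hG⟩ : ∃ G : Finset ℕ, G = (Finset.range m).image (Nat.nth Nat.Prime) := ⟨_, rfl⟩
  have hGp : ∀ g ∈ G, g.Prime := by
    intro g hg
    rw [hG] at hg
    obtain ⟨i, -, rfl⟩ := Finset.mem_image.1 hg
    exact Nat.prime_nth_prime i
  have hGc : m ≤ G.card := by
    rw [hG, Finset.card_image_of_injective _ hinj, Finset.card_range]
  obtain ⟨M, hM⟩ : ∃ M : ℕ, ∀ g ∈ G, g ≤ M := ⟨G.sup id, fun g hg => Finset.le_sup (f := id) hg⟩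
  refine ⟨(k + 2) * M, Real.exp (-(((k : ℝ) + 1) * Real.log 2 +
    K0 * (1 + ((Finset.range (M + 1)).card : ℝ)))), Real.exp_pos _, ?_⟩
  intro B hB h0 r x0 x hr hx X hX
  rw [← Real.rpow_natCast]
  obtain ⟨σ, hσ, Y, hY, hYB, hcard⟩ := half0 B hB h0
  have hYpos : ∀ y ∈ Y, 0 < y := fun y hy => (hYB y hy).1
  have hN : (0 : ℝ) < (B.card : ℝ) := by exact_mod_cast Finset.card_pos.2 hB
  have hYc : (0 : ℝ) < (Y.card : ℝ) := by exact_mod_cast Finset.card_pos.2 hY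
  have hXc : (0 : ℝ) < (X.card : ℝ) := by exact_mod_cast Finset.card_pos.2 hX
  have hlog1 : Real.log (B.card : ℝ) ≤ Real.log 2 + Real.log (Y.card : ℝ) := by
    rw [← Real.log_mul (by norm_num) hYc.ne']
    exact Real.log_le_log hN (by exact_mod_cast hcard)
  have hL : 0 ≤ Real.log (B.card : ℝ) := Real.log_natCast_nonneg _
  have hLY : 0 ≤ Real.log (Y.card : ℝ) := Real.log_natCast_nonneg _
  have hLX : 0 ≤ Real.log (X.card : ℝ) := Real.log_natCast_nonneg _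
  obtain ⟨g, hg, h3⟩ := h2 G hGc (Finset.range (M + 1)) (by
      intro p hp hpM a ha b hb hab
      have h1 : M < p := by
        by_contra hcon
        exact hpM (Finset.mem_range.2 (by omega))
      have h2 := (ZMod.natCast_eq_natCast_iff' a b p).1 hab
      rwa [Nat.mod_eq_of_lt (lt_of_le_of_lt (hM a ha) h1),
        Nat.mod_eq_of_lt (lt_of_le_of_lt (hM b hb) h1)] at h2) Y hY hYpos (by
      intro p hp _ a ha b hb hda hdb
      rw [← (Nat.prime_dvd_prime_iff_eq hp (hGp a ha)).1 hda,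
        ← (Nat.prime_dvd_prime_iff_eq hp (hGp b hb)).1 hdb])
    (X.image (fun x : ℤ => σ * x)) (hX.image _)
  rw [card_sgn σ hσ X] at h3
  have hne : (pl (X.image (fun x : ℤ => σ * x)) (kf_X g Y)).Nonempty :=
    pl_nonempty (hX.image _) (kf_nonempty g hY)
  have hle := sum_leK (k + 2) M σ hσ B Y hY (fun y hy => (hYB y hy).2) g
    (fun i => hM _ (hg i)) X
  have hpos0 := Finset.card_pos.2 hne
  have h4 : Real.log ((pl (X.image (fun x : ℤ => σ * x)) (kf_X g Y)).card : ℝ) ≤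
      Real.log (((X ×ˢ Fintype.piFinset (fun _ : Fin ((k + 2) * M) => B)).image
              (fun z : ℤ × (Fin ((k + 2) * M) → ℤ) => z.1 + ∑ i, z.2 i)).card : ℝ) :=
    Real.log_le_log (by exact_mod_cast hpos0) (by exact_mod_cast hle)
  have hSpos : (0 : ℝ) < (((X ×ˢ Fintype.piFinset (fun _ : Fin ((k + 2) * M) => B)).image
              (fun z : ℤ × (Fin ((k + 2) * M) → ℤ) => z.1 + ∑ i, z.2 i)).card : ℝ) := by
    exact_mod_cast lt_of_lt_of_le hpos0 hle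
  have hq : (qq (Finset.range (M + 1)) Y : ℝ) ≤ ((Finset.range (M + 1)).card : ℝ) := by
    unfold qq
    exact_mod_cast Finset.card_filter_le _ _
  have h5 : K0 * (1 + (qq (Finset.range (M + 1)) Y : ℝ)) ≤
      K0 * (1 + ((Finset.range (M + 1)).card : ℝ)) :=
    mul_le_mul_of_nonneg_left (by linarith) hK0
  have h6 : (rr Y : ℝ) ≤ max C 1 * Real.log (B.card : ℝ) := by
    have h7 : (rr Y : ℝ) ≤ (r : ℝ) := by
      exact_mod_cast rank_le σ hσ B Y hYB r x0 x (fun b hb _ => hx b hb)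
    have h8 : C * Real.log (B.card : ℝ) ≤ max C 1 * Real.log (B.card : ℝ) :=
      mul_le_mul_of_nonneg_right (le_max_left _ _) hL
    linarith
  have hmax : 0 < max C 1 := lt_of_lt_of_le one_pos (le_max_right _ _)
  have he1 : min ε 1 ≤ 1 := min_le_right _ _
  have hee : min ε 1 ≤ ε := min_le_left _ _
  have h7 : min ε 1 / max C 1 * (rr Y : ℝ) ≤ Real.log (B.card : ℝ) := by
    rw [div_mul_eq_mul_div, div_le_iff₀ hmax]
    have h8 := mul_le_mul he1 h6 (Nat.cast_nonneg _) zero_le_one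
    linarith
  refine rpow_le_of_log2 hXc hN (Real.exp_pos _) hSpos ?_
  rw [Real.log_exp]
  push_cast at h3
  generalize min ε 1 = e at *
  have h8 : (1 - ε) * Real.log (X.card : ℝ) ≤ (1 - e) * Real.log (X.card : ℝ) :=
    mul_le_mul_of_nonneg_right (by linarith) hLX
  have h9 : ((k : ℝ) + 1) * Real.log (Y.card : ℝ) ≤ ((k : ℝ) + 2 - e) * Real.log (Y.card : ℝ) :=
    mul_le_mul_of_nonneg_right (by linarith) hLY
  have h10 := mul_le_mul_of_nonneg_left hlog1 (Nat.cast_nonneg (α := ℝ) k)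
  linarith

end Pool.Agent.Helper24.MD
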