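import Pool.Agent.Helper24.MD.PropS

set_option autoImplicit false

/-! # Project MD, `k`-fold sums of dilates -/

namespace Pool.Agent.Helper24.MD

open Finset

section KFold

/-- the set of `k`-fold sums of dilates -/
def kf_X {k : ℕ} (g : Fin k → ℕ) (Y : Finset ℕ) : Finset ℤ :=
  (Fintype.piFinset (fun _ : Fin k => Y)).image
    (fun f : Fin k → ℕ => ∑ i, ((g i : ℕ) : ℤ) * ((f i : ℕ) : ℤ))

theorem kf_nonempty {k : ℕ} (g : Fin k → ℕ) {Y : Finset ℕ} (hY : Y.Nonempty) :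
    (kf_X g Y).Nonempty := by
  unfold kf_X
  exact (Fintype.piFinset_nonempty.2 fun _ => hY).image _

theorem kf_card {k : ℕ} (g : Fin k → ℕ) (Y : Finset ℕ) : (kf_X g Y).card ≤ Y.card ^ k := by
  unfold kf_X
  refine le_trans Finset.card_image_le ?_
  rw [Fintype.card_piFinset]
  simp

theorem kf_log {k : ℕ} (g : Fin k → ℕ) {Y : Finset ℕ} (hY : Y.Nonempty) :
    Real.log ((kf_X g Y).card : ℝ) ≤ (k : ℝ) * Real.log (Y.card : ℝ) := by
  have h1 : (0 : ℝ) < ((kf_X g Y).card : ℝ) := by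
    exact_mod_cast Finset.card_pos.2 (kf_nonempty g hY)
  have h2 : ((kf_X g Y).card : ℝ) ≤ (Y.card : ℝ) ^ k := by exact_mod_cast kf_card g Y
  have h3 := Real.log_le_log h1 h2
  rwa [Real.log_pow] at h3

theorem kf_sub {k : ℕ} (g : Fin k → ℕ) (g0 : ℕ) (Y : Finset ℕ) :
    sm g0 (kf_X g Y) Y ⊆ kf_X (Fin.cons g0 g : Fin (k + 1) → ℕ) Y := by
  intro z hz
  unfold sm at hz
  obtain ⟨x, hx, y, hy, rfl⟩ := Finset.mem_image₂.1 hz
  unfold kf_X at hx
  obtain ⟨f, hf, rfl⟩ := Finset.mem_image.1 hx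
  unfold kf_X
  refine Finset.mem_image.2 ⟨Fin.cons y f, ?_, ?_⟩
  · rw [Fintype.mem_piFinset] at hf ⊢
    intro i
    refine Fin.cases ?_ (fun j => ?_) i
    · simpa using hy
    · simpa using hf j
  · rw [Fin.sum_univ_succ]
    simp only [Fin.cons_zero, Fin.cons_succ]
    ring

theorem kf_min (G : Finset ℕ) (hG : G.Nonempty) (F : ℕ → ℝ) (c : ℝ) (h : av G F ≤ c) :
    ∃ g ∈ G, F g ≤ c := by
  by_contra hcon
  push Not at hcon
  have hpos : (0 : ℝ) < (G.card : ℝ) := by exact_mod_cast Finset.card_pos.2 hG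
  have h1 : ∑ g ∈ G, c < ∑ g ∈ G, F g := Finset.sum_lt_sum_of_nonempty hG hcon
  rw [Finset.sum_const, nsmul_eq_mul] at h1
  unfold av at h
  rw [div_le_iff₀ hpos] at h
  linarith [mul_comm c (G.card : ℝ)]

end KFold

/-- iteration: `B` stands for `lam rr Y + K qq W Y` -/
theorem kfold (ε B : ℝ) (hε : 0 ≤ ε) (hB : 0 ≤ B) (G : Finset ℕ) (hG : G.Nonempty)
    (Y : Finset ℕ) (hY : Y.Nonempty)
    (h : ∀ X : Finset ℤ, X.Nonempty → av G (fun g => dd g X Y) ≤
      ε * Real.log (X.card : ℝ) + ε * Real.log (Y.card : ℝ) + B) (k : ℕ) :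
    ∃ g : Fin k → ℕ, (∀ i, g i ∈ G) ∧
      (k : ℝ) * Real.log (Y.card : ℝ) - (k : ℝ) * (((k : ℝ) + 1) * ε * Real.log (Y.card : ℝ) + B) ≤
        Real.log ((((Fintype.piFinset (fun _ : Fin k => Y)).image
          (fun f : Fin k → ℕ => ∑ i, ((g i : ℕ) : ℤ) * ((f i : ℕ) : ℤ))).card : ℕ) : ℝ) := by
  have hL : 0 ≤ Real.log (Y.card : ℝ) :=
    Real.log_nonneg (by exact_mod_cast Finset.card_pos.2 hY)
  change ∃ g : Fin k → ℕ, (∀ i, g i ∈ G) ∧
      (k : ℝ) * Real.log (Y.card : ℝ) - (k : ℝ) * (((k : ℝ) + 1) * ε * Real.log (Y.card : ℝ) + B) ≤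
        Real.log (((kf_X g Y).card : ℕ) : ℝ)
  induction k with
  | zero =>
    refine ⟨Fin.elim0, fun i => i.elim0, ?_⟩
    have h1 : (1 : ℝ) ≤ ((kf_X (Fin.elim0 : Fin 0 → ℕ) Y).card : ℝ) := by
      exact_mod_cast Finset.card_pos.2 (kf_nonempty _ hY)
    have h2 := Real.log_nonneg h1
    simpa using h2
  | succ k ih =>
    obtain ⟨g, hg, hgk⟩ := ih
    obtain ⟨g0, hg0, hg0k⟩ := kf_min G hG _ _ (h (kf_X g Y) (kf_nonempty g hY))
    refine ⟨Fin.cons g0 g, ?_, ?_⟩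
    · intro i
      refine Fin.cases ?_ (fun j => ?_) i
      · simpa using hg0
      · simpa using hg j
    · have hne : (sm g0 (kf_X g Y) Y).Nonempty := by
        unfold sm
        exact (kf_nonempty g hY).image₂ hY
      have h1 : Real.log ((sm g0 (kf_X g Y) Y).card : ℝ) ≤
          Real.log (((kf_X (Fin.cons g0 g : Fin (k + 1) → ℕ) Y).card : ℕ) : ℝ) := by
        refine Real.log_le_log (by exact_mod_cast Finset.card_pos.2 hne) ?_
        exact_mod_cast Finset.card_le_card (kf_sub g g0 Y)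
      have h2 := kf_log g hY
      have h3 : ε * Real.log ((kf_X g Y).card : ℝ) ≤ ε * ((k : ℝ) * Real.log (Y.card : ℝ)) :=
        mul_le_mul_of_nonneg_left h2 hε
      have h4 : 0 ≤ ((k : ℝ) + 1) * (ε * Real.log (Y.card : ℝ)) :=
        mul_nonneg (by positivity) (mul_nonneg hε hL)
      unfold dd at hg0k
      refine le_trans ?_ h1
      push_cast
      nlinarith [hgk, hg0k, h3, h4]

end Pool.Agent.Helper24.MD
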