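import Pool.Agent.Helper24.MD.Steps

set_option autoImplicit false

/-! # Project MD, Pairs: the three class inequalities for `op X Y` -/

namespace Pool.Agent.Helper24.MD

open Finset

private theorem cl_sub {α β : Type*} [DecidableEq β] (φ : α → β) (S : Finset α) (x : α) :
    cl φ S x ⊆ S := Finset.filter_subset _ S

private theorem cl_congr {α β : Type*} [DecidableEq β] (φ : α → β) (S : Finset α) {x x' : α}
    (h : φ x = φ x') : cl φ S x = cl φ S x' := by
  unfold cl
  rw [h]

private theorem cl_val {α β : Type*} [DecidableEq β] {φ : α → β} {S : Finset α} {x z : α}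
    (h : z ∈ cl φ S x) : z ∈ S ∧ φ z = φ x := by
  unfold cl at h
  rwa [Finset.mem_filter] at h

/-- the class of `x` is seen once the class of `y` is known -/
theorem step_left {α β γ ι κ : Type*} [DecidableEq ι] [DecidableEq κ] [DecidableEq γ]
    (op : α → β → γ) (φ : α → ι) (ψ : β → κ) (X : Finset α) (Y : Finset β)
    (hX : X.Nonempty) (hY : Y.Nonempty)
    (h : ∀ x ∈ X, ∀ x' ∈ X, ∀ y ∈ Y, ∀ y' ∈ Y, ψ y = ψ y' → op x y = op x' y' → φ x = φ x') :
    hh φ X + av X (fun x => av Y (fun y =>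
      Real.log ((Finset.image₂ op (cl φ X x) (cl ψ Y y)).card : ℝ))) ≤
      Real.log ((Finset.image₂ op X Y).card : ℝ) := by
  have key : ∀ y ∈ Y, hh φ X + av X (fun x =>
      Real.log ((Finset.image₂ op (cl φ X x) (cl ψ Y y)).card : ℝ)) ≤
      Real.log ((Finset.image₂ op X Y).card : ℝ) := by
    intro y hy
    refine step_basic φ X hX (fun x => Finset.image₂ op (cl φ X x) (cl ψ Y y)) ?_ ?_ ?_
      (Finset.image₂ op X Y) ?_
    · intro x hx
      exact Finset.Nonempty.image₂ ⟨x, mem_cl_self φ X x hx⟩ ⟨y, mem_cl_self ψ Y y hy⟩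
    · intro t _ t' _ htt
      show Finset.image₂ op (cl φ X t) (cl ψ Y y) = Finset.image₂ op (cl φ X t') (cl ψ Y y)
      rw [cl_congr φ X htt]
    · intro t _ t' _ hne
      rw [Finset.disjoint_left]
      intro z hz hz'
      rw [Finset.mem_image₂] at hz hz'
      obtain ⟨a, ha, b, hb, rfl⟩ := hz
      obtain ⟨a', ha', b', hb', he⟩ := hz'
      have ha := cl_val ha
      have hb := cl_val hb
      have ha' := cl_val ha'
      have hb' := cl_val hb'
      have h1 := h a' ha'.1 a ha.1 b' hb'.1 b hb.1 (hb'.2.trans hb.2.symm) he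
      exact hne (ha.2.symm.trans (h1.symm.trans ha'.2))
    · intro t _
      exact Finset.image₂_subset (cl_sub φ X t) (cl_sub ψ Y y)
  have h2 := av_mono Y _ _ key
  rw [av_const Y hY, av_add, av_const Y hY] at h2
  rw [av_comm X Y]
  exact h2

/-- the class of `y` is seen once the class of `x` is known -/
theorem step_right {α β γ ι κ : Type*} [DecidableEq ι] [DecidableEq κ] [DecidableEq γ]
    (op : α → β → γ) (φ : α → ι) (ψ : β → κ) (X : Finset α) (Y : Finset β)
    (hX : X.Nonempty) (hY : Y.Nonempty)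
    (h : ∀ x ∈ X, ∀ x' ∈ X, ∀ y ∈ Y, ∀ y' ∈ Y, φ x = φ x' → op x y = op x' y' → ψ y = ψ y') :
    hh ψ Y + av X (fun x => av Y (fun y =>
      Real.log ((Finset.image₂ op (cl φ X x) (cl ψ Y y)).card : ℝ))) ≤
      Real.log ((Finset.image₂ op X Y).card : ℝ) := by
  have key : ∀ x ∈ X, hh ψ Y + av Y (fun y =>
      Real.log ((Finset.image₂ op (cl φ X x) (cl ψ Y y)).card : ℝ)) ≤
      Real.log ((Finset.image₂ op X Y).card : ℝ) := by
    intro x hx
    refine step_basic ψ Y hY (fun y => Finset.image₂ op (cl φ X x) (cl ψ Y y)) ?_ ?_ ?_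
      (Finset.image₂ op X Y) ?_
    · intro y hy
      exact Finset.Nonempty.image₂ ⟨x, mem_cl_self φ X x hx⟩ ⟨y, mem_cl_self ψ Y y hy⟩
    · intro t _ t' _ htt
      show Finset.image₂ op (cl φ X x) (cl ψ Y t) = Finset.image₂ op (cl φ X x) (cl ψ Y t')
      rw [cl_congr ψ Y htt]
    · intro t _ t' _ hne
      rw [Finset.disjoint_left]
      intro z hz hz'
      rw [Finset.mem_image₂] at hz hz'
      obtain ⟨a, ha, b, hb, rfl⟩ := hz
      obtain ⟨a', ha', b', hb', he⟩ := hz'
      have ha := cl_val ha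
      have hb := cl_val hb
      have ha' := cl_val ha'
      have hb' := cl_val hb'
      have h1 := h a' ha'.1 a ha.1 b' hb'.1 b hb.1 (ha'.2.trans ha.2.symm) he
      exact hne (hb.2.symm.trans (h1.symm.trans hb'.2))
    · intro t _
      exact Finset.image₂_subset (cl_sub φ X x) (cl_sub ψ Y t)
  have h2 := av_mono X _ _ key
  rw [av_const X hX, av_add, av_const X hX] at h2
  exact h2

private theorem av_prod {α β : Type*} (S : Finset α) (T : Finset β) (F : α → β → ℝ) :
    av (S ×ˢ T) (fun z => F z.1 z.2) = av S (fun x => av T (fun y => F x y)) := by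
  unfold av
  rw [Finset.sum_product, Finset.card_product, ← Finset.sum_div, div_div]
  push_cast
  rw [mul_comm]

private theorem cl_prod {α β ι κ : Type*} [DecidableEq ι] [DecidableEq κ] (φ : α → ι) (ψ : β → κ)
    (X : Finset α) (Y : Finset β) (z : α × β) :
    cl (fun z : α × β => (φ z.1, ψ z.2)) (X ×ˢ Y) z = cl φ X z.1 ×ˢ cl ψ Y z.2 := by
  ext w
  simp only [cl, Finset.mem_filter, Finset.mem_product, Prod.mk.injEq]
  tauto

/-- both classes are seen -/
theorem step_both {α β γ ι κ : Type*} [DecidableEq ι] [DecidableEq κ] [DecidableEq γ]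
    (op : α → β → γ) (φ : α → ι) (ψ : β → κ) (X : Finset α) (Y : Finset β)
    (hX : X.Nonempty) (hY : Y.Nonempty)
    (h : ∀ x ∈ X, ∀ x' ∈ X, ∀ y ∈ Y, ∀ y' ∈ Y, op x y = op x' y' → φ x = φ x' ∧ ψ y = ψ y') :
    hh φ X + hh ψ Y + av X (fun x => av Y (fun y =>
      Real.log ((Finset.image₂ op (cl φ X x) (cl ψ Y y)).card : ℝ))) ≤
      Real.log ((Finset.image₂ op X Y).card : ℝ) := by
  have h1 := step_basic (fun z : α × β => (φ z.1, ψ z.2)) (X ×ˢ Y) (hX.product hY)
    (fun z => Finset.image₂ op (cl φ X z.1) (cl ψ Y z.2)) (fun z hz => by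
      rw [Finset.mem_product] at hz
      exact Finset.Nonempty.image₂ ⟨z.1, mem_cl_self φ X z.1 hz.1⟩
        ⟨z.2, mem_cl_self ψ Y z.2 hz.2⟩)
    (fun t _ t' _ htt => by
      have h2 := Prod.mk.inj htt
      show Finset.image₂ op (cl φ X t.1) (cl ψ Y t.2) =
        Finset.image₂ op (cl φ X t'.1) (cl ψ Y t'.2)
      rw [cl_congr φ X h2.1, cl_congr ψ Y h2.2])
    (fun t _ t' _ hne => by
      rw [Finset.disjoint_left]
      intro z hz hz'
      rw [Finset.mem_image₂] at hz hz'
      obtain ⟨a, ha, b, hb, rfl⟩ := hz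
      obtain ⟨a', ha', b', hb', he⟩ := hz'
      have ha := cl_val ha
      have hb := cl_val hb
      have ha' := cl_val ha'
      have hb' := cl_val hb'
      have h1 := h a' ha'.1 a ha.1 b' hb'.1 b hb.1 he
      exact hne (Prod.ext (ha.2.symm.trans (h1.1.symm.trans ha'.2))
        (hb.2.symm.trans (h1.2.symm.trans hb'.2))))
    (Finset.image₂ op X Y)
    (fun t _ => Finset.image₂_subset (cl_sub φ X t.1) (cl_sub ψ Y t.2))
  have h3 : hh (fun z : α × β => (φ z.1, ψ z.2)) (X ×ˢ Y) = hh φ X + hh ψ Y := by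
    have hXc : ((X.card : ℕ) : ℝ) ≠ 0 := by
      have := Finset.card_pos.2 hX
      positivity
    have hYc : ((Y.card : ℕ) : ℝ) ≠ 0 := by
      have := Finset.card_pos.2 hY
      positivity
    have e1 : av (X ×ˢ Y) (fun z => Real.log
        ((cl (fun z : α × β => (φ z.1, ψ z.2)) (X ×ˢ Y) z).card : ℝ)) =
        av (X ×ˢ Y) (fun z => Real.log ((cl φ X z.1).card : ℝ) +
          Real.log ((cl ψ Y z.2).card : ℝ)) := by
      unfold av
      congr 1
      refine Finset.sum_congr rfl fun z hz => ?_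
      rw [Finset.mem_product] at hz
      have hc1 : 0 < (cl φ X z.1).card := Finset.card_pos.2 ⟨z.1, mem_cl_self φ X z.1 hz.1⟩
      have hc2 : 0 < (cl ψ Y z.2).card := Finset.card_pos.2 ⟨z.2, mem_cl_self ψ Y z.2 hz.2⟩
      beta_reduce
      rw [cl_prod, Finset.card_product, Nat.cast_mul, Real.log_mul (by positivity)
        (by positivity)]
    have e2 : av (X ×ˢ Y) (fun z => Real.log ((cl φ X z.1).card : ℝ) +
          Real.log ((cl ψ Y z.2).card : ℝ)) =
        av X (fun x => Real.log ((cl φ X x).card : ℝ)) +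
          av Y (fun y => Real.log ((cl ψ Y y).card : ℝ)) := by
      rw [av_prod X Y (fun x y => Real.log ((cl φ X x).card : ℝ) +
        Real.log ((cl ψ Y y).card : ℝ))]
      have e3 : (fun x => av Y (fun y => Real.log ((cl φ X x).card : ℝ) +
          Real.log ((cl ψ Y y).card : ℝ))) = fun x => Real.log ((cl φ X x).card : ℝ) +
          av Y (fun y => Real.log ((cl ψ Y y).card : ℝ)) := by
        funext x
        rw [av_add, av_const Y hY]
      rw [e3, av_add, av_const X hX]
    unfold hh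
    rw [e1, e2, Finset.card_product, Nat.cast_mul, Real.log_mul hXc hYc]
    ring
  rw [h3, av_prod X Y (fun x y =>
    Real.log ((Finset.image₂ op (cl φ X x) (cl ψ Y y)).card : ℝ))] at h1
  exact h1

end Pool.Agent.Helper24.MD
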