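import Pool.Agent.Helper24.MD.CaseE
import Pool.Agent.Helper24.MD.Mid

set_option autoImplicit false

/-! # Project MD, Proposition S -/

namespace Pool.Agent.Helper24.MD

open Finset

theorem Bd_nonneg (ε lam K : ℝ) (hε : 0 ≤ ε) (hlam : 0 ≤ lam) (hK : 0 ≤ K) (W : Finset ℕ)
    (X : Finset ℤ) (Y : Finset ℕ) : 0 ≤ Bd ε lam K W X Y := by
  unfold Bd
  have h1 : 0 ≤ Real.log (X.card : ℝ) := Real.log_natCast_nonneg _
  have h2 : 0 ≤ Real.log (Y.card : ℝ) := Real.log_natCast_nonneg _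
  positivity

theorem dd_one (g : ℕ) (X : Finset ℤ) (Y : Finset ℕ) (hY : Y.card = 1) : dd g X Y = 0 := by
  obtain ⟨y, rfl⟩ := Finset.card_eq_one.1 hY
  unfold dd sm
  have : (Finset.image₂ (fun (x : ℤ) (y : ℕ) => x + (g : ℤ) * (y : ℤ)) X {y}).card = X.card := by
    rw [Finset.image₂_singleton_right]
    apply Finset.card_image_of_injective
    intro a b hab
    simpa using hab
  rw [this]
  simp

/-- the class of an element of `Y` is proper -/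
theorem cl_card_lt (M : ℕ) (Y : Finset ℕ)
    (h1 : (Y.filter (fun y => ¬ M ∣ y)).Nonempty) (h0 : (Y.filter (fun y => M ∣ y)).Nonempty)
    (y : ℕ) : (cl (rY M) Y y).card < Y.card := by
  obtain ⟨a, ha⟩ := h1
  obtain ⟨b, hb⟩ := h0
  rw [Finset.mem_filter] at ha hb
  apply Finset.card_lt_card
  unfold cl
  rw [Finset.filter_ssubset]
  by_contra hcon
  push Not at hcon
  have h2 := hcon a ha.1
  have h3 := hcon b hb.1
  have h4 : rY M a = rY M b := h2.trans h3.symm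
  unfold rY at h4
  have h5 : ((b : ℕ) : ZMod M) = 0 := (ZMod.natCast_eq_zero_iff b M).2 hb.2
  rw [h5] at h4
  exact ha.2 ((ZMod.natCast_eq_zero_iff a M).1 h4)

/-- Proposition S for `ε ≤ 1`, no prime with non-constant valuation on `Y` divides two elements
of `G` -/
theorem propT (ε lam : ℝ) (hε : 0 < ε) (hε1 : ε ≤ 1) (hlam : 0 < lam) :
    ∃ m : ℕ, 2 ≤ m ∧ ∃ K : ℝ, 0 ≤ K ∧
      ∀ G : Finset ℕ, m ≤ G.card →
      ∀ W : Finset ℕ, (∀ p : ℕ, p.Prime → p ∉ W → ∀ g ∈ G, ∀ g' ∈ G,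
        ((g : ℕ) : ZMod p) = ((g' : ℕ) : ZMod p) → g = g') →
      ∀ Y : Finset ℕ, Y.Nonempty → (∀ y ∈ Y, 0 < y) →
      (∀ p : ℕ, p.Prime → NC Y p → ∀ g ∈ G, ∀ g' ∈ G, p ∣ g → p ∣ g' → g = g') →
      ∀ X : Finset ℤ, X.Nonempty →
        av G (fun g => dd g X Y) ≤ Bd ε lam K W X Y := by
  classical
  -- constants
  obtain ⟨κ, hκ, hκ1, hκl⟩ : ∃ κ : ℝ, 0 < κ ∧ κ ≤ 1 / 2 ∧ 2 * κ ≤ lam := by
    refine ⟨min (1 / 2) (lam / 2), by positivity, min_le_left _ _, ?_⟩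
    have := min_le_right (1 / 2) (lam / 2)
    linarith
  obtain ⟨C4, hC4⟩ : ∃ C4 : ℝ, C4 = 2 * (Real.log (1 / κ) / ε) / ε := ⟨_, rfl⟩
  have hC40 : 0 ≤ C4 := by
    rw [hC4]
    have h1 : 0 ≤ Real.log (1 / κ) := by
      apply Real.log_nonneg
      rw [le_div_iff₀ hκ]
      linarith
    positivity
  obtain ⟨t0, ht0e⟩ : ∃ t0 : ℝ, t0 = Real.exp (-4 / ε ^ 2) := ⟨_, rfl⟩
  have ht0 : 0 < t0 := by rw [ht0e]; exact Real.exp_pos _
  obtain ⟨δ, hδ, hδ1, hδt, hδl⟩ : ∃ δ : ℝ, 0 < δ ∧ δ ≤ 1 / 2 ∧ δ ≤ t0 / 2 ∧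
      4 * δ ≤ lam * t0 / 4 := by
    refine ⟨min (1 / 2) (min (t0 / 2) (lam * t0 / 16)), by positivity, min_le_left _ _,
      (min_le_right _ _).trans (min_le_left _ _), ?_⟩
    have := (min_le_right (1 / 2) (min (t0 / 2) (lam * t0 / 16))).trans
      (min_le_right (t0 / 2) (lam * t0 / 16))
    linarith
  obtain ⟨r, hr⟩ : ∃ r : ℕ, Real.exp (C4 / δ) ≤ (r : ℝ) := ⟨⌈Real.exp (C4 / δ)⌉₊, Nat.le_ceil _⟩
  obtain ⟨m1, hm1⟩ : ∃ m1 : ℕ, 2 / ε ≤ (m1 : ℝ) := ⟨⌈2 / ε⌉₊, Nat.le_ceil _⟩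
  obtain ⟨m2, hm2⟩ : ∃ m2 : ℕ, (r : ℝ) ^ 4 * Real.log r * (4 / (lam * t0)) ≤ (m2 : ℝ) :=
    ⟨⌈(r : ℝ) ^ 4 * Real.log r * (4 / (lam * t0))⌉₊, Nat.le_ceil _⟩
  refine ⟨max 2 (max m1 m2), le_max_left _ _, C4 / t0, by positivity, ?_⟩
  intro G hGm W hW
  have hG2 : 2 ≤ G.card := (le_max_left _ _).trans hGm
  have hGm1 : m1 ≤ G.card := (le_max_left _ _).trans ((le_max_right _ _).trans hGm)
  have hGm2 : m2 ≤ G.card := (le_max_right _ _).trans ((le_max_right _ _).trans hGm)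
  have hGne : G.Nonempty := Finset.card_pos.1 (by omega)
  have hGpos : (0 : ℝ) < (G.card : ℝ) := by exact_mod_cast (by omega : 0 < G.card)
  have hK : 0 ≤ C4 / t0 := by positivity
  have hmC : 2 / ε ≤ (G.card : ℝ) := hm1.trans (by exact_mod_cast hGm1)
  have hmE : 4 * δ + (r : ℝ) ^ 4 * Real.log r / (G.card : ℝ) ≤ lam * (t0 / 2) := by
    have h1 : (r : ℝ) ^ 4 * Real.log r * (4 / (lam * t0)) ≤ (G.card : ℝ) :=
      hm2.trans (by exact_mod_cast hGm2)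
    have h2 : (r : ℝ) ^ 4 * Real.log r / (G.card : ℝ) ≤ lam * t0 / 4 := by
      rw [div_le_iff₀ hGpos]
      have h3 : (r : ℝ) ^ 4 * Real.log r = (lam * t0 / 4) *
          ((r : ℝ) ^ 4 * Real.log r * (4 / (lam * t0))) := by
        field_simp
      rw [h3]
      exact mul_le_mul_of_nonneg_left h1 (by positivity)
    linarith
  -- induction
  suffices H : ∀ n : ℕ, ∀ Y : Finset ℕ, Y.card = n → Y.Nonempty → (∀ y ∈ Y, 0 < y) →
      (∀ p : ℕ, p.Prime → NC Y p → ∀ g ∈ G, ∀ g' ∈ G, p ∣ g → p ∣ g' → g = g') →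
      ∀ X : Finset ℤ, X.Nonempty →
        av G (fun g => dd g X Y) ≤ Bd ε lam (C4 / t0) W X Y from
    fun Y hY hpos hGc X hX => H _ Y rfl hY hpos hGc X hX
  intro n
  induction n using Nat.strong_induction_on with
  | _ n ih =>
  intro Y hn hY hpos hGc X hX
  have IH : ∀ Y' : Finset ℕ, Y' ⊆ Y → Y'.card < Y.card → Y'.Nonempty →
      ∀ X' : Finset ℤ, X'.Nonempty →
        av G (fun g => dd g X' Y') ≤ Bd ε lam (C4 / t0) W X' Y' := by
    intro Y' hsub hlt hne X' hX'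
    exact ih Y'.card (hn ▸ hlt) Y' rfl hne (fun y hy => hpos y (hsub hy))
      (fun p hp hNCp => hGc p hp (NC_mono hsub hNCp)) X' hX'
  by_cases h2 : Y.card < 2
  · have h1 : Y.card = 1 := by
      have := Finset.card_pos.2 hY
      omega
    have h3 : av G (fun g => dd g X Y) = 0 := by
      unfold av
      rw [Finset.sum_eq_zero (fun g _ => dd_one g X Y h1)]
      simp
    rw [h3]
    exact Bd_nonneg ε lam _ hε.le hlam.le hK W X Y
  push Not at h2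
  obtain ⟨p, j, hp, hdiv, hYp, hY0, hNC, -, hrr⟩ := exists_split Y hpos h2
  have hcard : (Y.filter (fun y => ¬ p ^ (j + 1) ∣ y)).card +
      (Y.filter (fun y => p ^ (j + 1) ∣ y)).card = Y.card := by
    rw [add_comm]
    exact Finset.card_filter_add_card_filter_not _
  have hYp0 := Finset.card_pos.2 hYp
  have hY00 := Finset.card_pos.2 hY0
  have hnot : ¬ NC (Y.filter (fun y => ¬ p ^ (j + 1) ∣ y)) p := by
    apply not_NC_of_exact p j hp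
    · intro z hz
      exact hpos z (Finset.mem_filter.1 hz).1
    · intro z hz
      exact hdiv z (Finset.mem_filter.1 hz).1
    · intro z hz
      exact (Finset.mem_filter.1 hz).2
  -- case A
  by_cases hA : (1 - κ) * (Y.card : ℝ) ≤
      ((Y.filter (fun y => ¬ p ^ (j + 1) ∣ y)).card : ℝ)
  · exact caseA ε lam _ κ hε.le hK hκ hκ1 hκl G hGne W X hX Y _ (Finset.filter_subset _ _) hYp hA
      (hrr _ (Finset.filter_subset _ _) hYp hnot)
      (IH _ (Finset.filter_subset _ _) (by omega) hYp X hX)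
  -- case B
  by_cases hB : Real.log (Y.card : ℝ) -
      Real.log ((Y.filter (fun y => p ^ (j + 1) ∣ y)).card : ℝ) ≤
      ε * hh (rX (p ^ (j + 1))) X
  · exact caseB ε lam _ hε.le hlam.le hK G hGne W (p ^ (j + 1)) X hX Y _
      (Finset.filter_subset _ _) hY0 (fun y hy => (Finset.mem_filter.1 hy).2) hB
      (fun X' hX' => IH _ (Finset.filter_subset _ _) (by omega) hY0 X' hX')
  have hclsub : ∀ y : ℕ, cl (rY (p ^ (j + 1))) Y y ⊆ Y := fun y => Finset.filter_subset _ _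
  have IHcl : ∀ X' : Finset ℤ, X'.Nonempty → ∀ y ∈ Y,
      av G (fun g => dd g X' (cl (rY (p ^ (j + 1))) Y y)) ≤
        Bd ε lam (C4 / t0) W X' (cl (rY (p ^ (j + 1))) Y y) := by
    intro X' hX' y hy
    exact IH _ (hclsub y) (cl_card_lt _ Y hYp hY0 y) ⟨y, mem_cl_self _ _ _ hy⟩ X' hX'
  -- case C
  by_cases hC : hh (rX (p ^ (j + 1))) X ≤ ε / 2 * hh (rY (p ^ (j + 1))) Y
  · exact caseC ε lam _ hε hlam.le hK G hGne hmC W p j hp (hGc p hp hNC) X hX Y hY hC IHcl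
  -- case E
  push Not at hA hB hC
  have hlow := hh_lower (rY (p ^ (j + 1))) Y (Y.filter (fun y => ¬ p ^ (j + 1) ∣ y)) hY
    (Finset.filter_subset _ _) hYp (by
      intro y hy z hz
      unfold cl at hz
      rw [Finset.mem_filter] at hy hz ⊢
      refine ⟨hz.1, fun hd => hy.2 ?_⟩
      have h3 : ((z : ℕ) : ZMod (p ^ (j + 1))) = ((y : ℕ) : ZMod (p ^ (j + 1))) := hz.2
      have h4 : ((z : ℕ) : ZMod (p ^ (j + 1))) = 0 := (ZMod.natCast_eq_zero_iff _ _).2 hd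
      rw [h4] at h3
      exact (ZMod.natCast_eq_zero_iff _ _).1 h3.symm)
  have hab : ((Y.filter (fun y => p ^ (j + 1) ∣ y)).card : ℝ) =
      (Y.card : ℝ) - ((Y.filter (fun y => ¬ p ^ (j + 1) ∣ y)).card : ℝ) := by
    rw [← hcard]
    push_cast
    ring
  rw [hab] at hB
  have hY0r : (0 : ℝ) < ((Y.filter (fun y => p ^ (j + 1) ∣ y)).card : ℝ) := by
    exact_mod_cast hY00
  obtain ⟨hX4, hY4, hτ⟩ := mid ε κ (Y.card : ℝ)
    ((Y.filter (fun y => ¬ p ^ (j + 1) ∣ y)).card : ℝ) (hh (rX (p ^ (j + 1))) X)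
    (hh (rY (p ^ (j + 1))) Y) hε hε1 hκ hκ1 (by exact_mod_cast Finset.card_pos.2 hY)
    (by exact_mod_cast hYp0) (by rw [hab] at hY0r; linarith) (hh_nonneg _ _ hX)
    (hh_nonneg _ _ hY) hA hB hC hlow
  rw [← hC4] at hX4 hY4
  rw [← ht0e] at hτ
  by_cases hpW : p ∈ W
  · exact caseE2 ε lam _ C4 t0 hε.le hlam.le hK ht0 (by rw [div_mul_cancel₀ _ ht0.ne']) G hGne W
      p j hp hpW X hX Y hY hpos hdiv hNC hτ hY4 IHcl
  · refine caseE1 ε lam _ C4 δ t0 hε.le hlam.le hK hC40 hδ hδ1 hδt ht0 r hr G hGne hmE W p j hp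
      (hW p hp hpW) X hX Y hY hpos hdiv hτ hrr hX4 hY4 ?_
    intro X' hX' Y' hY' hne ⟨y, hy, hsub⟩
    exact IH Y' hY' (lt_of_le_of_lt (Finset.card_le_card hsub) (cl_card_lt _ Y hYp hY0 y)) hne X' hX'

/-- Proposition S for `ε ≤ 1` and pairwise coprime `G` -/
theorem propS (ε lam : ℝ) (hε : 0 < ε) (hε1 : ε ≤ 1) (hlam : 0 < lam) :
    ∃ m : ℕ, 2 ≤ m ∧ ∃ K : ℝ, 0 ≤ K ∧
      ∀ G : Finset ℕ, m ≤ G.card → (∀ g ∈ G, ∀ g' ∈ G, g ≠ g' → Nat.Coprime g g') →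
      ∀ W : Finset ℕ, (∀ p : ℕ, p.Prime → p ∉ W → ∀ g ∈ G, ∀ g' ∈ G,
        ((g : ℕ) : ZMod p) = ((g' : ℕ) : ZMod p) → g = g') →
      ∀ Y : Finset ℕ, Y.Nonempty → (∀ y ∈ Y, 0 < y) → ∀ X : Finset ℤ, X.Nonempty →
        av G (fun g => dd g X Y) ≤ Bd ε lam K W X Y := by
  obtain ⟨m, hm, K, hK, h⟩ := propT ε lam hε hε1 hlam
  refine ⟨m, hm, K, hK, fun G hG hGc W hW Y hY hpos X hX => ?_⟩
  refine h G hG W hW Y hY hpos (fun p hp _ g hg g' hg' hd hd' => ?_) X hX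
  by_contra hne
  have h3 := hGc g hg g' hg' hne
  have h4 := Nat.dvd_gcd hd hd'
  rw [h3] at h4
  exact hp.one_lt.ne' (Nat.dvd_one.1 h4)

end Pool.Agent.Helper24.MD
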