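import Pool.Agent.Helper24.MD.Defs

set_option autoImplicit false

/-! # Project MD, Steps: averages and the disjoint class inequality -/

namespace Pool.Agent.Helper24.MD

open Finset

theorem av_add {α : Type*} (S : Finset α) (F F' : α → ℝ) :
    av S (fun x => F x + F' x) = av S F + av S F' := by
  unfold av
  rw [Finset.sum_add_distrib, add_div]

theorem av_mul {α : Type*} (S : Finset α) (c : ℝ) (F : α → ℝ) :
    av S (fun x => c * F x) = c * av S F := by
  unfold av
  rw [← Finset.mul_sum, mul_div_assoc]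

theorem av_const {α : Type*} (S : Finset α) (hS : S.Nonempty) (c : ℝ) :
    av S (fun _ => c) = c := by
  unfold av
  have : (S.card : ℝ) ≠ 0 := by
    have := Finset.card_pos.2 hS
    positivity
  rw [Finset.sum_const, nsmul_eq_mul]
  field_simp

theorem av_mono {α : Type*} (S : Finset α) (F F' : α → ℝ) (h : ∀ x ∈ S, F x ≤ F' x) :
    av S F ≤ av S F' := by
  unfold av
  exact div_le_div_of_nonneg_right (Finset.sum_le_sum h) (Nat.cast_nonneg _)

theorem av_comm {α β : Type*} (S : Finset α) (T : Finset β) (F : α → β → ℝ) :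
    av S (fun x => av T (fun y => F x y)) = av T (fun y => av S (fun x => F x y)) := by
  unfold av
  rw [← Finset.sum_div, ← Finset.sum_div, Finset.sum_comm, div_div, div_div, mul_comm]

theorem mem_cl_self {α β : Type*} [DecidableEq β] (φ : α → β) (S : Finset α) (x : α)
    (hx : x ∈ S) : x ∈ cl φ S x := by
  unfold cl
  simp [hx]

theorem hh_nonneg {α β : Type*} [DecidableEq β] (φ : α → β) (S : Finset α) (hS : S.Nonempty) :
    0 ≤ hh φ S := by
  unfold hh
  have h1 : av S (fun x => Real.log ((cl φ S x).card : ℝ)) ≤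
      av S (fun _ => Real.log (S.card : ℝ)) := by
    refine av_mono S _ _ fun x hx => ?_
    refine Real.log_le_log ?_ ?_
    · have : 0 < (cl φ S x).card := Finset.card_pos.2 ⟨x, mem_cl_self φ S x hx⟩
      exact_mod_cast this
    · exact_mod_cast Finset.card_le_card (Finset.filter_subset _ S)
  rw [av_const S hS] at h1
  linarith

/-- `log |T|` splits -/
theorem log_card_eq {α β : Type*} [DecidableEq β] (φ : α → β) (S : Finset α) :
    av S (fun x => Real.log ((cl φ S x).card : ℝ)) = Real.log (S.card : ℝ) - hh φ S := by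
  unfold hh
  ring

/-- Gibbs / Jensen: `log (sum over the classes of w) ≥ H + average of log w`. -/
theorem gibbs {α ι : Type*} [DecidableEq ι] (φ : α → ι) (S : Finset α) (hS : S.Nonempty)
    (w : α → ℝ) (hw : ∀ x ∈ S, 0 < w x) :
    hh φ S + av S (fun x => Real.log (w x)) ≤
      Real.log (∑ x ∈ S, w x / ((cl φ S x).card : ℝ)) := by
  have hcl : ∀ x ∈ S, (0 : ℝ) < ((cl φ S x).card : ℝ) := by
    intro x hx
    have : 0 < (cl φ S x).card := Finset.card_pos.2 ⟨x, mem_cl_self φ S x hx⟩
    exact_mod_cast this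
  have hScard : (0 : ℝ) < (S.card : ℝ) := by
    have := Finset.card_pos.2 hS
    exact_mod_cast this
  set sg : ℝ := ∑ x ∈ S, w x / ((cl φ S x).card : ℝ) with hsg
  have hsgpos : 0 < sg := Finset.sum_pos (fun x hx => div_pos (hw x hx) (hcl x hx)) hS
  have key : ∀ x ∈ S, Real.log (S.card : ℝ) - Real.log ((cl φ S x).card : ℝ) + Real.log (w x) ≤
      Real.log sg + ((S.card : ℝ) / sg * (w x / ((cl φ S x).card : ℝ)) - 1) := by
    intro x hx
    have hc := hcl x hx
    have hwx := hw x hx
    have hpos : 0 < (S.card : ℝ) / sg * (w x / ((cl φ S x).card : ℝ)) := by positivity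
    have h1 := Real.log_le_sub_one_of_pos hpos
    rw [Real.log_mul (by positivity) (by positivity), Real.log_div hScard.ne' hsgpos.ne',
      Real.log_div hwx.ne' hc.ne'] at h1
    linarith
  have h2 := av_mono S _ _ key
  have h3 : av S (fun x => Real.log sg +
      ((S.card : ℝ) / sg * (w x / ((cl φ S x).card : ℝ)) - 1)) = Real.log sg := by
    have e1 : (fun x => Real.log sg +
        ((S.card : ℝ) / sg * (w x / ((cl φ S x).card : ℝ)) - 1)) =
        fun x => (Real.log sg - 1) + (S.card : ℝ) / sg * (w x / ((cl φ S x).card : ℝ)) := by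
      funext x
      ring
    rw [e1, av_add, av_const S hS, av_mul]
    have e2 : av S (fun x => w x / ((cl φ S x).card : ℝ)) = sg / (S.card : ℝ) := rfl
    rw [e2]
    field_simp
    ring
  have h4 : av S (fun x => Real.log (S.card : ℝ) - Real.log ((cl φ S x).card : ℝ) +
      Real.log (w x)) = hh φ S + av S (fun x => Real.log (w x)) := by
    have e1 : (fun x => Real.log (S.card : ℝ) - Real.log ((cl φ S x).card : ℝ) +
        Real.log (w x)) = fun x => (Real.log (S.card : ℝ) +
          (-1) * Real.log ((cl φ S x).card : ℝ)) + Real.log (w x) := by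
      funext x
      ring
    rw [e1, av_add, av_add, av_const S hS, av_mul]
    unfold hh
    ring
  rw [h3, h4] at h2
  exact h2

/-- disjoint classes: `log |Z| ≥ H + average of log |U|` -/
theorem step_basic {τ γ ι : Type*} [DecidableEq ι] [DecidableEq γ] (c : τ → ι) (T : Finset τ)
    (hT : T.Nonempty) (U : τ → Finset γ) (hU : ∀ t ∈ T, (U t).Nonempty)
    (hcon : ∀ t ∈ T, ∀ t' ∈ T, c t = c t' → U t = U t')
    (hdis : ∀ t ∈ T, ∀ t' ∈ T, c t ≠ c t' → Disjoint (U t) (U t')) (Z : Finset γ)
    (hZ : ∀ t ∈ T, U t ⊆ Z) :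
    hh c T + av T (fun t => Real.log ((U t).card : ℝ)) ≤ Real.log (Z.card : ℝ) := by
  have hw : ∀ t ∈ T, (0 : ℝ) < ((U t).card : ℝ) := by
    intro t ht
    have := Finset.card_pos.2 (hU t ht)
    exact_mod_cast this
  have hcl : ∀ t ∈ T, (0 : ℝ) < ((cl c T t).card : ℝ) := by
    intro t ht
    have : 0 < (cl c T t).card := Finset.card_pos.2 ⟨t, mem_cl_self c T t ht⟩
    exact_mod_cast this
  refine (gibbs c T hT (fun t => ((U t).card : ℝ)) hw).trans ?_
  refine Real.log_le_log (Finset.sum_pos (fun t ht => div_pos (hw t ht) (hcl t ht)) hT) ?_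
  have h1 : ∀ t ∈ T, ((U t).card : ℝ) / ((cl c T t).card : ℝ) =
      ∑ z ∈ Z, if z ∈ U t then (1 : ℝ) / ((cl c T t).card : ℝ) else 0 := by
    intro t ht
    rw [← Finset.sum_filter, Finset.sum_const, nsmul_eq_mul]
    have e : Z.filter (fun z => z ∈ U t) = U t := by
      ext z
      simp only [Finset.mem_filter]
      exact ⟨fun h => h.2, fun h => ⟨hZ t ht h, h⟩⟩
    rw [e]
    ring
  rw [Finset.sum_congr rfl h1, Finset.sum_comm]
  have h2 : ∀ z ∈ Z, (∑ t ∈ T, if z ∈ U t then (1 : ℝ) / ((cl c T t).card : ℝ) else 0) ≤ 1 := by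
    intro z _
    rw [← Finset.sum_filter]
    rcases (T.filter fun t => z ∈ U t).eq_empty_or_nonempty with he | ⟨t0, ht0⟩
    · rw [he, Finset.sum_empty]
      exact zero_le_one
    · rw [Finset.mem_filter] at ht0
      have hc0 := hcl t0 ht0.1
      have hsame : ∀ t ∈ T, z ∈ U t → c t = c t0 := by
        intro t ht hz
        by_contra hne
        exact Finset.disjoint_left.1 (hdis t ht t0 ht0.1 hne) hz ht0.2
      have hsub : (T.filter fun t => z ∈ U t) ⊆ cl c T t0 := by
        intro t ht
        rw [Finset.mem_filter] at ht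
        unfold cl
        rw [Finset.mem_filter]
        exact ⟨ht.1, hsame t ht.1 ht.2⟩
      have hval : ∀ t ∈ T.filter (fun t => z ∈ U t),
          (1 : ℝ) / ((cl c T t).card : ℝ) = 1 / ((cl c T t0).card : ℝ) := by
        intro t ht
        rw [Finset.mem_filter] at ht
        have : cl c T t = cl c T t0 := by
          unfold cl
          rw [hsame t ht.1 ht.2]
        rw [this]
      rw [Finset.sum_congr rfl hval, Finset.sum_const, nsmul_eq_mul]
      have hle : ((T.filter fun t => z ∈ U t).card : ℝ) ≤ ((cl c T t0).card : ℝ) := by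
        exact_mod_cast Finset.card_le_card hsub
      rw [mul_one_div, div_le_one hc0]
      exact hle
  calc (∑ z ∈ Z, ∑ t ∈ T, if z ∈ U t then (1 : ℝ) / ((cl c T t).card : ℝ) else 0)
      ≤ ∑ _z ∈ Z, (1 : ℝ) := Finset.sum_le_sum h2
    _ = (Z.card : ℝ) := by simp

/-- entropy is at most the logarithm of the number of classes -/
theorem hh_le_log_card {α β : Type*} [DecidableEq β] (φ : α → β) (S : Finset α)
    (hS : S.Nonempty) : hh φ S ≤ Real.log ((S.image φ).card : ℝ) := by
  have h := step_basic φ S hS (fun t => ({φ t} : Finset β)) (fun t _ => ⟨φ t, by simp⟩)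
    (fun t _ t' _ htt => by rw [htt])
    (fun t _ t' _ htt => by
      rw [Finset.disjoint_singleton]
      exact htt)
    (S.image φ) (fun t ht => by
      intro z hz
      rw [Finset.mem_singleton] at hz
      rw [hz]
      exact Finset.mem_image_of_mem φ ht)
  have h1 : av S (fun t => Real.log ((({φ t} : Finset β).card : ℕ) : ℝ)) = 0 := by
    unfold av
    simp
  rw [h1, add_zero] at h
  exact h

end Pool.Agent.Helper24.MD
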